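import Mathlib

open MeasureTheory Set
open scoped BigOperators

namespace Pool.Agent.V5helper59.Wish

/-- `w^p ≤ M e^{c w}` -/
lemma rpow_le_exp {p c : ℝ} (hp : 0 ≤ p) (hc : 0 < c) :
    ∃ M, 0 < M ∧ ∀ w, 0 ≤ w → w ^ p ≤ M * Real.exp (c * w) := by
  have hθ : 0 < c / (p+1) := by positivity
  refine ⟨(1/(c/(p+1)))^p, by positivity, fun w hw => ?_⟩
  have h1 : w ≤ (1/(c/(p+1))) * Real.exp ((c/(p+1)) * w) := by
    have := Real.add_one_le_exp ((c/(p+1)) * w)
    rw [one_div, ← div_eq_inv_mul, le_div_iff₀ hθ]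
    nlinarith
  calc w ^ p ≤ ((1/(c/(p+1))) * Real.exp ((c/(p+1)) * w)) ^ p := Real.rpow_le_rpow hw h1 hp
    _ = (1/(c/(p+1)))^p * Real.exp ((c/(p+1)) * w) ^ p :=
        Real.mul_rpow (by positivity) (by positivity)
    _ ≤ _ := by
      gcongr
      rw [← Real.exp_mul]
      apply Real.exp_le_exp.2
      have : c/(p+1) * w * p = c * w * (p/(p+1)) := by field_simp
      rw [this]
      have h2 : p/(p+1) ≤ 1 := by rw [div_le_one (by linarith)]; linarith
      nlinarith [mul_nonneg hc.le hw]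

/-- the radial density -/
noncomputable def rho (ν η u : ℝ) : ℝ := u ^ ν * Real.exp (-(η / 2) * u)

lemma rho_nonneg {ν η u : ℝ} (hu : 0 ≤ u) : 0 ≤ rho ν η u := by
  unfold rho; positivity

lemma rho_cont {ν η : ℝ} (hν : 0 ≤ ν) : Continuous (rho ν η) := by
  unfold rho
  exact (Real.continuous_rpow_const hν).mul (by fun_prop)

lemma rho_le {ν η : ℝ} (hν : 0 ≤ ν) (hη : 0 < η) :
    ∃ M, 0 < M ∧ ∀ u, 0 ≤ u → rho ν η u ≤ M * Real.exp (-(η / 4) * u) := by
  obtain ⟨M, hM, h⟩ := rpow_le_exp (c := η/4) hν (by positivity)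
  refine ⟨M, hM, fun u hu => ?_⟩
  unfold rho
  calc u ^ ν * Real.exp (-(η / 2) * u) ≤ (M * Real.exp (η/4 * u)) * Real.exp (-(η / 2) * u) := by
        gcongr; exact h u hu
    _ = M * Real.exp (-(η / 4) * u) := by
        rw [mul_assoc, ← Real.exp_add]; ring_nf

lemma rho_integrableOn {ν η : ℝ} (hν : 0 ≤ ν) (hη : 0 < η) (a : ℝ) :
    IntegrableOn (rho ν η) (Ioi a) := by
  obtain ⟨M, hM, h⟩ := rho_le hν hη
  have h0 : IntegrableOn (rho ν η) (Ioi 0) := by
    have hi : IntegrableOn (fun u => M * Real.exp (-(η / 4) * u)) (Ioi 0) :=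
      (integrableOn_exp_mul_Ioi (by linarith) 0).const_mul M
    refine Integrable.mono' hi (rho_cont hν).aestronglyMeasurable ?_
    refine (ae_restrict_iff' measurableSet_Ioi).2 (Filter.Eventually.of_forall fun u hu => ?_)
    rw [Real.norm_of_nonneg (rho_nonneg (le_of_lt hu))]
    exact h u (le_of_lt hu)
  rcases le_or_gt 0 a with ha | ha
  · exact h0.mono_set (Ioi_subset_Ioi ha)
  · have : Ioi a = Ioc a 0 ∪ Ioi 0 := (Ioc_union_Ioi_eq_Ioi ha.le).symm
    rw [this]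
    refine IntegrableOn.union ?_ h0
    exact ((rho_cont hν).integrableOn_Icc).mono_set Ioc_subset_Icc_self

/-- the potential -/
noncomputable def chi (ν η u : ℝ) : ℝ := (1/2) * ∫ w in Ioi u, rho ν η w

lemma chi_hasDerivAt {ν η : ℝ} (hν : 0 ≤ ν) (hη : 0 < η) (u : ℝ) :
    HasDerivAt (chi ν η) (-(1/2) * rho ν η u) u := by
  have h1 : chi ν η = fun u => (1/2) * ((∫ w in Ioi (0:ℝ), rho ν η w) - ∫ w in (0:ℝ)..u, rho ν η w) := by
    funext v
    unfold chi
    have := intervalIntegral.integral_interval_add_Ioi (rho_integrableOn hν hη 0)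
      (rho_integrableOn hν hη v)
    rw [← this]; ring
  rw [h1]
  have h2 : HasDerivAt (fun u => ∫ w in (0:ℝ)..u, rho ν η w) (rho ν η u) u :=
    intervalIntegral.integral_hasDerivAt_right ((rho_cont hν).intervalIntegrable _ _)
      ((rho_cont hν).stronglyMeasurableAtFilter _ _) (rho_cont hν).continuousAt
  have := (h2.const_sub (∫ w in Ioi (0:ℝ), rho ν η w)).const_mul (1/2)
  refine this.congr_deriv ?_
  ring

lemma chi_cont {ν η : ℝ} (hν : 0 ≤ ν) (hη : 0 < η) : Continuous (chi ν η) :=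
  continuous_iff_continuousAt.2 fun u => (chi_hasDerivAt hν hη u).continuousAt

lemma chi_nonneg {ν η u : ℝ} (hu : 0 ≤ u) : 0 ≤ chi ν η u := by
  unfold chi
  have : 0 ≤ ∫ w in Ioi u, rho ν η w :=
    setIntegral_nonneg measurableSet_Ioi fun w hw => rho_nonneg (hu.trans (le_of_lt hw))
  positivity

lemma chi_le {ν η : ℝ} (hν : 0 ≤ ν) (hη : 0 < η) :
    ∃ M, 0 < M ∧ ∀ u, 0 ≤ u → chi ν η u ≤ M * Real.exp (-(η / 4) * u) := by
  obtain ⟨M, hM, h⟩ := rho_le hν hη
  refine ⟨(1/2) * (M * (4/η)), by positivity, fun u hu => ?_⟩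
  unfold chi
  have h1 : ∫ w in Ioi u, rho ν η w ≤ ∫ w in Ioi u, M * Real.exp (-(η / 4) * w) := by
    refine setIntegral_mono_on (rho_integrableOn hν hη u)
      ((integrableOn_exp_mul_Ioi (by linarith) u).const_mul M) measurableSet_Ioi
      fun w hw => h w (hu.trans (le_of_lt hw))
  have h2 : ∫ w in Ioi u, M * Real.exp (-(η / 4) * w) = M * (4/η) * Real.exp (-(η / 4) * u) := by
    rw [MeasureTheory.integral_const_mul, integral_exp_mul_Ioi (by linarith)]
    field_simp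
  rw [h2] at h1
  calc _ ≤ (1/2) * (M * (4/η) * Real.exp (-(η / 4) * u)) := by gcongr
    _ = _ := by ring

end Pool.Agent.V5helper59.Wish
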