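import Pool.Agent.V5helper59.Wish.A9

open MeasureTheory Set Matrix Filter
open scoped BigOperators Topology ENNReal

set_option linter.unusedSectionVars false

namespace Pool.Agent.V5helper59.Wish

variable {κ : Type*} [Fintype κ] {J : Type*} [Fintype J] {n : ℝ} {f : J → QD κ}

lemma inner_int {ν u : ℝ} (hν : 0 < ν) (hu : 0 < u) :
    ∫⁻ t in Ioi (0:ℝ), ENNReal.ofReal (t ^ (ν - 1) * rho ν (1 + t) u)
      = ENNReal.ofReal (2 ^ ν * Real.Gamma ν * Real.exp (-(1/2) * u)) := by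
  have e : ∀ t ∈ Ioi (0:ℝ), t ^ (ν - 1) * rho ν (1 + t) u
      = (u ^ ν * Real.exp (-(1/2) * u)) * (t ^ (ν - 1) * Real.exp (-(u / 2 * t))) := by
    intro t _
    unfold rho
    have : Real.exp (-((1 + t) / 2) * u) = Real.exp (-(1/2) * u) * Real.exp (-(u / 2 * t)) := by
      rw [← Real.exp_add]; ring_nf
    rw [this]; ring
  have h1 := Real.integral_rpow_mul_exp_neg_mul_Ioi hν (r := u / 2) (by positivity)
  have hG : 0 < Real.Gamma ν := Real.Gamma_pos_of_pos hν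
  have hpos : 0 < (1 / (u / 2)) ^ ν * Real.Gamma ν := by positivity
  have hint : IntegrableOn (fun t : ℝ => t ^ (ν - 1) * Real.exp (-(u / 2 * t))) (Ioi 0) := by
    by_contra hcon
    rw [integral_undef hcon] at h1
    linarith
  have hint2 : IntegrableOn (fun t : ℝ => t ^ (ν - 1) * rho ν (1 + t) u) (Ioi 0) := by
    refine (hint.const_mul (u ^ ν * Real.exp (-(1/2) * u))).congr ?_
    refine (ae_restrict_iff' measurableSet_Ioi).2 (Eventually.of_forall fun t ht => (e t ht).symm)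
  rw [← ofReal_integral_eq_lintegral_ofReal hint2]
  · congr 1
    rw [setIntegral_congr_fun measurableSet_Ioi e, MeasureTheory.integral_const_mul, h1]
    rw [show (1:ℝ) / (u / 2) = 2 / u by field_simp, Real.div_rpow (by norm_num) hu.le]
    have h5 : (0:ℝ) < u ^ ν := by positivity
    have h6 : (0:ℝ) < 2 ^ ν := by positivity
    field_simp
  · refine (ae_restrict_iff' measurableSet_Ioi).2 (Eventually.of_forall fun t ht => ?_)
    have ht : 0 < t := ht
    have := rho_nonneg (ν := ν) (η := 1 + t) hu.le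
    simp only [Pi.zero_apply]; positivity

/-- the Gaussian weight on the half space -/
noncomputable def Wt (k : ℝ) (z : (κ → ℝ) × ℝ) : ℝ≥0∞ :=
  ENNReal.ofReal (z.2 ^ k * Real.exp (-(1/2) * sq z.1 z.2))

lemma measurable_Wt (k : ℝ) : Measurable (Wt (κ := κ) k) := by
  unfold Wt
  refine ENNReal.measurable_ofReal.comp ?_
  exact (measurable_snd.pow_const k).mul ((measurable_sq.const_mul _).exp)

lemma lint_NN (hf : ∀ j, (f j).Good n) {ν η k : ℝ} (hν : 0 ≤ ν) (hη : 0 < η) (hk : -1 < k) :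
    ∫⁻ z, ENNReal.ofReal (z.2 ^ k * (phi f z.1 z.2 * rho ν η (sq z.1 z.2))) ∂(hm κ)
      = ENNReal.ofReal (NN f ν k η) := by
  unfold NN
  rw [ofReal_integral_eq_lintegral_ofReal (NN_integrable hf hν hη hk)]
  filter_upwards [ae_pos] with z hz
  have h4 := (phi_pos hf z.1 z.2).le
  have h5 := rho_nonneg (ν := ν) (η := η) (sq_nonneg' z.1 z.2)
  have h6 : 0 ≤ z.2 ^ k := Real.rpow_nonneg hz.le _
  simp only [Pi.zero_apply]
  positivity

lemma rho_one {ν u : ℝ} : rho ν 1 u = u ^ ν * Real.exp (-(1/2) * u) := by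
  unfold rho; norm_num

lemma lint_one (hf : ∀ j, (f j).Good n) {ν k : ℝ} :
    ∫⁻ z, ENNReal.ofReal (z.2 ^ k * (phi f z.1 z.2 * rho ν 1 (sq z.1 z.2))) ∂(hm κ)
      = ∫⁻ z, Wt k z * (ENNReal.ofReal (sq z.1 z.2 ^ ν) * ENNReal.ofReal (phi f z.1 z.2)) ∂(hm κ) := by
  refine lintegral_congr_ae ?_
  filter_upwards [ae_pos] with z hz
  have h4 := (phi_pos hf z.1 z.2).le
  have h6 : 0 ≤ z.2 ^ k := Real.rpow_nonneg hz.le _
  have h7 := sq_nonneg' z.1 z.2
  have h8 : 0 ≤ sq z.1 z.2 ^ ν := Real.rpow_nonneg h7 _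
  unfold Wt
  rw [rho_one, ← ENNReal.ofReal_mul h8, ← ENNReal.ofReal_mul (by positivity)]
  congr 1; ring

lemma mixture (hf : ∀ j, (f j).Good n) {ν k : ℝ} (hν : 0 < ν) :
    ∫⁻ t in Ioi (0:ℝ), ENNReal.ofReal (t ^ (ν - 1)) *
      ∫⁻ z, ENNReal.ofReal (z.2 ^ k * (phi f z.1 z.2 * rho ν (1 + t) (sq z.1 z.2))) ∂(hm κ)
      = ENNReal.ofReal (2 ^ ν * Real.Gamma ν) *
        ∫⁻ z, Wt k z * ENNReal.ofReal (phi f z.1 z.2) ∂(hm κ) := by
  have m1 : Measurable fun p : ℝ × ((κ → ℝ) × ℝ) =>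
      ENNReal.ofReal (p.2.2 ^ k * (phi f p.2.1 p.2.2 * rho ν (1 + p.1) (sq p.2.1 p.2.2))) := by
    refine ENNReal.measurable_ofReal.comp ?_
    have hsq : Measurable fun p : ℝ × ((κ → ℝ) × ℝ) => sq p.2.1 p.2.2 := measurable_sq.comp measurable_snd
    have hphi : Measurable fun p : ℝ × ((κ → ℝ) × ℝ) => phi f p.2.1 p.2.2 :=
      measurable_phi.comp measurable_snd
    have h2 : Measurable fun p : ℝ × ((κ → ℝ) × ℝ) => p.2.2 := by fun_prop
    have h1 : Measurable fun p : ℝ × ((κ → ℝ) × ℝ) => -((1 + p.1) / 2) := by fun_prop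
    unfold rho
    exact (h2.pow_const k).mul (hphi.mul ((hsq.pow_const ν).mul ((h1.mul hsq).exp)))
  have step : ∀ t, ENNReal.ofReal (t ^ (ν - 1)) *
      ∫⁻ z, ENNReal.ofReal (z.2 ^ k * (phi f z.1 z.2 * rho ν (1 + t) (sq z.1 z.2))) ∂(hm κ)
      = ∫⁻ z, ENNReal.ofReal (t ^ (ν - 1)) *
        ENNReal.ofReal (z.2 ^ k * (phi f z.1 z.2 * rho ν (1 + t) (sq z.1 z.2))) ∂(hm κ) := by
    intro t
    rw [lintegral_const_mul]
    exact m1.comp (measurable_const.prodMk measurable_id)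
  simp_rw [step]
  rw [lintegral_lintegral_swap]
  swap
  · have m0 : Measurable fun p : ℝ × ((κ → ℝ) × ℝ) => ENNReal.ofReal (p.1 ^ (ν - 1)) := by fun_prop
    exact (m0.mul m1).aemeasurable
  rw [← lintegral_const_mul]
  swap
  · exact (measurable_Wt k).mul (ENNReal.measurable_ofReal.comp measurable_phi)
  refine lintegral_congr_ae ?_
  filter_upwards [ae_pos] with z hz
  have h4 := (phi_pos hf z.1 z.2).le
  have h6 : 0 ≤ z.2 ^ k := Real.rpow_nonneg hz.le _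
  have h7 := sq_pos z.1 hz
  have hG : 0 < Real.Gamma ν := Real.Gamma_pos_of_pos hν
  have e : ∀ t ∈ Ioi (0:ℝ), ENNReal.ofReal (t ^ (ν - 1)) *
        ENNReal.ofReal (z.2 ^ k * (phi f z.1 z.2 * rho ν (1 + t) (sq z.1 z.2)))
      = ENNReal.ofReal (z.2 ^ k * phi f z.1 z.2) * ENNReal.ofReal (t ^ (ν - 1) * rho ν (1 + t) (sq z.1 z.2)) := by
    intro t ht
    have ht : 0 < t := ht
    rw [← ENNReal.ofReal_mul (by positivity), ← ENNReal.ofReal_mul (by positivity)]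
    congr 1; ring
  rw [setLIntegral_congr_fun measurableSet_Ioi e, lintegral_const_mul, inner_int hν h7]
  · unfold Wt
    rw [← ENNReal.ofReal_mul (by positivity), ← ENNReal.ofReal_mul (by positivity),
      ← ENNReal.ofReal_mul (by positivity)]
    congr 1; ring
  · refine ENNReal.measurable_ofReal.comp ?_
    unfold rho
    fun_prop

/-- **Main analytic inequality.** -/
theorem ana (hf : ∀ j, (f j).Good n) {ν k : ℝ} (hν : 0 ≤ ν) (hk : -1 < k)
    (hn : n = Fintype.card κ + 1 + k) :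
    (∫⁻ z, Wt k z * ENNReal.ofReal (sq z.1 z.2 ^ ν) ∂(hm κ)) *
        (∫⁻ z, Wt k z * ENNReal.ofReal (phi f z.1 z.2) ∂(hm κ))
      ≤ (∫⁻ z, Wt k z ∂(hm κ)) *
        (∫⁻ z, Wt k z * (ENNReal.ofReal (sq z.1 z.2 ^ ν) * ENNReal.ofReal (phi f z.1 z.2)) ∂(hm κ)) := by
  rcases hν.eq_or_lt with rfl | hν0
  · simp
  set f0 : Empty → QD κ := fun j => j.elim with hf0d
  have hf0 : ∀ j, (f0 j).Good n := fun j => j.elim
  have hphi0 : ∀ s y, phi f0 s y = 1 := fun s y => by simp [phi]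
  have hG : 0 < Real.Gamma ν := Real.Gamma_pos_of_pos hν0
  set C : ℝ≥0∞ := ENNReal.ofReal (2 ^ ν * Real.Gamma ν) with hC
  have hC0 : C ≠ 0 := by
    rw [hC]; simp only [ne_eq, ENNReal.ofReal_eq_zero, not_le]; positivity
  have hCt : C ≠ ⊤ := ENNReal.ofReal_ne_top
  have key : (∫⁻ t in Ioi (0:ℝ), ENNReal.ofReal (t ^ (ν - 1)) *
      ∫⁻ z, ENNReal.ofReal (z.2 ^ k * (phi f z.1 z.2 * rho ν (1 + t) (sq z.1 z.2))) ∂(hm κ)) *
        ENNReal.ofReal (NN f0 ν k 1)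
      ≤ (∫⁻ t in Ioi (0:ℝ), ENNReal.ofReal (t ^ (ν - 1)) *
      ∫⁻ z, ENNReal.ofReal (z.2 ^ k * (phi f0 z.1 z.2 * rho ν (1 + t) (sq z.1 z.2))) ∂(hm κ)) *
        ENNReal.ofReal (NN f ν k 1) := by
    rw [← lintegral_mul_const' _ _ ENNReal.ofReal_ne_top, ← lintegral_mul_const' _ _ ENNReal.ofReal_ne_top]
    refine setLIntegral_mono' measurableSet_Ioi fun t ht => ?_
    have ht : 0 < t := ht
    rw [lint_NN hf hν (by linarith) hk, lint_NN hf0 hν (by linarith) hk, mul_assoc, mul_assoc]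
    refine mul_le_mul_right ?_ _
    rw [← ENNReal.ofReal_mul (NN_nonneg hf), ← ENNReal.ofReal_mul (NN_nonneg hf0)]
    exact ENNReal.ofReal_le_ofReal (NN_compare hf hν hk hn (by linarith) f0)
  rw [mixture hf hν0, mixture hf0 hν0, ← lint_NN hf0 hν one_pos hk, ← lint_NN hf hν one_pos hk,
    lint_one hf0, lint_one hf, ← hC] at key
  simp only [hphi0, ENNReal.ofReal_one, mul_one] at key
  rw [mul_assoc, mul_assoc] at key
  have := (ENNReal.mul_le_mul_iff_right hC0 hCt).1 key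
  rw [mul_comm]
  exact this

end Pool.Agent.V5helper59.Wish
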