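import Pool.Agent.V5helper59.Wish.A1

open MeasureTheory Set Matrix
open scoped BigOperators

namespace Pool.Agent.V5helper59.Wish

/-- data of a quadratic polynomial `a |r|² - s·Ps + 2 b·s + c`, `r = (s, y)`, with a lower bound `δ`
and an exponent `ν` -/
structure QD (κ : Type*) where
  a : ℝ
  P : Matrix κ κ ℝ
  b : κ → ℝ
  c : ℝ
  δ : ℝ
  ν : ℝ

variable {κ : Type*} [Fintype κ]

/-- `|r|²` -/
def sq (s : κ → ℝ) (y : ℝ) : ℝ := s ⬝ᵥ s + y ^ 2

lemma dot_self_nonneg (s : κ → ℝ) : 0 ≤ s ⬝ᵥ s := by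
  simp only [dotProduct]; exact Finset.sum_nonneg fun i _ => mul_self_nonneg _

lemma sq_nonneg' (s : κ → ℝ) (y : ℝ) : 0 ≤ sq s y := by
  unfold sq; have := dot_self_nonneg s; positivity

lemma sq_pos (s : κ → ℝ) {y : ℝ} (hy : 0 < y) : 0 < sq s y := by
  unfold sq; have := dot_self_nonneg s; positivity

lemma coord_sq_le (s : κ → ℝ) (y : ℝ) (i : κ) : s i ^ 2 ≤ sq s y := by
  have h : s i * s i ≤ s ⬝ᵥ s :=
    Finset.single_le_sum (f := fun i => s i * s i) (fun i _ => mul_self_nonneg _) (Finset.mem_univ i)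
  unfold sq; nlinarith [_root_.sq_nonneg y]

namespace QD

/-- the polynomial -/
def val (f : QD κ) (s : κ → ℝ) (y : ℝ) : ℝ :=
  f.a * sq s y - s ⬝ᵥ (f.P *ᵥ s) + 2 * (f.b ⬝ᵥ s) + f.c

/-- the gradient in `s` -/
def g (f : QD κ) (s : κ → ℝ) : κ → ℝ := (2 * f.a) • s - (2:ℝ) • (f.P *ᵥ s) + (2:ℝ) • f.b

/-- the conditions -/
structure Good (f : QD κ) (n : ℝ) : Prop where
  a_nonneg : 0 ≤ f.a
  P_psd : f.P.PosSemidef
  δ_pos : 0 < f.δ
  le_val : ∀ s y, f.δ ≤ f.val s y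
  tr : f.P.trace ≤ f.a * (n - 2)
  ν_nonneg : 0 ≤ f.ν

variable {f : QD κ}

lemma val_add (hP : f.Pᵀ = f.P) (s v : κ → ℝ) (y z : ℝ) :
    f.val (s + v) (y + z) = f.val s y + f.g s ⬝ᵥ v + 2 * f.a * y * z
      + f.a * (v ⬝ᵥ v + z ^ 2) - v ⬝ᵥ (f.P *ᵥ v) := by
  have h1 : s ⬝ᵥ (f.P *ᵥ v) = v ⬝ᵥ (f.P *ᵥ s) := by
    rw [dotProduct_mulVec, ← mulVec_transpose, hP, dotProduct_comm]
  have h2 : (f.P *ᵥ s) ⬝ᵥ v = v ⬝ᵥ (f.P *ᵥ s) := dotProduct_comm _ _
  have h3 : v ⬝ᵥ s = s ⬝ᵥ v := dotProduct_comm _ _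
  simp only [val, g, sq, add_dotProduct, dotProduct_add, mulVec_add, sub_dotProduct, smul_dotProduct,
    smul_eq_mul, h1, h2, h3]
  ring

lemma Good.symm {n : ℝ} (h : f.Good n) : f.Pᵀ = f.P := by
  have := h.P_psd.1
  rwa [IsHermitian, conjTranspose_eq_transpose_of_trivial] at this

lemma Good.val_pos {n : ℝ} (h : f.Good n) (s : κ → ℝ) (y : ℝ) : 0 < f.val s y :=
  lt_of_lt_of_le h.δ_pos (h.le_val s y)

lemma Good.grad {n : ℝ} (h : f.Good n) (s : κ → ℝ) (y : ℝ) :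
    f.g s ⬝ᵥ f.g s + (2 * f.a * y) ^ 2 ≤ 4 * f.a * f.val s y := by
  set G := f.g s ⬝ᵥ f.g s + (2 * f.a * y) ^ 2 with hG
  have hG0 : 0 ≤ G := by have := dot_self_nonneg (f.g s); positivity
  have hv := h.val_pos s y
  have key : ∀ ε : ℝ, 0 < ε → G ≤ 4 * (f.a + ε) * f.val s y := by
    intro ε hε
    have hA : 0 < f.a + ε := by linarith [h.a_nonneg]
    set t : ℝ := 1 / (2 * (f.a + ε)) with ht
    have ht0 : 0 < t := by positivity
    have h1 := val_add h.symm s ((-t) • f.g s) y ((-t) * (2 * f.a * y))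
    have h2 := (h.val_pos (s + (-t) • f.g s) (y + (-t) * (2 * f.a * y))).le
    have h3 : 0 ≤ ((-t) • f.g s) ⬝ᵥ (f.P *ᵥ ((-t) • f.g s)) := by
      have := h.P_psd.dotProduct_mulVec_nonneg ((-t) • f.g s)
      simpa using this
    rw [h1] at h2
    have h4 : f.g s ⬝ᵥ ((-t) • f.g s) = -t * (f.g s ⬝ᵥ f.g s) := by
      rw [dotProduct_smul, smul_eq_mul]
    have h5 : ((-t) • f.g s) ⬝ᵥ ((-t) • f.g s) = t ^ 2 * (f.g s ⬝ᵥ f.g s) := by
      rw [dotProduct_smul, smul_dotProduct, smul_eq_mul, smul_eq_mul]; ring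
    rw [h4, h5] at h2
    have h6 : 0 ≤ f.val s y - t * G + f.a * (t ^ 2 * G) := by
      have : f.val s y + -t * (f.g s ⬝ᵥ f.g s) + 2 * f.a * y * (-t * (2 * f.a * y))
          + f.a * (t ^ 2 * (f.g s ⬝ᵥ f.g s) + (-t * (2 * f.a * y)) ^ 2)
          = f.val s y - t * G + f.a * (t ^ 2 * G) := by rw [hG]; ring
      linarith
    have h7 : f.a * (t ^ 2 * G) ≤ (f.a + ε) * (t ^ 2 * G) := by
      apply mul_le_mul_of_nonneg_right (by linarith) (by positivity)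
    have h8 : (f.a + ε) * (t ^ 2 * G) = t * G / 2 := by
      rw [ht]; field_simp
    have h9 : t * G / 2 ≤ f.val s y := by linarith
    have h10 : t * G / 2 = G / (4 * (f.a + ε)) := by rw [ht]; field_simp; ring
    rw [h10, div_le_iff₀ (by positivity)] at h9
    linarith
  by_contra hcon
  push Not at hcon
  have hd : 0 < (G - 4 * f.a * f.val s y) / (8 * f.val s y) :=
    div_pos (by linarith) (by positivity)
  have := key _ hd
  have h2 : 4 * (f.a + (G - 4 * f.a * f.val s y) / (8 * f.val s y)) * f.val s y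
      = 4 * f.a * f.val s y + (G - 4 * f.a * f.val s y) / 2 := by
    field_simp; ring
  rw [h2] at this
  linarith

lemma val_le (f : QD κ) (hP : f.P.PosSemidef) (ha : 0 ≤ f.a) (s : κ → ℝ) (y : ℝ) :
    f.val s y ≤ (f.a + 1 + f.b ⬝ᵥ f.b + |f.c|) * (1 + sq s y) := by
  have h1 : 0 ≤ s ⬝ᵥ (f.P *ᵥ s) := by
    have := hP.dotProduct_mulVec_nonneg s
    simpa using this
  have h2 : 2 * (f.b ⬝ᵥ s) ≤ f.b ⬝ᵥ f.b + s ⬝ᵥ s := by
    have := dot_self_nonneg (f.b - s)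
    simp only [sub_dotProduct, dotProduct_sub] at this
    have h3 : s ⬝ᵥ f.b = f.b ⬝ᵥ s := dotProduct_comm _ _
    linarith
  have h4 := dot_self_nonneg f.b
  have h5 := sq_nonneg' s y
  have h6 := le_abs_self f.c
  have h7 := abs_nonneg f.c
  have h8 : s ⬝ᵥ s ≤ sq s y := by unfold sq; nlinarith [_root_.sq_nonneg y]
  unfold val
  nlinarith [mul_nonneg h4 h5, mul_nonneg h7 h5, mul_nonneg ha h5]

end QD

end Pool.Agent.V5helper59.Wish
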