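import Pool.Agent.V5helper59.Wish.A2

open MeasureTheory Set Matrix
open scoped BigOperators

set_option linter.unusedSectionVars false

namespace Pool.Agent.V5helper59.Wish

lemma deriv_prod_rpow {J : Type*} [Fintype J] (v : J → ℝ → ℝ) (v' : J → ℝ) (t0 : ℝ) (ν : J → ℝ)
    (hpos : ∀ j t, 0 < v j t) (h : ∀ j, HasDerivAt (v j) (v' j) t0) :
    HasDerivAt (fun t => ∏ j, v j t ^ ν j)
      ((∏ j, v j t0 ^ ν j) * ∑ j, ν j * (v' j / v j t0)) t0 := by
  have e : ∀ t, ∏ j, v j t ^ ν j = Real.exp (∑ j, ν j * Real.log (v j t)) := by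
    intro t
    rw [Real.exp_sum]
    refine Finset.prod_congr rfl fun j _ => ?_
    rw [Real.rpow_def_of_pos (hpos j t), mul_comm]
  have h1 : HasDerivAt (fun t => ∑ j, ν j * Real.log (v j t)) (∑ j, ν j * (v' j / v j t0)) t0 := by
    refine HasDerivAt.fun_sum fun j _ => ?_
    exact ((h j).log (hpos j t0).ne').const_mul (ν j)
  have h2 := h1.exp
  rw [show (fun t => ∏ j, v j t ^ ν j) = fun t => Real.exp (∑ j, ν j * Real.log (v j t)) from
    funext e, e t0]
  exact h2

variable {κ : Type*} [Fintype κ] {J : Type*} [Fintype J]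

/-- the product -/
noncomputable def phi (f : J → QD κ) (s : κ → ℝ) (y : ℝ) : ℝ := ∏ j, (f j).val s y ^ (f j).ν
noncomputable def Lg (f : J → QD κ) (i : κ) (s : κ → ℝ) (y : ℝ) : ℝ :=
  ∑ j, (f j).ν * ((f j).g s i / (f j).val s y)
noncomputable def Lgg (f : J → QD κ) (i : κ) (s : κ → ℝ) (y : ℝ) : ℝ :=
  ∑ j, (f j).ν * (2 * ((f j).a - (f j).P i i) / (f j).val s y - ((f j).g s i / (f j).val s y) ^ 2)
noncomputable def Lh (f : J → QD κ) (s : κ → ℝ) (y : ℝ) : ℝ :=
  ∑ j, (f j).ν * (2 * (f j).a / (f j).val s y)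
noncomputable def Lhh (f : J → QD κ) (s : κ → ℝ) (y : ℝ) : ℝ :=
  ∑ j, (f j).ν * (2 * (f j).a / (f j).val s y - (2 * (f j).a * y / (f j).val s y) ^ 2)

variable {n : ℝ} {f : J → QD κ}

lemma phi_pos (hf : ∀ j, (f j).Good n) (s : κ → ℝ) (y : ℝ) : 0 < phi f s y :=
  Finset.prod_pos fun j _ => Real.rpow_pos_of_pos ((hf j).val_pos s y) _

section derivs
variable [DecidableEq κ]

lemma val_line (hf : ∀ j, (f j).Good n) (j : J) (s : κ → ℝ) (y t : ℝ) (i : κ) :
    (f j).val (s + t • Pi.single i 1) y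
      = (f j).val s y + t * (f j).g s i + t ^ 2 * ((f j).a - (f j).P i i) := by
  have h := QD.val_add (hf j).symm s (t • Pi.single i 1) y 0
  rw [add_zero] at h
  rw [h]
  simp [dotProduct_smul, smul_dotProduct, mulVec_smul]
  ring

lemma g_line (j : J) (s : κ → ℝ) (t : ℝ) (i : κ) :
    (f j).g (s + t • Pi.single i 1) i = (f j).g s i + t * (2 * ((f j).a - (f j).P i i)) := by
  simp [QD.g, mulVec_add, mulVec_smul]
  ring

lemma val_line_deriv (hf : ∀ j, (f j).Good n) (j : J) (s : κ → ℝ) (y : ℝ) (i : κ) :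
    HasDerivAt (fun t : ℝ => (f j).val (s + t • Pi.single i 1) y) ((f j).g s i) 0 := by
  have e : (fun t : ℝ => (f j).val (s + t • Pi.single i 1) y)
      = fun t => (f j).val s y + t * (f j).g s i + t ^ 2 * ((f j).a - (f j).P i i) := by
    funext t; exact val_line hf j s y t i
  rw [e]
  have h := (((hasDerivAt_id (0:ℝ)).mul_const ((f j).g s i)).const_add ((f j).val s y)).add
    (((hasDerivAt_id (0:ℝ)).pow 2).mul_const ((f j).a - (f j).P i i))
  refine h.congr_deriv ?_
  simp

lemma phi_line (hf : ∀ j, (f j).Good n) (s : κ → ℝ) (y : ℝ) (i : κ) :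
    HasLineDerivAt ℝ (fun s => phi f s y) (phi f s y * Lg f i s y) s (Pi.single i 1) := by
  have h := deriv_prod_rpow (fun j t => (f j).val (s + t • Pi.single i 1) y) (fun j => (f j).g s i) 0
    (fun j => (f j).ν) (fun j t => (hf j).val_pos _ _) (fun j => val_line_deriv hf j s y i)
  simp only [zero_smul, add_zero] at h
  exact h

lemma Lg_line (hf : ∀ j, (f j).Good n) (s : κ → ℝ) (y : ℝ) (i : κ) :
    HasLineDerivAt ℝ (fun s => Lg f i s y) (Lgg f i s y) s (Pi.single i 1) := by
  unfold HasLineDerivAt Lg Lgg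
  refine HasDerivAt.fun_sum fun j _ => ?_
  refine HasDerivAt.const_mul _ ?_
  have h1 : HasDerivAt (fun t : ℝ => (f j).g (s + t • Pi.single i 1) i)
      (2 * ((f j).a - (f j).P i i)) 0 := by
    have e : (fun t : ℝ => (f j).g (s + t • Pi.single i 1) i)
      = fun t => (f j).g s i + t * (2 * ((f j).a - (f j).P i i)) := by
      funext t; exact g_line j s t i
    rw [e]
    refine (((hasDerivAt_id (0:ℝ)).mul_const (2 * ((f j).a - (f j).P i i))).const_add _).congr_deriv ?_
    simp
  have h2 := h1.fun_div (val_line_deriv hf j s y i) (by simpa using ((hf j).val_pos s y).ne')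
  refine h2.congr_deriv ?_
  have := ((hf j).val_pos s y).ne'
  simp only [zero_smul, add_zero]
  field_simp

lemma phi2_line (hf : ∀ j, (f j).Good n) (s : κ → ℝ) (y : ℝ) (i : κ) :
    HasLineDerivAt ℝ (fun s => phi f s y * Lg f i s y)
      (phi f s y * (Lg f i s y ^ 2 + Lgg f i s y)) s (Pi.single i 1) := by
  have h := HasDerivAt.mul (phi_line hf s y i) (Lg_line hf s y i)
  simp only [zero_smul, add_zero] at h
  refine HasDerivAt.congr_deriv h ?_
  ring

end derivs

lemma val_y_deriv (j : J) (s : κ → ℝ) (y : ℝ) :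
    HasDerivAt (fun t : ℝ => (f j).val s t) (2 * (f j).a * y) y := by
  unfold QD.val sq
  have h := (((((hasDerivAt_id y).pow 2).const_add (s ⬝ᵥ s)).const_mul (f j).a).sub_const
    (s ⬝ᵥ ((f j).P *ᵥ s))).add_const (2 * ((f j).b ⬝ᵥ s))
  have h2 := h.add_const (f j).c
  refine h2.congr_deriv ?_
  simp; ring

lemma phi_y (hf : ∀ j, (f j).Good n) (s : κ → ℝ) (y : ℝ) :
    HasDerivAt (fun y => phi f s y) (phi f s y * (y * Lh f s y)) y := by
  have h := deriv_prod_rpow (fun j t => (f j).val s t) (fun j => 2 * (f j).a * y) y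
    (fun j => (f j).ν) (fun j t => (hf j).val_pos _ _) (fun j => val_y_deriv j s y)
  refine h.congr_deriv ?_
  unfold phi Lh
  congr 1
  rw [Finset.mul_sum]
  refine Finset.sum_congr rfl fun j _ => ?_
  ring

lemma Ly_y (hf : ∀ j, (f j).Good n) (s : κ → ℝ) (y : ℝ) :
    HasDerivAt (fun y => y * Lh f s y) (Lhh f s y) y := by
  have e : (fun y => y * Lh f s y) = fun y => ∑ j, (f j).ν * (2 * (f j).a * y / (f j).val s y) := by
    funext y
    unfold Lh
    rw [Finset.mul_sum]
    refine Finset.sum_congr rfl fun j _ => ?_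
    ring
  rw [e]
  unfold Lhh
  refine HasDerivAt.fun_sum fun j _ => ?_
  refine HasDerivAt.const_mul _ ?_
  have h1 : HasDerivAt (fun y : ℝ => 2 * (f j).a * y) (2 * (f j).a) y := by
    simpa using (hasDerivAt_id y).const_mul (2 * (f j).a)
  have h2 := h1.fun_div (val_y_deriv j s y) ((hf j).val_pos s y).ne'
  refine h2.congr_deriv ?_
  have := ((hf j).val_pos s y).ne'
  field_simp

lemma phi2_y (hf : ∀ j, (f j).Good n) (s : κ → ℝ) (y : ℝ) :
    HasDerivAt (fun y => phi f s y * (y * Lh f s y))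
      (phi f s y * ((y * Lh f s y) ^ 2 + Lhh f s y)) y := by
  have h := HasDerivAt.mul (phi_y hf s y) (Ly_y hf s y)
  refine HasDerivAt.congr_deriv h ?_
  ring

/-- the weighted Laplacian of `φ` is nonnegative -/
lemma lap_nonneg (hf : ∀ j, (f j).Good n) {k : ℝ} (hk : n = Fintype.card κ + 1 + k)
    (s : κ → ℝ) (y : ℝ) :
    0 ≤ (∑ i, (Lg f i s y ^ 2 + Lgg f i s y)) + ((y * Lh f s y) ^ 2 + Lhh f s y) + k * Lh f s y := by
  have key : 0 ≤ (∑ i, Lgg f i s y) + Lhh f s y + k * Lh f s y := by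
    have e : (∑ i, Lgg f i s y) + Lhh f s y + k * Lh f s y
        = ∑ j, (f j).ν * ((2 * (f j).a * n - 2 * (f j).P.trace) / (f j).val s y
          - ((f j).g s ⬝ᵥ (f j).g s + (2 * (f j).a * y) ^ 2) / (f j).val s y ^ 2) := by
      unfold Lgg Lhh Lh
      rw [Finset.sum_comm, Finset.mul_sum, ← Finset.sum_add_distrib, ← Finset.sum_add_distrib]
      refine Finset.sum_congr rfl fun j _ => ?_
      have hv := ((hf j).val_pos s y).ne'
      rw [← Finset.mul_sum]
      have e1 : ∑ i, (2 * ((f j).a - (f j).P i i) / (f j).val s y - ((f j).g s i / (f j).val s y) ^ 2)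
          = (2 * (f j).a * Fintype.card κ - 2 * (f j).P.trace) / (f j).val s y
            - ((f j).g s ⬝ᵥ (f j).g s) / (f j).val s y ^ 2 := by
        rw [Finset.sum_sub_distrib]
        congr 1
        · rw [← Finset.sum_div, ← Finset.mul_sum, Finset.sum_sub_distrib, Matrix.trace]
          simp only [Finset.sum_const, Finset.card_univ, nsmul_eq_mul, diag_apply]
          ring
        · simp only [dotProduct]
          rw [Finset.sum_div]
          refine Finset.sum_congr rfl fun x _ => ?_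
          rw [div_pow, _root_.sq]
      rw [e1, hk]
      field_simp
      ring
    rw [e]
    refine Finset.sum_nonneg fun j _ => mul_nonneg (hf j).ν_nonneg ?_
    have hv := (hf j).val_pos s y
    have h1 := (hf j).grad s y
    have h2 := (hf j).tr
    rw [sub_nonneg, div_le_div_iff₀ (by positivity) hv]
    have h3 : 4 * (f j).a ≤ 2 * (f j).a * n - 2 * (f j).P.trace := by linarith
    calc _ ≤ (4 * (f j).a * (f j).val s y) * (f j).val s y := by gcongr
      _ = 4 * (f j).a * (f j).val s y ^ 2 := by ring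
      _ ≤ _ := by gcongr
  have h2 : 0 ≤ ∑ i, Lg f i s y ^ 2 := Finset.sum_nonneg fun i _ => by positivity
  rw [Finset.sum_add_distrib]
  nlinarith [_root_.sq_nonneg (y * Lh f s y)]

end Pool.Agent.V5helper59.Wish
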