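import Pool.Agent.V5helper59.Wish.A3

open MeasureTheory Set Matrix
open scoped BigOperators

set_option linter.unusedSectionVars false

namespace Pool.Agent.V5helper59.Wish

variable {κ : Type*} [Fintype κ] {J : Type*} [Fintype J] {n : ℝ} {f : J → QD κ}

lemma abs_le_one_add_sq (x : ℝ) : |x| ≤ 1 + x ^ 2 := by
  rcases abs_cases x with ⟨h, _⟩ | ⟨h, _⟩ <;> rw [h] <;> nlinarith [_root_.sq_nonneg (x - 1), _root_.sq_nonneg (x + 1)]

lemma bounds (hf : ∀ j, (f j).Good n) : ∃ B, 0 ≤ B ∧ ∀ s y,
    (∀ i, |Lg f i s y| ≤ B ∧ |Lgg f i s y| ≤ B) ∧ |y * Lh f s y| ≤ B ∧ |Lh f s y| ≤ B ∧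
      |Lhh f s y| ≤ B := by
  set b : J → ℝ := fun j => 1 + 4 * (f j).a / (f j).δ + 2 * ((f j).a + ∑ i, |(f j).P i i|) / (f j).δ
    with hb
  have hb0 : ∀ j, 0 ≤ b j := by
    intro j
    have := (hf j).a_nonneg
    have := (hf j).δ_pos
    have : 0 ≤ ∑ i, |(f j).P i i| := Finset.sum_nonneg fun i _ => abs_nonneg _
    simp only [hb]; positivity
  refine ⟨∑ j, (f j).ν * b j, Finset.sum_nonneg fun j _ => mul_nonneg (hf j).ν_nonneg (hb0 j),
    fun s y => ?_⟩
  have sumle : ∀ x : J → ℝ, (∀ j, |x j| ≤ b j) → |∑ j, (f j).ν * x j| ≤ ∑ j, (f j).ν * b j := by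
    intro x hx
    refine (Finset.abs_sum_le_sum_abs _ _).trans (Finset.sum_le_sum fun j _ => ?_)
    rw [abs_mul, abs_of_nonneg (hf j).ν_nonneg]
    exact mul_le_mul_of_nonneg_left (hx j) (hf j).ν_nonneg
  have hsq : ∀ j, ((f j).g s ⬝ᵥ (f j).g s + (2 * (f j).a * y) ^ 2) / (f j).val s y ^ 2
      ≤ 4 * (f j).a / (f j).δ := by
    intro j
    have hv := (hf j).val_pos s y
    have hδ := (hf j).δ_pos
    have ha := (hf j).a_nonneg
    calc _ ≤ (4 * (f j).a * (f j).val s y) / (f j).val s y ^ 2 := by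
          gcongr; exact (hf j).grad s y
      _ = 4 * (f j).a / (f j).val s y := by field_simp
      _ ≤ _ := by gcongr; exact (hf j).le_val s y
  have hgi : ∀ j i, ((f j).g s i / (f j).val s y) ^ 2 ≤ 4 * (f j).a / (f j).δ := by
    intro j i
    refine le_trans ?_ (hsq j)
    rw [div_pow]
    have hv := (hf j).val_pos s y
    gcongr
    have : (f j).g s i * (f j).g s i ≤ (f j).g s ⬝ᵥ (f j).g s :=
      Finset.single_le_sum (f := fun i => (f j).g s i * (f j).g s i)
        (fun i _ => mul_self_nonneg _) (Finset.mem_univ i)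
    nlinarith [_root_.sq_nonneg (2 * (f j).a * y)]
  have hyy : ∀ j, (2 * (f j).a * y / (f j).val s y) ^ 2 ≤ 4 * (f j).a / (f j).δ := by
    intro j
    refine le_trans ?_ (hsq j)
    rw [div_pow]
    have hv := (hf j).val_pos s y
    gcongr
    nlinarith [dot_self_nonneg ((f j).g s)]
  have hP0 : ∀ j, 0 ≤ ∑ i, |(f j).P i i| := fun j => Finset.sum_nonneg fun i _ => abs_nonneg _
  have h2a : ∀ j, 2 * (f j).a / (f j).val s y ≤ 2 * ((f j).a + ∑ i, |(f j).P i i|) / (f j).δ := by
    intro j
    have hv := (hf j).val_pos s y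
    have hδ := (hf j).δ_pos
    have ha := (hf j).a_nonneg
    have := hP0 j
    gcongr
    · linarith
    · exact (hf j).le_val s y
  have h2a0 : ∀ j, 0 ≤ 2 * (f j).a / (f j).val s y := fun j => by
    have hv := (hf j).val_pos s y
    have ha := (hf j).a_nonneg
    positivity
  have h4a0 : ∀ j, 0 ≤ 4 * (f j).a / (f j).δ := fun j => by
    have hδ := (hf j).δ_pos
    have ha := (hf j).a_nonneg
    positivity
  refine ⟨fun i => ⟨sumle _ fun j => ?_, sumle _ fun j => ?_⟩, ?_, sumle _ fun j => ?_,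
    sumle _ fun j => ?_⟩
  · have h1 := abs_le_one_add_sq ((f j).g s i / (f j).val s y)
    have h2 := hgi j i
    have h3 := (h2a0 j).trans (h2a j)
    simp only [hb]; linarith
  · have hv := (hf j).val_pos s y
    have hδ := (hf j).δ_pos
    have h2 := hgi j i
    have h0 : |2 * ((f j).a - (f j).P i i) / (f j).val s y|
        ≤ 2 * ((f j).a + ∑ i, |(f j).P i i|) / (f j).δ := by
      rw [abs_div, abs_of_pos hv]
      have h5 : |2 * ((f j).a - (f j).P i i)| ≤ 2 * ((f j).a + ∑ i, |(f j).P i i|) := by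
        rw [abs_mul, abs_two]
        have h6 : |(f j).P i i| ≤ ∑ i, |(f j).P i i| :=
          Finset.single_le_sum (f := fun i => |(f j).P i i|) (fun i _ => abs_nonneg _)
            (Finset.mem_univ i)
        have h7 := abs_sub (f j).a ((f j).P i i)
        rw [abs_of_nonneg (hf j).a_nonneg] at h7
        linarith
      have h8 : 0 ≤ 2 * ((f j).a + ∑ i, |(f j).P i i|) := by
        have := hP0 j; have := (hf j).a_nonneg; positivity
      gcongr
      exact (hf j).le_val s y
    have h1 := abs_sub (2 * ((f j).a - (f j).P i i) / (f j).val s y)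
      (((f j).g s i / (f j).val s y) ^ 2)
    rw [abs_of_nonneg (_root_.sq_nonneg ((f j).g s i / (f j).val s y))] at h1
    simp only [hb]; linarith
  · have e : y * Lh f s y = ∑ j, (f j).ν * (2 * (f j).a * y / (f j).val s y) := by
      unfold Lh
      rw [Finset.mul_sum]
      exact Finset.sum_congr rfl fun j _ => by ring
    rw [e]
    refine sumle _ fun j => ?_
    have h1 := abs_le_one_add_sq (2 * (f j).a * y / (f j).val s y)
    have h2 := hyy j
    have h3 := (h2a0 j).trans (h2a j)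
    simp only [hb]; linarith
  · rw [abs_of_nonneg (h2a0 j)]
    have := h2a j
    have := h4a0 j
    simp only [hb]; linarith
  · have h1 := abs_sub (2 * (f j).a / (f j).val s y) ((2 * (f j).a * y / (f j).val s y) ^ 2)
    rw [abs_of_nonneg (h2a0 j), abs_of_nonneg (_root_.sq_nonneg (2 * (f j).a * y / (f j).val s y))] at h1
    have := h2a j
    have := hyy j
    simp only [hb]; linarith

lemma one_add_le_exp {θ u : ℝ} (hθ : 0 < θ) (hu : 0 ≤ u) :
    1 + u ≤ (1 + 1 / θ) * Real.exp (θ * u) := by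
  have h1 := Real.add_one_le_exp (θ * u)
  have h2 : 1 + u ≤ (1 + 1/θ) * (1 + θ * u) := by
    have : (1 + 1/θ) * (1 + θ * u) = 1 + θ * u + 1/θ + u := by field_simp; ring
    rw [this]
    have : 0 < 1 / θ := by positivity
    nlinarith [mul_nonneg hθ.le hu]
  refine h2.trans ?_
  gcongr
  linarith

lemma phi_le (hf : ∀ j, (f j).Good n) {c : ℝ} (hc : 0 < c) :
    ∃ M, 0 < M ∧ ∀ s y, phi f s y ≤ M * Real.exp (c * sq s y) := by
  set N : ℝ := ∑ j, (f j).ν with hN
  have hN0 : 0 ≤ N := Finset.sum_nonneg fun j _ => (hf j).ν_nonneg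
  set θ : ℝ := c / (N + 1) with hθ
  have hθ0 : 0 < θ := by positivity
  set A : J → ℝ := fun j => ((f j).a + 1 + (f j).b ⬝ᵥ (f j).b + |(f j).c|) * (1 + 1/θ) with hA
  have hA0 : ∀ j, 0 < A j := fun j => by
    have := (hf j).a_nonneg
    have := dot_self_nonneg (f j).b
    simp only [hA]; positivity
  refine ⟨∏ j, A j ^ (f j).ν, Finset.prod_pos fun j _ => Real.rpow_pos_of_pos (hA0 j) _, fun s y => ?_⟩
  have h1 : ∀ j, (f j).val s y ≤ A j * Real.exp (θ * sq s y) := fun j => by
    refine ((f j).val_le (hf j).P_psd (hf j).a_nonneg s y).trans ?_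
    simp only [hA]
    rw [mul_assoc]
    have := (hf j).a_nonneg
    have := dot_self_nonneg (f j).b
    gcongr
    exact one_add_le_exp hθ0 (sq_nonneg' s y)
  calc phi f s y ≤ ∏ j, (A j * Real.exp (θ * sq s y)) ^ (f j).ν :=
        Finset.prod_le_prod (fun j _ => Real.rpow_nonneg ((hf j).val_pos s y).le _)
          fun j _ => Real.rpow_le_rpow ((hf j).val_pos s y).le (h1 j) (hf j).ν_nonneg
    _ = (∏ j, A j ^ (f j).ν) * Real.exp (N * (θ * sq s y)) := by
        rw [hN, Finset.sum_mul, Real.exp_sum, ← Finset.prod_mul_distrib]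
        refine Finset.prod_congr rfl fun j _ => ?_
        rw [Real.mul_rpow (hA0 j).le (Real.exp_pos _).le, ← Real.exp_mul, mul_comm (θ * sq s y)]
    _ ≤ _ := by
        have hpos : 0 < ∏ j, A j ^ (f j).ν := Finset.prod_pos fun j _ => Real.rpow_pos_of_pos (hA0 j) _
        refine mul_le_mul_of_nonneg_left (Real.exp_le_exp.2 ?_) hpos.le
        have : N * (θ * sq s y) = c * sq s y * (N / (N + 1)) := by rw [hθ]; field_simp
        rw [this]
        have h2 : N / (N + 1) ≤ 1 := by rw [div_le_one (by linarith)]; linarith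
        nlinarith [mul_nonneg hc.le (sq_nonneg' s y)]

lemma bd (hf : ∀ j, (f j).Good n) {ν η : ℝ} (hν : 0 ≤ ν) (hη : 0 < η) :
    ∃ M c, 0 < M ∧ 0 < c ∧ ∀ s y, phi f s y * rho ν η (sq s y) * (1 + sq s y) ≤ M * Real.exp (-c * sq s y) ∧
      phi f s y * chi ν η (sq s y) ≤ M * Real.exp (-c * sq s y) := by
  obtain ⟨M1, hM1, h1⟩ := phi_le hf (c := η / 16) (by positivity)
  obtain ⟨M2, hM2, h2⟩ := rho_le hν hη
  obtain ⟨M3, hM3, h3⟩ := chi_le hν hη
  refine ⟨M1 * M2 * (1 + 1/(η/16)) + M1 * M3, η / 16, by positivity, by positivity, fun s y => ?_⟩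
  set u := sq s y with hu
  have hu0 : 0 ≤ u := sq_nonneg' s y
  have hp := (phi_pos hf s y).le
  have hr := rho_nonneg (ν := ν) (η := η) hu0
  have hx := chi_nonneg (ν := ν) (η := η) hu0
  constructor
  · calc phi f s y * rho ν η u * (1 + u)
        ≤ (M1 * Real.exp (η/16 * u)) * (M2 * Real.exp (-(η / 4) * u)) * ((1 + 1/(η/16)) * Real.exp (η/16 * u)) := by
          gcongr
          · exact h1 s y
          · exact h2 u hu0
          · exact one_add_le_exp (by positivity) hu0
      _ = M1 * M2 * (1 + 1/(η/16)) * Real.exp (-(η/8) * u) := by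
          have : Real.exp (-(η/8) * u) = Real.exp (η/16 * u) * Real.exp (-(η / 4) * u) * Real.exp (η/16 * u) := by
            rw [← Real.exp_add, ← Real.exp_add]; ring_nf
          rw [this]; ring
      _ ≤ M1 * M2 * (1 + 1/(η/16)) * Real.exp (-(η/16) * u) := by
          gcongr ?_ * Real.exp ?_
          nlinarith
      _ ≤ _ := by
          gcongr
          have : 0 < M1 * M3 := by positivity
          linarith
  · calc phi f s y * chi ν η u
        ≤ (M1 * Real.exp (η/16 * u)) * (M3 * Real.exp (-(η / 4) * u)) := by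
          gcongr
          · exact h1 s y
          · exact h3 u hu0
      _ = M1 * M3 * Real.exp (-(3*η/16) * u) := by
          have : Real.exp (-(3*η/16) * u) = Real.exp (η/16 * u) * Real.exp (-(η / 4) * u) := by
            rw [← Real.exp_add]; ring_nf
          rw [this]; ring
      _ ≤ M1 * M3 * Real.exp (-(η/16) * u) := by
          gcongr ?_ * Real.exp ?_
          nlinarith
      _ ≤ _ := by
          gcongr
          have : 0 < M1 * M2 * (1 + 1/(η/16)) := by positivity
          linarith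

end Pool.Agent.V5helper59.Wish
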