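import Pool.Agent.V5helper59.Wish.A4

open MeasureTheory Set Matrix Filter
open scoped BigOperators Topology

set_option linter.unusedSectionVars false

namespace Pool.Agent.V5helper59.Wish

variable {κ : Type*} [Fintype κ] {J : Type*} [Fintype J] {n : ℝ} {f : J → QD κ}

section meas

lemma measurable_sq : Measurable fun z : (κ → ℝ) × ℝ => sq z.1 z.2 := by
  unfold sq dotProduct; fun_prop

lemma continuous_sq : Continuous fun z : (κ → ℝ) × ℝ => sq z.1 z.2 := by
  unfold sq dotProduct; fun_prop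

lemma continuous_val (j : J) : Continuous fun z : (κ → ℝ) × ℝ => (f j).val z.1 z.2 := by
  unfold QD.val sq dotProduct mulVec dotProduct; fun_prop

lemma measurable_val (j : J) : Measurable fun z : (κ → ℝ) × ℝ => (f j).val z.1 z.2 :=
  (continuous_val j).measurable

lemma measurable_g (j : J) (i : κ) : Measurable fun z : (κ → ℝ) × ℝ => (f j).g z.1 i := by
  unfold QD.g
  simp only [Pi.add_apply, Pi.sub_apply, Pi.smul_apply, mulVec, dotProduct]
  fun_prop

lemma measurable_phi : Measurable fun z : (κ → ℝ) × ℝ => phi f z.1 z.2 :=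
  Finset.measurable_prod _ fun j _ => (measurable_val j).pow_const _

lemma measurable_Lg (i : κ) : Measurable fun z : (κ → ℝ) × ℝ => Lg f i z.1 z.2 :=
  Finset.measurable_sum _ fun j _ => ((measurable_g j i).div (measurable_val j)).const_mul _

lemma measurable_Lgg (i : κ) : Measurable fun z : (κ → ℝ) × ℝ => Lgg f i z.1 z.2 :=
  Finset.measurable_sum _ fun j _ => (((measurable_const).div (measurable_val j)).sub
    (((measurable_g j i).div (measurable_val j)).pow_const _)).const_mul _

lemma measurable_Lh : Measurable fun z : (κ → ℝ) × ℝ => Lh f z.1 z.2 :=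
  Finset.measurable_sum _ fun j _ => ((measurable_const).div (measurable_val j)).const_mul _

lemma measurable_Lhh : Measurable fun z : (κ → ℝ) × ℝ => Lhh f z.1 z.2 :=
  Finset.measurable_sum _ fun j _ => (((measurable_const).div (measurable_val j)).sub
    (((measurable_snd.const_mul _).div (measurable_val j)).pow_const _)).const_mul _

end meas

noncomputable def drho (ν η u : ℝ) : ℝ :=
  (ν * u ^ (ν - 1) - (η / 2) * u ^ ν) * Real.exp (-(η / 2) * u)

lemma rho_hasDerivAt {ν η u : ℝ} (hu : 0 < u) : HasDerivAt (rho ν η) (drho ν η u) u := by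
  unfold rho drho
  have h1 : HasDerivAt (fun u : ℝ => u ^ ν) (ν * u ^ (ν - 1)) u := by
    simpa using Real.hasDerivAt_rpow_const (p := ν) (Or.inl hu.ne')
  have h2 : HasDerivAt (fun u : ℝ => Real.exp (-(η / 2) * u)) (Real.exp (-(η / 2) * u) * (-(η/2))) u := by
    have := ((hasDerivAt_id u).const_mul (-(η/2))).exp
    simpa using this
  refine (h1.mul h2).congr_deriv ?_
  ring

lemma mul_drho {ν η u : ℝ} (hu : 0 < u) : u * drho ν η u = (ν - η / 2 * u) * rho ν η u := by
  unfold rho drho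
  have : u * u ^ (ν - 1) = u ^ ν := by
    rw [Real.rpow_sub_one hu.ne']; field_simp
  have e : u * ((ν * u ^ (ν - 1) - (η / 2) * u ^ ν) * Real.exp (-(η / 2) * u))
    = (ν * (u * u ^ (ν - 1)) - (η / 2) * (u * u ^ ν)) * Real.exp (-(η / 2) * u) := by ring
  rw [e, this]; ring

lemma measurable_rho {ν η : ℝ} : Measurable (rho ν η) := by unfold rho; fun_prop
lemma measurable_drho {ν η : ℝ} : Measurable (drho ν η) := by unfold drho; fun_prop

lemma integrable_gauss {c : ℝ} (hc : 0 < c) : Integrable fun s : κ → ℝ => Real.exp (-c * (s ⬝ᵥ s)) := by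
  have h : (fun s : κ → ℝ => Real.exp (-c * (s ⬝ᵥ s))) = fun s => ∏ i, Real.exp (-c * s i ^ 2) := by
    funext s
    rw [← Real.exp_sum, dotProduct, Finset.mul_sum]
    congr 1
    exact Finset.sum_congr rfl fun i _ => by ring
  rw [h]
  exact Integrable.fintype_prod (fun i => integrable_exp_neg_mul_sq hc)

lemma integrable_s {F : (κ → ℝ) → ℝ} {M c y : ℝ} (hc : 0 < c) (hF : Measurable F)
    (h : ∀ s, |F s| ≤ M * Real.exp (-c * sq s y)) : Integrable F := by
  refine Integrable.mono' ((integrable_gauss (κ := κ) hc).const_mul |M|) hF.aestronglyMeasurable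
    (Eventually.of_forall fun s => ?_)
  refine (h s).trans ?_
  have h1 : Real.exp (-c * sq s y) ≤ Real.exp (-c * (s ⬝ᵥ s)) := by
    apply Real.exp_le_exp.2
    unfold sq
    nlinarith [mul_nonneg hc.le (_root_.sq_nonneg y)]
  exact mul_le_mul (le_abs_self M) h1 (Real.exp_pos _).le (abs_nonneg _)

section lines
variable [DecidableEq κ]

lemma sq_line (s : κ → ℝ) (y t : ℝ) (i : κ) :
    sq (s + t • Pi.single i 1) y = sq s y + t * (2 * s i) + t ^ 2 := by
  unfold sq
  simp [dotProduct_smul, smul_dotProduct, add_dotProduct, dotProduct_add]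
  ring

lemma sq_line_deriv (s : κ → ℝ) (y : ℝ) (i : κ) :
    HasDerivAt (fun t : ℝ => sq (s + t • Pi.single i 1) y) (2 * s i) 0 := by
  have e : (fun t : ℝ => sq (s + t • Pi.single i 1) y) = fun t => sq s y + t * (2 * s i) + t ^ 2 := by
    funext t; exact sq_line s y t i
  rw [e]
  have h := (((hasDerivAt_id (0:ℝ)).mul_const (2 * s i)).const_add (sq s y)).add
    ((hasDerivAt_id (0:ℝ)).pow 2)
  refine h.congr_deriv ?_
  simp

lemma chi_line {ν η : ℝ} (hν : 0 ≤ ν) (hη : 0 < η) (s : κ → ℝ) (y : ℝ) (i : κ) :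
    HasLineDerivAt ℝ (fun s => chi ν η (sq s y)) (-(rho ν η (sq s y) * s i)) s (Pi.single i 1) := by
  unfold HasLineDerivAt
  have h0 : sq (s + (0:ℝ) • Pi.single i 1) y = sq s y := by simp
  have h := (chi_hasDerivAt hν hη (sq (s + (0:ℝ) • Pi.single i 1) y)).comp (0:ℝ) (sq_line_deriv s y i)
  rw [h0] at h
  refine h.congr_deriv ?_
  ring

lemma R_line {ν η : ℝ} (s : κ → ℝ) {y : ℝ} (hy : 0 < y) (i : κ) :
    HasLineDerivAt ℝ (fun s => rho ν η (sq s y) * s i)
      (rho ν η (sq s y) + 2 * s i ^ 2 * drho ν η (sq s y)) s (Pi.single i 1) := by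
  unfold HasLineDerivAt
  have h0 : sq (s + (0:ℝ) • Pi.single i 1) y = sq s y := by simp
  have h := (rho_hasDerivAt (ν := ν) (η := η) (u := sq (s + (0:ℝ) • Pi.single i 1) y)
    (sq_pos _ hy)).comp (0:ℝ) (sq_line_deriv s y i)
  have h2 : HasDerivAt (fun t : ℝ => (s + t • (Pi.single i (1:ℝ) : κ → ℝ)) i) 1 0 := by
    have := (hasDerivAt_id (0:ℝ)).const_add (s i)
    refine HasDerivAt.congr_of_eventuallyEq (f := fun t : ℝ => s i + t) this ?_
    exact Eventually.of_forall fun t => by simp
  have h3 := h.mul h2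
  refine HasDerivAt.congr_deriv h3 ?_
  simp only [Function.comp, h0]
  simp
  ring

end lines

section bd
variable {ν η : ℝ}

lemma drho_bd {u : ℝ} (hν : 0 ≤ ν) (hη : 0 < η) (hu : 0 < u) {x : ℝ} (hx0 : 0 ≤ x) (hx : x ≤ u) :
    |x * drho ν η u| ≤ (ν + η) * (rho ν η u * (1 + u)) := by
  have h1 : |u * drho ν η u| ≤ (ν + η) * (rho ν η u * (1 + u)) := by
    rw [mul_drho hu, abs_mul, abs_of_nonneg (rho_nonneg hu.le)]
    have : |ν - η / 2 * u| ≤ (ν + η) * (1 + u) := by
      rw [abs_le]; constructor <;> nlinarith [mul_nonneg hη.le hu.le, mul_nonneg hν hu.le]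
    calc _ ≤ (ν + η) * (1 + u) * rho ν η u := by
          gcongr; exact rho_nonneg hu.le
      _ = _ := by ring
  refine le_trans ?_ h1
  rw [abs_mul, abs_mul, abs_of_nonneg hx0, abs_of_pos hu]
  gcongr

end bd

end Pool.Agent.V5helper59.Wish
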