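import Pool.Agent.V5helper59.Wish.A5

open MeasureTheory Set Matrix Filter
open scoped BigOperators Topology

set_option linter.unusedSectionVars false

namespace Pool.Agent.V5helper59.Wish

variable {κ : Type*} [Fintype κ] {J : Type*} [Fintype J] {n : ℝ} {f : J → QD κ}

/-- the terms of the weighted divergence -/
noncomputable def Hs (f : J → QD κ) (ν η : ℝ) (i : κ) (s : κ → ℝ) (y : ℝ) : ℝ :=
  phi f s y * (rho ν η (sq s y) + 2 * s i ^ 2 * drho ν η (sq s y))
    + phi f s y * (Lg f i s y ^ 2 + Lgg f i s y) * chi ν η (sq s y)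

noncomputable def Hy (f : J → QD κ) (ν η k : ℝ) (s : κ → ℝ) (y : ℝ) : ℝ :=
  phi f s y * ((k + 1) * rho ν η (sq s y) + 2 * y ^ 2 * drho ν η (sq s y))
    + phi f s y * ((y * Lh f s y) ^ 2 + Lhh f s y + k * Lh f s y) * chi ν η (sq s y)

lemma measurable_chi {ν η : ℝ} (hν : 0 ≤ ν) (hη : 0 < η) : Measurable (chi ν η) :=
  (chi_cont hν hη).measurable

lemma measurable_Hs {ν η : ℝ} (hν : 0 ≤ ν) (hη : 0 < η) (i : κ) :
    Measurable fun z : (κ → ℝ) × ℝ => Hs f ν η i z.1 z.2 := by
  unfold Hs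
  have h1 := measurable_phi (f := f)
  have h2 := (measurable_rho (ν := ν) (η := η)).comp (measurable_sq (κ := κ))
  have h3 := (measurable_drho (ν := ν) (η := η)).comp (measurable_sq (κ := κ))
  have h4 := (measurable_chi hν hη).comp (measurable_sq (κ := κ))
  have h5 := measurable_Lg (f := f) i
  have h6 := measurable_Lgg (f := f) i
  have h7 : Measurable fun z : (κ → ℝ) × ℝ => 2 * z.1 i ^ 2 := by fun_prop
  exact (h1.mul (h2.add (h7.mul h3))).add ((h1.mul ((h5.pow_const 2).add h6)).mul h4)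

lemma measurable_Hy {ν η k : ℝ} (hν : 0 ≤ ν) (hη : 0 < η) :
    Measurable fun z : (κ → ℝ) × ℝ => Hy f ν η k z.1 z.2 := by
  unfold Hy
  have h1 := measurable_phi (f := f)
  have h2 := (measurable_rho (ν := ν) (η := η)).comp (measurable_sq (κ := κ))
  have h3 := (measurable_drho (ν := ν) (η := η)).comp (measurable_sq (κ := κ))
  have h4 := (measurable_chi hν hη).comp (measurable_sq (κ := κ))
  have h5 := measurable_Lh (f := f)
  have h6 := measurable_Lhh (f := f)
  have h7 : Measurable fun z : (κ → ℝ) × ℝ => 2 * z.2 ^ 2 := by fun_prop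
  exact (h1.mul ((h2.const_mul _).add (h7.mul h3))).add
    ((h1.mul ((((measurable_snd.mul h5).pow_const 2).add h6).add (h5.const_mul k))).mul h4)

/-- all terms decay -/
lemma allbd (hf : ∀ j, (f j).Good n) {ν η : ℝ} (k : ℝ) (hν : 0 ≤ ν) (hη : 0 < η) :
    ∃ M c, 0 < M ∧ 0 < c ∧ ∀ s y, 0 < y → 
      (∀ i, |Hs f ν η i s y| ≤ M * Real.exp (-c * sq s y) ∧
        |phi f s y * (rho ν η (sq s y) + 2 * s i ^ 2 * drho ν η (sq s y))| ≤ M * Real.exp (-c * sq s y) ∧
        |phi f s y * Lg f i s y * (rho ν η (sq s y) * s i)| ≤ M * Real.exp (-c * sq s y) ∧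
        |phi f s y * (rho ν η (sq s y) * s i)| ≤ M * Real.exp (-c * sq s y) ∧
        |phi f s y * Lg f i s y * chi ν η (sq s y)| ≤ M * Real.exp (-c * sq s y) ∧
        |phi f s y * (Lg f i s y ^ 2 + Lgg f i s y) * chi ν η (sq s y)| ≤ M * Real.exp (-c * sq s y)) ∧
      |Hy f ν η k s y| ≤ M * Real.exp (-c * sq s y) ∧
      |phi f s y * (rho ν η (sq s y) + Lh f s y * chi ν η (sq s y))| ≤ M * Real.exp (-c * sq s y) ∧
      |phi f s y * rho ν η (sq s y)| ≤ M * Real.exp (-c * sq s y) ∧
      |phi f s y * rho ν η (sq s y) * sq s y| ≤ M * Real.exp (-c * sq s y) := by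
  obtain ⟨M, c, hM, hc, h⟩ := bd hf hν hη
  obtain ⟨B, hB, hb⟩ := bounds hf
  refine ⟨M * (1 + |k + 1| + 2 * (ν + η)) + M * (1 + B + B ^ 2 + B + |k| * B) + M * B, c, by positivity, hc,
    fun s y hy => ?_⟩
  set u := sq s y with hu
  set E := Real.exp (-c * u) with hE
  have hE0 : 0 < E := Real.exp_pos _
  have hu0 : 0 < u := sq_pos s hy
  obtain ⟨h1, h2⟩ := h s y
  obtain ⟨b1, b2, b3, b4⟩ := hb s y
  have hp := (phi_pos hf s y).le
  have hr := rho_nonneg (ν := ν) (η := η) hu0.le
  have hx := chi_nonneg (ν := ν) (η := η) hu0.le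
  have hk := abs_nonneg k
  have hk1 := abs_nonneg (k + 1)
  -- basic terms
  have t1 : phi f s y * rho ν η u ≤ M * E := by
    refine le_trans ?_ h1
    have : 0 ≤ phi f s y * rho ν η u := by positivity
    nlinarith [mul_nonneg this hu0.le]
  have t2 : ∀ x, 0 ≤ x → x ≤ u → |phi f s y * (2 * x * drho ν η u)| ≤ 2 * (ν + η) * (M * E) := by
    intro x hx0 hxu
    have := drho_bd hν hη hu0 hx0 hxu
    have e : phi f s y * (2 * x * drho ν η u) = 2 * (phi f s y * (x * drho ν η u)) := by ring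
    rw [e, abs_mul, abs_mul, abs_two, abs_of_nonneg hp]
    calc 2 * (phi f s y * |x * drho ν η u|) ≤ 2 * (phi f s y * ((ν + η) * (rho ν η u * (1 + u)))) := by
          gcongr
      _ = 2 * (ν + η) * (phi f s y * rho ν η u * (1 + u)) := by ring
      _ ≤ _ := by gcongr
  have t3 : ∀ x C, |x| ≤ C → |phi f s y * x * chi ν η u| ≤ C * (M * E) := by
    intro x C hxC
    have hC : 0 ≤ C := (abs_nonneg x).trans hxC
    rw [abs_mul, abs_mul, abs_of_nonneg hp, abs_of_nonneg hx]
    calc phi f s y * |x| * chi ν η u ≤ phi f s y * C * chi ν η u := by gcongr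
      _ = C * (phi f s y * chi ν η u) := by ring
      _ ≤ _ := by gcongr
  have hME : 0 ≤ M * E := by positivity
  have hBE : 0 ≤ B * (M * E) := by positivity
  have hB2E : 0 ≤ B ^ 2 * (M * E) := by positivity
  have hkE : 0 ≤ |k + 1| * (M * E) := by positivity
  have hkBE : 0 ≤ |k| * B * (M * E) := by positivity
  have hνE : 0 ≤ 2 * (ν + η) * (M * E) := by positivity
  have expand : (M * (1 + |k + 1| + 2 * (ν + η)) + M * (1 + B + B ^ 2 + B + |k| * B) + M * B) * E
      = 2 * (M * E) + |k + 1| * (M * E) + 2 * (ν + η) * (M * E) + 3 * (B * (M * E))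
        + B ^ 2 * (M * E) + |k| * B * (M * E) := by ring
  rw [expand]
  have A1 : |phi f s y * rho ν η u| ≤ M * E := by
    rw [abs_of_nonneg (by positivity)]; exact t1
  have si : ∀ i, |phi f s y * (rho ν η u * s i)| ≤ M * E := by
    intro i
    rw [abs_mul, abs_mul, abs_of_nonneg hp, abs_of_nonneg hr]
    refine le_trans ?_ h1
    have h3 : |s i| ≤ 1 + u := by
      have := abs_le_one_add_sq (s i)
      have := coord_sq_le s y i
      linarith
    calc phi f s y * (rho ν η u * |s i|) ≤ phi f s y * (rho ν η u * (1 + u)) := by gcongr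
      _ = _ := by ring
  have lgg : ∀ i, |Lg f i s y ^ 2 + Lgg f i s y| ≤ B ^ 2 + B := by
    intro i
    refine (abs_add_le _ _).trans (add_le_add ?_ (b1 i).2)
    rw [abs_pow]
    exact pow_le_pow_left₀ (abs_nonneg _) (b1 i).1 2
  refine ⟨fun i => ⟨?_, ?_, ?_, ?_, ?_, ?_⟩, ?_, ?_, ?_, ?_⟩
  · unfold Hs
    have e : phi f s y * (rho ν η u + 2 * s i ^ 2 * drho ν η u)
        + phi f s y * (Lg f i s y ^ 2 + Lgg f i s y) * chi ν η u
      = phi f s y * rho ν η u + phi f s y * (2 * s i ^ 2 * drho ν η u)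
        + phi f s y * (Lg f i s y ^ 2 + Lgg f i s y) * chi ν η u := by ring
    rw [e]
    have := abs_add_le (phi f s y * rho ν η u + phi f s y * (2 * s i ^ 2 * drho ν η u))
      (phi f s y * (Lg f i s y ^ 2 + Lgg f i s y) * chi ν η u)
    have := abs_add_le (phi f s y * rho ν η u) (phi f s y * (2 * s i ^ 2 * drho ν η u))
    have := t2 (s i ^ 2) (by positivity) (coord_sq_le s y i)
    have := t3 _ _ (lgg i)
    nlinarith
  · have e : phi f s y * (rho ν η u + 2 * s i ^ 2 * drho ν η u)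
      = phi f s y * rho ν η u + phi f s y * (2 * s i ^ 2 * drho ν η u) := by ring
    rw [e]
    have := abs_add_le (phi f s y * rho ν η u) (phi f s y * (2 * s i ^ 2 * drho ν η u))
    have := t2 (s i ^ 2) (by positivity) (coord_sq_le s y i)
    linarith
  · have e : phi f s y * Lg f i s y * (rho ν η u * s i) = Lg f i s y * (phi f s y * (rho ν η u * s i)) := by
      ring
    rw [e, abs_mul]
    have : |Lg f i s y| * |phi f s y * (rho ν η u * s i)| ≤ B * (M * E) := by
      gcongr
      · exact (b1 i).1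
      · exact si i
    linarith
  · have := si i; linarith
  · have := t3 _ _ (b1 i).1; linarith
  · have := t3 _ _ (lgg i); nlinarith
  · unfold Hy
    have e : phi f s y * ((k + 1) * rho ν η u + 2 * y ^ 2 * drho ν η u)
        + phi f s y * ((y * Lh f s y) ^ 2 + Lhh f s y + k * Lh f s y) * chi ν η u
      = (k + 1) * (phi f s y * rho ν η u) + phi f s y * (2 * y ^ 2 * drho ν η u)
        + phi f s y * ((y * Lh f s y) ^ 2 + Lhh f s y + k * Lh f s y) * chi ν η u := by ring
    rw [e]
    have h5 := abs_add_le ((k + 1) * (phi f s y * rho ν η u) + phi f s y * (2 * y ^ 2 * drho ν η u))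
      (phi f s y * ((y * Lh f s y) ^ 2 + Lhh f s y + k * Lh f s y) * chi ν η u)
    have h6 := abs_add_le ((k + 1) * (phi f s y * rho ν η u)) (phi f s y * (2 * y ^ 2 * drho ν η u))
    have h7 : |(k + 1) * (phi f s y * rho ν η u)| ≤ |k + 1| * (M * E) := by
      rw [abs_mul]; gcongr
    have hyu : y ^ 2 ≤ u := by
      rw [hu]; unfold sq; have := dot_self_nonneg s; linarith
    have h8 := t2 (y ^ 2) (by positivity) hyu
    have h9 : |(y * Lh f s y) ^ 2 + Lhh f s y + k * Lh f s y| ≤ B ^ 2 + B + |k| * B := by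
      refine (abs_add_le _ _).trans (add_le_add ((abs_add_le _ _).trans (add_le_add ?_ b4)) ?_)
      · rw [abs_pow]
        exact pow_le_pow_left₀ (abs_nonneg _) b2 2
      · rw [abs_mul]; gcongr
    have h10 := t3 _ _ h9
    nlinarith
  · have e : phi f s y * (rho ν η u + Lh f s y * chi ν η u)
      = phi f s y * rho ν η u + phi f s y * Lh f s y * chi ν η u := by ring
    rw [e]
    have := abs_add_le (phi f s y * rho ν η u) (phi f s y * Lh f s y * chi ν η u)
    have := t3 _ _ b3
    linarith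
  · linarith
  · rw [abs_of_nonneg (by positivity)]
    have : phi f s y * rho ν η u * u ≤ M * E := by
      refine le_trans ?_ h1
      have : 0 ≤ phi f s y * rho ν η u := by positivity
      nlinarith
    linarith

end Pool.Agent.V5helper59.Wish
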