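import Pool.Agent.V5helper59.Wish.A6

open MeasureTheory Set Matrix Filter
open scoped BigOperators Topology

set_option linter.unusedSectionVars false

namespace Pool.Agent.V5helper59.Wish

variable {κ : Type*} [Fintype κ] {J : Type*} [Fintype J] {n : ℝ} {f : J → QD κ}

lemma sec {F : (κ → ℝ) × ℝ → ℝ} (h : Measurable F) (y : ℝ) : Measurable fun s => F (s, y) :=
  h.comp (by fun_prop)

lemma sec' {F : (κ → ℝ) × ℝ → ℝ} (h : Measurable F) (s : κ → ℝ) : Measurable fun y => F (s, y) :=
  h.comp (by fun_prop)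

lemma ibp_s [DecidableEq κ] (hf : ∀ j, (f j).Good n) {ν η : ℝ} (hν : 0 ≤ ν) (hη : 0 < η) {y : ℝ} (hy : 0 < y)
    (i : κ) : ∫ s, Hs f ν η i s y = 0 := by
  obtain ⟨M, c, hM, hc, hb⟩ := allbd hf 0 hν hη
  have mphi := sec (measurable_phi (f := f)) y
  have mrho := sec ((measurable_rho (ν := ν) (η := η)).comp (measurable_sq (κ := κ))) y
  have mdrho := sec ((measurable_drho (ν := ν) (η := η)).comp (measurable_sq (κ := κ))) y
  have mchi := sec ((measurable_chi hν hη).comp (measurable_sq (κ := κ))) y
  have mLg := sec (measurable_Lg (f := f) i) y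
  have mLgg := sec (measurable_Lgg (f := f) i) y
  simp only [Function.comp] at mrho mdrho mchi
  have msi : Measurable fun s : κ → ℝ => s i := by fun_prop
  have I1 : Integrable fun s => phi f s y * (rho ν η (sq s y) + 2 * s i ^ 2 * drho ν η (sq s y)) :=
    integrable_s hc (mphi.mul (mrho.add (((msi.pow_const 2).const_mul 2).mul mdrho)))
      fun s => ((hb s y hy).1 i).2.1
  have I2 : Integrable fun s => phi f s y * Lg f i s y * (rho ν η (sq s y) * s i) :=
    integrable_s hc ((mphi.mul mLg).mul (mrho.mul msi)) fun s => ((hb s y hy).1 i).2.2.1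
  have I3 : Integrable fun s => phi f s y * (rho ν η (sq s y) * s i) :=
    integrable_s hc (mphi.mul (mrho.mul msi)) fun s => ((hb s y hy).1 i).2.2.2.1
  have I4 : Integrable fun s => phi f s y * Lg f i s y * chi ν η (sq s y) :=
    integrable_s hc ((mphi.mul mLg).mul mchi) fun s => ((hb s y hy).1 i).2.2.2.2.1
  have I5 : Integrable fun s => phi f s y * (Lg f i s y ^ 2 + Lgg f i s y) * chi ν η (sq s y) :=
    integrable_s hc ((mphi.mul ((mLg.pow_const 2).add mLgg)).mul mchi)
      fun s => ((hb s y hy).1 i).2.2.2.2.2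
  have J1 := integral_bilinear_hasLineDerivAt_right_eq_neg_left_of_integrable
    (μ := (volume : Measure (κ → ℝ))) (B := ContinuousLinearMap.mul ℝ ℝ)
    (f := fun s => phi f s y) (f' := fun s => phi f s y * Lg f i s y)
    (g := fun s => rho ν η (sq s y) * s i)
    (g' := fun s => rho ν η (sq s y) + 2 * s i ^ 2 * drho ν η (sq s y)) (v := Pi.single i 1)
    (by simpa using I2) (by simpa using I1) (by simpa using I3)
    (fun s _ => phi_line hf s y i) (fun s _ => R_line s hy i)
  have J2 := integral_bilinear_hasLineDerivAt_right_eq_neg_left_of_integrable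
    (μ := (volume : Measure (κ → ℝ))) (B := ContinuousLinearMap.mul ℝ ℝ)
    (f := fun s => phi f s y * Lg f i s y) (f' := fun s => phi f s y * (Lg f i s y ^ 2 + Lgg f i s y))
    (g := fun s => chi ν η (sq s y))
    (g' := fun s => -(rho ν η (sq s y) * s i)) (v := Pi.single i 1)
    (by simpa using I5) (by simpa using I2.neg) (by simpa using I4)
    (fun s _ => phi2_line hf s y i) (fun s _ => chi_line hν hη s y i)
  simp only [ContinuousLinearMap.mul_apply'] at J1 J2
  have J3 : ∫ s, phi f s y * Lg f i s y * -(rho ν η (sq s y) * s i)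
      = - ∫ s, phi f s y * Lg f i s y * (rho ν η (sq s y) * s i) := by
    rw [← integral_neg]
    exact integral_congr_ae (Eventually.of_forall fun s => by simp)
  rw [J3, neg_inj] at J2
  unfold Hs
  rw [integral_add I1 I5, J1, J2]
  ring

lemma tendsto_aux {k c : ℝ} (hc : 0 < c) :
    Tendsto (fun y : ℝ => y ^ (k + 1) * Real.exp (-c * y ^ 2)) atTop (𝓝 0) := by
  have h := tendsto_rpow_mul_exp_neg_mul_atTop_nhds_zero (k + 1) c hc
  refine squeeze_zero' ?_ ?_ h
  · filter_upwards [eventually_ge_atTop (0:ℝ)] with y hy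
    positivity
  · filter_upwards [eventually_ge_atTop (1:ℝ)] with y hy
    have : Real.exp (-c * y ^ 2) ≤ Real.exp (-c * y) := by
      apply Real.exp_le_exp.2
      have h3 : y ≤ y ^ 2 := by nlinarith
      nlinarith [mul_le_mul_of_nonneg_left h3 hc.le]
    have h2 : 0 ≤ y ^ (k + 1) := Real.rpow_nonneg (by linarith) _
    exact mul_le_mul_of_nonneg_left this h2

lemma exp_sq_le {s : κ → ℝ} {y c : ℝ} (hc : 0 < c) :
    Real.exp (-c * sq s y) ≤ Real.exp (-c * y ^ 2) := by
  apply Real.exp_le_exp.2
  unfold sq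
  nlinarith [mul_nonneg hc.le (dot_self_nonneg s)]

lemma ibp_y (hf : ∀ j, (f j).Good n) {ν η k : ℝ} (hν : 0 ≤ ν) (hη : 0 < η) (hk : -1 < k)
    (s : κ → ℝ) : ∫ y in Ioi (0:ℝ), y ^ k * Hy f ν η k s y = 0 := by
  obtain ⟨M, c, hM, hc, hb⟩ := allbd hf k hν hη
  have mH := sec' (measurable_Hy (f := f) (k := k) hν hη) s
  set F : ℝ → ℝ := fun y => y ^ (k + 1) * (phi f s y * (rho ν η (sq s y) + Lh f s y * chi ν η (sq s y)))
    with hF
  have hphiC : Continuous fun y => phi f s y :=
    continuous_iff_continuousAt.2 fun y => (phi_y hf s y).continuousAt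
  have hsqC : Continuous fun y => sq s y := by unfold sq; fun_prop
  have hLhC : Continuous fun y => Lh f s y := by
    unfold Lh
    refine continuous_finsetSum _ fun j _ => ?_
    refine Continuous.const_mul ?_ _
    refine Continuous.div continuous_const ?_ fun y => ((hf j).val_pos s y).ne'
    exact (continuous_val j).comp (Continuous.prodMk_right s)
  have hFC : Continuous F := by
    refine (Real.continuous_rpow_const (by linarith)).mul (hphiC.mul ?_)
    exact ((rho_cont hν).comp hsqC).add (hLhC.mul ((chi_cont hν hη).comp hsqC))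
  have hF0 : F 0 = 0 := by
    simp only [hF]
    rw [Real.zero_rpow (by linarith)]
    ring
  have hFlim : Tendsto F atTop (𝓝 0) := by
    have h := (tendsto_aux (k := k) hc).const_mul M
    rw [mul_zero] at h
    rw [tendsto_zero_iff_abs_tendsto_zero]
    refine squeeze_zero' (Eventually.of_forall fun y => abs_nonneg _) ?_ h
    filter_upwards [eventually_gt_atTop (0:ℝ)] with y hy
    have h1 := (hb s y hy).2.2.1
    have h2 : 0 ≤ y ^ (k + 1) := Real.rpow_nonneg hy.le _
    simp only [hF, Function.comp]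
    rw [abs_mul, abs_of_nonneg h2]
    calc y ^ (k + 1) * _ ≤ y ^ (k + 1) * (M * Real.exp (-c * sq s y)) := by gcongr
      _ ≤ y ^ (k + 1) * (M * Real.exp (-c * y ^ 2)) :=
          mul_le_mul_of_nonneg_left (mul_le_mul_of_nonneg_left (exp_sq_le hc) hM.le) h2
      _ = _ := by ring
  have hderiv : ∀ y ∈ Ioi (0:ℝ), HasDerivAt F (y ^ k * Hy f ν η k s y) y := by
    intro y hy
    have hy : 0 < y := hy
    have hsq : HasDerivAt (fun y => sq s y) (2 * y) y := by
      unfold sq
      simpa using ((hasDerivAt_id y).pow 2).const_add (s ⬝ᵥ s)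
    have hrho : HasDerivAt (fun y => rho ν η (sq s y)) (drho ν η (sq s y) * (2 * y)) y :=
      (rho_hasDerivAt (sq_pos s hy)).comp y hsq
    have hchi : HasDerivAt (fun y => chi ν η (sq s y)) (-(1/2) * rho ν η (sq s y) * (2 * y)) y :=
      (chi_hasDerivAt hν hη (sq s y)).comp y hsq
    have hp1 : HasDerivAt (fun y : ℝ => y ^ (k + 1)) ((k + 1) * y ^ k) y := by
      have := Real.hasDerivAt_rpow_const (x := y) (p := k + 1) (Or.inl hy.ne')
      simpa using this
    have hp0 : HasDerivAt (fun y : ℝ => y ^ k) (k * y ^ (k - 1)) y := by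
      have := Real.hasDerivAt_rpow_const (x := y) (p := k) (Or.inl hy.ne')
      simpa using this
    have h1 := (hp1.mul ((phi_y hf s y).mul hrho)).add (hp0.mul ((phi2_y hf s y).mul hchi))
    have h2 : F =ᶠ[𝓝 y] fun y => y ^ (k + 1) * (phi f s y * rho ν η (sq s y))
        + y ^ k * (phi f s y * (y * Lh f s y) * chi ν η (sq s y)) := by
      filter_upwards [lt_mem_nhds hy] with z hz
      simp only [hF]
      have : z ^ (k + 1) = z ^ k * z := Real.rpow_add_one hz.ne' k
      rw [this]; ring
    refine HasDerivAt.congr_of_eventuallyEq ?_ h2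
    refine HasDerivAt.congr_deriv h1 ?_
    have e1 : y ^ (k + 1) = y ^ k * y := Real.rpow_add_one hy.ne' k
    have e2 : y ^ (k - 1) * y = y ^ k := by
      rw [Real.rpow_sub_one hy.ne']; field_simp
    unfold Hy
    simp only [Pi.mul_apply]
    rw [e1, ← e2]
    ring
  have hint : IntegrableOn (fun y => y ^ k * Hy f ν η k s y) (Ioi 0) := by
    have hi := (integrableOn_rpow_mul_exp_neg_mul_sq hc hk).const_mul M
    refine Integrable.mono' hi ?_ ?_
    · exact ((measurable_id.pow_const k).mul mH).aestronglyMeasurable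
    · refine (ae_restrict_iff' measurableSet_Ioi).2 (Eventually.of_forall fun y hy => ?_)
      have hy : 0 < y := hy
      have h1 := (hb s y hy).2.1
      have h2 : 0 ≤ y ^ k := Real.rpow_nonneg hy.le _
      rw [Real.norm_eq_abs, abs_mul, abs_of_nonneg h2]
      calc y ^ k * _ ≤ y ^ k * (M * Real.exp (-c * sq s y)) := by gcongr
        _ ≤ y ^ k * (M * Real.exp (-c * y ^ 2)) :=
            mul_le_mul_of_nonneg_left (mul_le_mul_of_nonneg_left (exp_sq_le hc) hM.le) h2
        _ = _ := by ring
  have := integral_Ioi_of_hasDerivAt_of_tendsto (hFC.continuousWithinAt) hderiv hint hFlim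
  rw [this, hF0, sub_zero]

end Pool.Agent.V5helper59.Wish
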