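import Pool.Agent.V5helper59.Wish.A7

open MeasureTheory Set Matrix Filter
open scoped BigOperators Topology

set_option linter.unusedSectionVars false

namespace Pool.Agent.V5helper59.Wish

variable {κ : Type*} [Fintype κ] {J : Type*} [Fintype J] {n : ℝ} {f : J → QD κ}

/-- Lebesgue measure on the half space -/
noncomputable def hm (κ : Type*) [Fintype κ] : Measure ((κ → ℝ) × ℝ) :=
  (volume : Measure (κ → ℝ)).prod ((volume : Measure ℝ).restrict (Ioi 0))

instance : SFinite (hm κ) := by unfold hm; infer_instance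

lemma ae_pos : ∀ᵐ z ∂(hm κ), 0 < z.2 := by
  have h : ∀ᵐ y ∂((volume : Measure ℝ).restrict (Ioi 0)), 0 < y :=
    (ae_restrict_iff' measurableSet_Ioi).2 (Eventually.of_forall fun y hy => hy)
  exact Measure.quasiMeasurePreserving_snd.ae h

lemma integrable_hm {F : (κ → ℝ) × ℝ → ℝ} {M c k : ℝ} (hc : 0 < c) (hk : -1 < k)
    (hF : Measurable F) (h : ∀ s y, 0 < y → |F (s, y)| ≤ M * Real.exp (-c * sq s y)) :
    Integrable (fun z => z.2 ^ k * F z) (hm κ) := by
  have hD : Integrable (fun z : (κ → ℝ) × ℝ => (M * Real.exp (-c * (z.1 ⬝ᵥ z.1))) *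
      (z.2 ^ k * Real.exp (-c * z.2 ^ 2))) (hm κ) :=
    Integrable.mul_prod ((integrable_gauss hc).const_mul M)
      (integrableOn_rpow_mul_exp_neg_mul_sq hc hk)
  refine Integrable.mono' hD ?_ ?_
  · exact ((measurable_snd.pow_const k).mul hF).aestronglyMeasurable
  · filter_upwards [ae_pos] with z hz
    have h1 := h z.1 z.2 hz
    have h2 : 0 ≤ z.2 ^ k := Real.rpow_nonneg hz.le _
    rw [Real.norm_eq_abs, abs_mul, abs_of_nonneg h2]
    calc z.2 ^ k * |F z| ≤ z.2 ^ k * (M * Real.exp (-c * sq z.1 z.2)) := by gcongr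
      _ = _ := by
        have : Real.exp (-c * sq z.1 z.2) = Real.exp (-c * (z.1 ⬝ᵥ z.1)) * Real.exp (-c * z.2 ^ 2) := by
          rw [← Real.exp_add]; unfold sq; ring_nf
        rw [this]; ring

/-- the potential term -/
noncomputable def Lam (f : J → QD κ) (k : ℝ) (s : κ → ℝ) (y : ℝ) : ℝ :=
  (∑ i, (Lg f i s y ^ 2 + Lgg f i s y)) + ((y * Lh f s y) ^ 2 + Lhh f s y) + k * Lh f s y

lemma sum_H [DecidableEq κ] {ν η k : ℝ} (hn : n = Fintype.card κ + 1 + k) (s : κ → ℝ) {y : ℝ} (hy : 0 < y) :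
    (∑ i, Hs f ν η i s y) + Hy f ν η k s y
      = (n + 2 * ν) * (phi f s y * rho ν η (sq s y)) - η * (phi f s y * rho ν η (sq s y) * sq s y)
        + phi f s y * Lam f k s y * chi ν η (sq s y) := by
  have h := mul_drho (ν := ν) (η := η) (sq_pos s hy)
  have e : (∑ i, Hs f ν η i s y) = phi f s y * (Fintype.card κ * rho ν η (sq s y)
      + 2 * (s ⬝ᵥ s) * drho ν η (sq s y))
      + phi f s y * (∑ i, (Lg f i s y ^ 2 + Lgg f i s y)) * chi ν η (sq s y) := by
    unfold Hs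
    rw [Finset.sum_add_distrib, ← Finset.mul_sum, Finset.sum_add_distrib, ← Finset.sum_mul,
      ← Finset.sum_mul, ← Finset.mul_sum, ← Finset.mul_sum]
    simp only [Finset.sum_const, Finset.card_univ, nsmul_eq_mul, dotProduct]
    have e2 : ∑ i, s i ^ 2 = ∑ i, s i * s i := Finset.sum_congr rfl fun i _ => by ring
    rw [e2]
  rw [e]
  unfold Hy Lam
  have h2 : s ⬝ᵥ s = sq s y - y ^ 2 := by unfold sq; ring
  rw [h2, hn]
  linear_combination (2 * phi f s y) * h

theorem green [DecidableEq κ] (hf : ∀ j, (f j).Good n) {ν η k : ℝ} (hν : 0 ≤ ν) (hη : 0 < η) (hk : -1 < k)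
    (hn : n = Fintype.card κ + 1 + k) :
    (n + 2 * ν) * (∫ z, z.2 ^ k * (phi f z.1 z.2 * rho ν η (sq z.1 z.2)) ∂(hm κ))
      - η * (∫ z, z.2 ^ k * (phi f z.1 z.2 * rho ν η (sq z.1 z.2) * sq z.1 z.2) ∂(hm κ))
      + ∫ z, z.2 ^ k * (phi f z.1 z.2 * Lam f k z.1 z.2 * chi ν η (sq z.1 z.2)) ∂(hm κ) = 0 := by
  obtain ⟨M, c, hM, hc, hb⟩ := allbd hf k hν hη
  have mH := measurable_Hy (f := f) (k := k) hν hη
  have IHs : ∀ i, Integrable (fun z => z.2 ^ k * Hs f ν η i z.1 z.2) (hm κ) := fun i =>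
    integrable_hm hc hk (measurable_Hs hν hη i) fun s y hy => ((hb s y hy).1 i).1
  have IHy : Integrable (fun z => z.2 ^ k * Hy f ν η k z.1 z.2) (hm κ) :=
    integrable_hm hc hk mH fun s y hy => (hb s y hy).2.1
  have mphi := measurable_phi (f := f)
  have mrho := (measurable_rho (ν := ν) (η := η)).comp (measurable_sq (κ := κ))
  have I1 : Integrable (fun z => z.2 ^ k * (phi f z.1 z.2 * rho ν η (sq z.1 z.2))) (hm κ) :=
    integrable_hm (F := fun z => phi f z.1 z.2 * rho ν η (sq z.1 z.2)) hc hk (mphi.mul mrho)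
      fun s y hy => (hb s y hy).2.2.2.1
  have I2 : Integrable (fun z => z.2 ^ k * (phi f z.1 z.2 * rho ν η (sq z.1 z.2) * sq z.1 z.2)) (hm κ) :=
    integrable_hm (F := fun z => phi f z.1 z.2 * rho ν η (sq z.1 z.2) * sq z.1 z.2) hc hk
      ((mphi.mul mrho).mul measurable_sq) fun s y hy => (hb s y hy).2.2.2.2
  have Z1 : ∀ i, ∫ z, z.2 ^ k * Hs f ν η i z.1 z.2 ∂(hm κ) = 0 := by
    intro i
    have h1 := IHs i
    unfold hm at h1 ⊢
    rw [integral_prod_symm _ h1]
    refine (setIntegral_congr_fun measurableSet_Ioi (g := fun _ => (0:ℝ)) fun y hy => ?_).trans (by simp)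
    simp only
    rw [MeasureTheory.integral_const_mul, ibp_s hf hν hη hy i, mul_zero]
  have Z2 : ∫ z, z.2 ^ k * Hy f ν η k z.1 z.2 ∂(hm κ) = 0 := by
    have h1 := IHy
    unfold hm at h1 ⊢
    rw [integral_prod _ h1]
    simp only [ibp_y hf hν hη hk]
    simp
  have Z : ∫ z, ((∑ i, z.2 ^ k * Hs f ν η i z.1 z.2) + z.2 ^ k * Hy f ν η k z.1 z.2) ∂(hm κ) = 0 := by
    rw [integral_add (integrable_finsetSum _ fun i _ => IHs i) IHy,
      integral_finsetSum _ fun i _ => IHs i]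
    simp only [Z1, Z2]
    simp
  have e : ∀ᵐ z ∂(hm κ), (∑ i, z.2 ^ k * Hs f ν η i z.1 z.2) + z.2 ^ k * Hy f ν η k z.1 z.2
      = (n + 2 * ν) * (z.2 ^ k * (phi f z.1 z.2 * rho ν η (sq z.1 z.2)))
        - η * (z.2 ^ k * (phi f z.1 z.2 * rho ν η (sq z.1 z.2) * sq z.1 z.2))
        + z.2 ^ k * (phi f z.1 z.2 * Lam f k z.1 z.2 * chi ν η (sq z.1 z.2)) := by
    filter_upwards [ae_pos] with z hz
    have := sum_H (f := f) (ν := ν) (η := η) hn z.1 hz
    rw [← Finset.mul_sum, ← mul_add, this]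
    ring
  have I3 : Integrable (fun z => z.2 ^ k * (phi f z.1 z.2 * Lam f k z.1 z.2 * chi ν η (sq z.1 z.2)))
      (hm κ) := by
    have h3 := ((integrable_finsetSum Finset.univ fun i _ => IHs i).add IHy).sub
      ((I1.const_mul (n + 2 * ν)).sub (I2.const_mul η))
    refine h3.congr ?_
    filter_upwards [e] with z hz
    simp only [Pi.add_apply, Pi.sub_apply]
    rw [hz]; ring
  have I12 : Integrable (fun z => (n + 2 * ν) * (z.2 ^ k * (phi f z.1 z.2 * rho ν η (sq z.1 z.2)))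
        - η * (z.2 ^ k * (phi f z.1 z.2 * rho ν η (sq z.1 z.2) * sq z.1 z.2))) (hm κ) :=
    (I1.const_mul _).sub (I2.const_mul _)
  rw [integral_congr_ae e, integral_add I12 I3,
    integral_sub (I1.const_mul _) (I2.const_mul _), MeasureTheory.integral_const_mul,
    MeasureTheory.integral_const_mul] at Z
  exact Z

end Pool.Agent.V5helper59.Wish
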