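import Pool.Agent.V5helper59.Wish.A8

open MeasureTheory Set Matrix Filter
open scoped BigOperators Topology

set_option linter.unusedSectionVars false

namespace Pool.Agent.V5helper59.Wish

variable {κ : Type*} [Fintype κ] {J : Type*} [Fintype J] {n : ℝ} {f : J → QD κ}

noncomputable def NN (f : J → QD κ) (ν k η : ℝ) : ℝ :=
  ∫ z, z.2 ^ k * (phi f z.1 z.2 * rho ν η (sq z.1 z.2)) ∂(hm κ)
noncomputable def NN1 (f : J → QD κ) (ν k η : ℝ) : ℝ :=
  ∫ z, z.2 ^ k * (phi f z.1 z.2 * rho ν η (sq z.1 z.2) * sq z.1 z.2) ∂(hm κ)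

lemma NN_integrable (hf : ∀ j, (f j).Good n) {ν η k : ℝ} (hν : 0 ≤ ν) (hη : 0 < η) (hk : -1 < k) :
    Integrable (fun z => z.2 ^ k * (phi f z.1 z.2 * rho ν η (sq z.1 z.2))) (hm κ) := by
  obtain ⟨M, c, hM, hc, hb⟩ := allbd hf k hν hη
  exact integrable_hm (F := fun z => phi f z.1 z.2 * rho ν η (sq z.1 z.2)) hc hk
      (measurable_phi.mul ((measurable_rho (ν := ν) (η := η)).comp (measurable_sq (κ := κ))))
      fun s y hy => (hb s y hy).2.2.2.1

lemma NN1_integrable (hf : ∀ j, (f j).Good n) {ν η k : ℝ} (hν : 0 ≤ ν) (hη : 0 < η) (hk : -1 < k) :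
    Integrable (fun z => z.2 ^ k * (phi f z.1 z.2 * rho ν η (sq z.1 z.2) * sq z.1 z.2)) (hm κ) := by
  obtain ⟨M, c, hM, hc, hb⟩ := allbd hf k hν hη
  exact integrable_hm (F := fun z => phi f z.1 z.2 * rho ν η (sq z.1 z.2) * sq z.1 z.2) hc hk
      ((measurable_phi.mul ((measurable_rho (ν := ν) (η := η)).comp (measurable_sq (κ := κ)))).mul
        measurable_sq) fun s y hy => (hb s y hy).2.2.2.2

lemma NN_le (hf : ∀ j, (f j).Good n) {ν η k : ℝ} (hν : 0 ≤ ν) (hη : 0 < η) (hk : -1 < k)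
    (hn : n = Fintype.card κ + 1 + k) : (n + 2 * ν) * NN f ν k η ≤ η * NN1 f ν k η := by
  classical
  have h := green hf hν hη hk hn
  have h2 : 0 ≤ ∫ z, z.2 ^ k * (phi f z.1 z.2 * Lam f k z.1 z.2 * chi ν η (sq z.1 z.2)) ∂(hm κ) := by
    refine integral_nonneg_of_ae ?_
    filter_upwards [ae_pos] with z hz
    have h3 : 0 ≤ Lam f k z.1 z.2 := lap_nonneg hf hn z.1 z.2
    have h4 := (phi_pos hf z.1 z.2).le
    have h5 := chi_nonneg (ν := ν) (η := η) (sq_nonneg' z.1 z.2)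
    have h6 : 0 ≤ z.2 ^ k := Real.rpow_nonneg hz.le _
    simp only [Pi.zero_apply]
    positivity
  unfold NN NN1
  linarith

lemma NN_eq [IsEmpty J] {ν η k : ℝ} (hν : 0 ≤ ν) (hη : 0 < η) (hk : -1 < k)
    (hn : n = Fintype.card κ + 1 + k) : (n + 2 * ν) * NN f ν k η = η * NN1 f ν k η := by
  classical
  have hf : ∀ j, (f j).Good n := fun j => isEmptyElim j
  have h := green hf hν hη hk hn
  have h2 : ∫ z, z.2 ^ k * (phi f z.1 z.2 * Lam f k z.1 z.2 * chi ν η (sq z.1 z.2)) ∂(hm κ) = 0 := by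
    have : ∀ z : (κ → ℝ) × ℝ, Lam f k z.1 z.2 = 0 := by
      intro z; simp [Lam, Lg, Lgg, Lh, Lhh]
    simp [this]
  unfold NN NN1
  linarith

lemma rho_anti {ν η η' u : ℝ} (hu : 0 ≤ u) (h : η' ≤ η) : rho ν η u ≤ rho ν η' u := by
  unfold rho
  have : 0 ≤ u ^ ν := Real.rpow_nonneg hu _
  gcongr ?_ * Real.exp ?_
  nlinarith

lemma NN_deriv (hf : ∀ j, (f j).Good n) {ν η k : ℝ} (hν : 0 ≤ ν) (hη : 0 < η) (hk : -1 < k) :
    HasDerivAt (NN f ν k) (-(1/2) * NN1 f ν k η) η := by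
  have hs : Ioi (η / 2) ∈ 𝓝 η := Ioi_mem_nhds (by linarith)
  have mrho : ∀ η', Measurable fun z : (κ → ℝ) × ℝ => rho ν η' (sq z.1 z.2) := fun η' =>
    (measurable_rho (ν := ν) (η := η')).comp (measurable_sq (κ := κ))
  have key := hasDerivAt_integral_of_dominated_loc_of_deriv_le (μ := hm κ) (x₀ := η)
    (F := fun η z => z.2 ^ k * (phi f z.1 z.2 * rho ν η (sq z.1 z.2)))
    (F' := fun η z => -(1/2) * (z.2 ^ k * (phi f z.1 z.2 * rho ν η (sq z.1 z.2) * sq z.1 z.2)))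
    (bound := fun z => z.2 ^ k * (phi f z.1 z.2 * rho ν (η / 2) (sq z.1 z.2) * sq z.1 z.2)) hs
    (Eventually.of_forall fun η' =>
      ((measurable_snd.pow_const k).mul (measurable_phi.mul (mrho η'))).aestronglyMeasurable)
    (NN_integrable hf hν hη hk)
    (((measurable_snd.pow_const k).mul ((measurable_phi.mul (mrho η)).mul
      measurable_sq)).const_mul (-(1/2))).aestronglyMeasurable
    (by
      filter_upwards [ae_pos] with z hz η' hη'
      have hη' : η / 2 < η' := hη'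
      have h4 := (phi_pos hf z.1 z.2).le
      have h5 := rho_nonneg (ν := ν) (η := η') (sq_nonneg' z.1 z.2)
      have h6 : 0 ≤ z.2 ^ k := Real.rpow_nonneg hz.le _
      have h7 := sq_nonneg' z.1 z.2
      have h8 := rho_anti (ν := ν) (sq_nonneg' z.1 z.2) hη'.le
      rw [Real.norm_eq_abs, abs_mul, abs_of_nonneg (a := z.2 ^ k * _) (by positivity)]
      have h9 : z.2 ^ k * (phi f z.1 z.2 * rho ν η' (sq z.1 z.2) * sq z.1 z.2)
          ≤ z.2 ^ k * (phi f z.1 z.2 * rho ν (η / 2) (sq z.1 z.2) * sq z.1 z.2) := by gcongr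
      have h10 : 0 ≤ z.2 ^ k * (phi f z.1 z.2 * rho ν η' (sq z.1 z.2) * sq z.1 z.2) := by positivity
      rw [abs_neg, abs_of_pos (by norm_num : (0:ℝ) < 1/2)]
      linarith)
    (NN1_integrable hf hν (by linarith) hk)
    (by
      filter_upwards with z η' _
      have h1 : HasDerivAt (fun η : ℝ => Real.exp (-(η / 2) * sq z.1 z.2))
          (Real.exp (-(η' / 2) * sq z.1 z.2) * (-(1/2) * sq z.1 z.2)) η' := by
        have h0 : HasDerivAt (fun η : ℝ => -(η / 2) * sq z.1 z.2) (-(1/2) * sq z.1 z.2) η' := by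
          simpa using (((hasDerivAt_id η').div_const 2).neg).mul_const (sq z.1 z.2)
        exact h0.exp
      have h2 := ((h1.const_mul (sq z.1 z.2 ^ ν)).const_mul (phi f z.1 z.2)).const_mul (z.2 ^ k)
      unfold rho
      refine h2.congr_deriv ?_
      ring)
  have h2 := key.2
  rw [MeasureTheory.integral_const_mul] at h2
  exact h2

lemma G_anti (hf : ∀ j, (f j).Good n) {ν k : ℝ} (hν : 0 ≤ ν) (hk : -1 < k)
    (hn : n = Fintype.card κ + 1 + k) :
    AntitoneOn (fun η => η ^ (n / 2 + ν) * NN f ν k η) (Ioi 0) := by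
  have hd : ∀ η ∈ Ioi (0:ℝ), HasDerivAt (fun η => η ^ (n / 2 + ν) * NN f ν k η)
      ((n / 2 + ν) * η ^ (n / 2 + ν - 1) * NN f ν k η + η ^ (n / 2 + ν) * (-(1/2) * NN1 f ν k η)) η := by
    intro η hη
    have h1 : HasDerivAt (fun η : ℝ => η ^ (n / 2 + ν)) ((n / 2 + ν) * η ^ (n / 2 + ν - 1)) η := by
      simpa using Real.hasDerivAt_rpow_const (p := n / 2 + ν) (Or.inl (ne_of_gt hη))
    exact h1.mul (NN_deriv hf hν hη hk)
  refine antitoneOn_of_deriv_nonpos (convex_Ioi 0) (fun η hη => (hd η hη).continuousAt.continuousWithinAt)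
    (fun η hη => ?_) (fun η hη => ?_)
  · rw [interior_Ioi] at hη
    exact (hd η hη).differentiableAt.differentiableWithinAt
  · rw [interior_Ioi] at hη
    rw [(hd η hη).deriv]
    have hη : 0 < η := hη
    have h := NN_le hf hν hη hk hn
    have e : η ^ (n / 2 + ν) = η ^ (n / 2 + ν - 1) * η := by
      rw [Real.rpow_sub_one hη.ne']; field_simp
    rw [e]
    have h2 : 0 < η ^ (n / 2 + ν - 1) := Real.rpow_pos_of_pos hη _
    have : (n / 2 + ν) * η ^ (n / 2 + ν - 1) * NN f ν k η + η ^ (n / 2 + ν - 1) * η * (-(1 / 2) * NN1 f ν k η)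
        = (1/2) * η ^ (n / 2 + ν - 1) * ((n + 2 * ν) * NN f ν k η - η * NN1 f ν k η) := by ring
    rw [this]
    have h3 : (n + 2 * ν) * NN f ν k η - η * NN1 f ν k η ≤ 0 := by linarith
    exact mul_nonpos_of_nonneg_of_nonpos (by positivity) h3

lemma G_mono [IsEmpty J] {ν k : ℝ} (hν : 0 ≤ ν) (hk : -1 < k)
    (hn : n = Fintype.card κ + 1 + k) :
    MonotoneOn (fun η => η ^ (n / 2 + ν) * NN f ν k η) (Ioi 0) := by
  have hf : ∀ j, (f j).Good n := fun j => isEmptyElim j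
  have hd : ∀ η ∈ Ioi (0:ℝ), HasDerivAt (fun η => η ^ (n / 2 + ν) * NN f ν k η)
      ((n / 2 + ν) * η ^ (n / 2 + ν - 1) * NN f ν k η + η ^ (n / 2 + ν) * (-(1/2) * NN1 f ν k η)) η := by
    intro η hη
    have h1 : HasDerivAt (fun η : ℝ => η ^ (n / 2 + ν)) ((n / 2 + ν) * η ^ (n / 2 + ν - 1)) η := by
      simpa using Real.hasDerivAt_rpow_const (p := n / 2 + ν) (Or.inl (ne_of_gt hη))
    exact h1.mul (NN_deriv hf hν hη hk)
  refine monotoneOn_of_deriv_nonneg (convex_Ioi 0) (fun η hη => (hd η hη).continuousAt.continuousWithinAt)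
    (fun η hη => ?_) (fun η hη => ?_)
  · rw [interior_Ioi] at hη
    exact (hd η hη).differentiableAt.differentiableWithinAt
  · rw [interior_Ioi] at hη
    rw [(hd η hη).deriv]
    have hη : 0 < η := hη
    have h := NN_eq (f := f) hν hη hk hn
    have e : η ^ (n / 2 + ν) = η ^ (n / 2 + ν - 1) * η := by
      rw [Real.rpow_sub_one hη.ne']; field_simp
    rw [e]
    have : (n / 2 + ν) * η ^ (n / 2 + ν - 1) * NN f ν k η + η ^ (n / 2 + ν - 1) * η * (-(1 / 2) * NN1 f ν k η)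
        = (1/2) * η ^ (n / 2 + ν - 1) * ((n + 2 * ν) * NN f ν k η - η * NN1 f ν k η) := by ring
    rw [this, h]
    simp

lemma NN_nonneg (hf : ∀ j, (f j).Good n) {ν k η : ℝ} : 0 ≤ NN f ν k η := by
  unfold NN
  refine integral_nonneg_of_ae ?_
  filter_upwards [ae_pos] with z hz
  have h4 := (phi_pos hf z.1 z.2).le
  have h5 := rho_nonneg (ν := ν) (η := η) (sq_nonneg' z.1 z.2)
  have h6 : 0 ≤ z.2 ^ k := Real.rpow_nonneg hz.le _
  simp only [Pi.zero_apply]
  positivity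

/-- comparison of `f` with the empty product -/
lemma NN_compare (hf : ∀ j, (f j).Good n) {ν k η : ℝ} (hν : 0 ≤ ν) (hk : -1 < k)
    (hn : n = Fintype.card κ + 1 + k) (hη : 1 ≤ η) (f0 : Empty → QD κ) :
    NN f ν k η * NN f0 ν k 1 ≤ NN f0 ν k η * NN f ν k 1 := by
  have h1 := G_anti hf hν hk hn (show (1:ℝ) ∈ Ioi 0 by simp) (show η ∈ Ioi (0:ℝ) by
    simp only [mem_Ioi]; linarith) hη
  have h2 := G_mono (f := f0) (n := n) hν hk hn (show (1:ℝ) ∈ Ioi 0 by simp) (show η ∈ Ioi (0:ℝ) by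
    simp only [mem_Ioi]; linarith) hη
  simp only [Real.one_rpow, one_mul] at h1 h2
  have hf0 : ∀ j, (f0 j).Good n := fun j => isEmptyElim j
  have p1 := NN_nonneg (ν := ν) (k := k) (η := η) hf
  have p2 := NN_nonneg (ν := ν) (k := k) (η := 1) hf
  have p3 := NN_nonneg (ν := ν) (k := k) (η := η) hf0
  have p4 := NN_nonneg (ν := ν) (k := k) (η := 1) hf0
  have hpos : 0 < η ^ (n / 2 + ν) := Real.rpow_pos_of_pos (by linarith) _
  have h3 : (η ^ (n / 2 + ν) * NN f ν k η) * NN f0 ν k 1 ≤ NN f ν k 1 * (η ^ (n / 2 + ν) * NN f0 ν k η) :=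
    mul_le_mul h1 h2 p4 p2
  have h4 : η ^ (n / 2 + ν) * (NN f ν k η * NN f0 ν k 1) ≤ η ^ (n / 2 + ν) * (NN f0 ν k η * NN f ν k 1) := by
    linarith
  exact le_of_mul_le_mul_left h4 hpos

end Pool.Agent.V5helper59.Wish
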