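import Pool.Agent.V5helper59.Wish.A10

open MeasureTheory Set Matrix Filter
open scoped BigOperators Topology ENNReal

set_option linter.unusedSectionVars false

namespace Pool.Agent.V5helper59.Wish

variable {m : Type*} [Fintype m] [DecidableEq m]

section
open scoped MatrixOrder

lemma psd_factor {Z : Matrix m m ℝ} (h : Z.PosSemidef) : ∃ B : Matrix m m ℝ, Z = Bᵀ * B := by
  obtain ⟨B, hB⟩ := CStarAlgebra.nonneg_iff_eq_star_mul_self.mp h.nonneg
  exact ⟨B, by rw [hB, star_eq_conjTranspose, conjTranspose_eq_transpose_of_trivial]⟩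

end

lemma pd_factor {S : Matrix m m ℝ} (h : S.PosDef) :
    ∃ B : Matrix m m ℝ, B.det ≠ 0 ∧ S = Bᵀ * B := by
  obtain ⟨B, hB⟩ := psd_factor h.posSemidef
  refine ⟨B, fun h0 => ?_, hB⟩
  have := h.det_pos
  rw [hB, det_mul, h0, mul_zero] at this
  exact lt_irrefl _ this

lemma pd_whiten {S : Matrix m m ℝ} (h : S.PosDef) :
    ∃ N : Matrix m m ℝ, N.det ≠ 0 ∧ N * S * Nᵀ = 1 := by
  obtain ⟨B, hB, rfl⟩ := pd_factor h
  have hBt : IsUnit Bᵀ.det := by rw [det_transpose]; exact isUnit_iff_ne_zero.2 hB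
  have hB' : IsUnit B.det := isUnit_iff_ne_zero.2 hB
  refine ⟨(Bᵀ)⁻¹, ?_, ?_⟩
  · rw [det_nonsing_inv]
    exact (isUnit_ringInverse.2 hBt).ne_zero
  · rw [← Matrix.mul_assoc, nonsing_inv_mul _ hBt, Matrix.one_mul, transpose_nonsing_inv,
      transpose_transpose, mul_nonsing_inv _ hB']

lemma detform (c w : m → ℝ) (u : ℝ) :
    det (1 + (u • vecMulVec c c + vecMulVec c w + vecMulVec w c))
      = (1 + c ⬝ᵥ w) ^ 2 + (c ⬝ᵥ c) * (u - w ⬝ᵥ w) := by
  set U : Matrix m (Fin 2) ℝ := Matrix.of fun i j => if j = 0 then c i else w i with hU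
  set V : Matrix (Fin 2) m ℝ := Matrix.of fun j i => if j = 0 then u * c i + w i else c i with hV
  have e : u • vecMulVec c c + vecMulVec c w + vecMulVec w c = U * V := by
    ext i j
    simp [hU, hV, Matrix.mul_apply, vecMulVec_apply, Fin.sum_univ_two]
    ring
  rw [e, det_one_add_mul_comm, det_fin_two]
  have h00 : (V * U) 0 0 = u * (c ⬝ᵥ c) + w ⬝ᵥ c := by
    simp [hU, hV, Matrix.mul_apply, dotProduct, Finset.mul_sum, ← Finset.sum_add_distrib]
    exact Finset.sum_congr rfl fun i _ => by ring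
  have h01 : (V * U) 0 1 = u * (c ⬝ᵥ w) + w ⬝ᵥ w := by
    simp [hU, hV, Matrix.mul_apply, dotProduct, Finset.mul_sum, ← Finset.sum_add_distrib]
    exact Finset.sum_congr rfl fun i _ => by ring
  have h10 : (V * U) 1 0 = c ⬝ᵥ c := by
    simp [hU, hV, Matrix.mul_apply, dotProduct]
  have h11 : (V * U) 1 1 = c ⬝ᵥ w := by
    simp [hU, hV, Matrix.mul_apply, dotProduct]
  have hwc : w ⬝ᵥ c = c ⬝ᵥ w := dotProduct_comm _ _
  simp only [Matrix.add_apply, h00, h01, h10, h11, hwc]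
  simp
  ring

lemma cauchy (x y : m → ℝ) : (x ⬝ᵥ y) ^ 2 ≤ (x ⬝ᵥ x) * (y ⬝ᵥ y) := by
  have := Finset.sum_mul_sq_le_sq_mul_sq Finset.univ x y
  simp only [dotProduct]
  calc _ ≤ _ := this
    _ = _ := by simp only [_root_.sq]

lemma psd_le_trace {Z : Matrix m m ℝ} (h : Z.PosSemidef) (x : m → ℝ) :
    x ⬝ᵥ (Z *ᵥ x) ≤ (x ⬝ᵥ x) * Z.trace := by
  obtain ⟨B, rfl⟩ := psd_factor h
  have h1 : x ⬝ᵥ ((Bᵀ * B) *ᵥ x) = ∑ k, (B k ⬝ᵥ x) ^ 2 := by
    rw [← mulVec_mulVec, dotProduct_mulVec, vecMul_transpose]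
    simp only [dotProduct, mulVec, _root_.sq]
  have h2 : (Bᵀ * B).trace = ∑ k, B k ⬝ᵥ B k := by
    rw [trace_mul_comm]
    simp only [Matrix.trace, diag_apply, Matrix.mul_apply, transpose_apply, dotProduct]
  rw [h1, h2, Finset.mul_sum]
  refine Finset.sum_le_sum fun k _ => ?_
  rw [mul_comm (x ⬝ᵥ x)]
  exact cauchy _ _

variable {κ : Type*} [Fintype κ] [DecidableEq κ]

/-- `R + (c sᵀ + D)(c sᵀ + D)ᵀ + y² c cᵀ` -/
def Mat (R : Matrix m m ℝ) (c : m → ℝ) (D : Matrix m κ ℝ) (s : κ → ℝ) (y : ℝ) : Matrix m m ℝ :=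
  R + D * Dᵀ + (sq s y • vecMulVec c c + vecMulVec c (D *ᵥ s) + vecMulVec (D *ᵥ s) c)

lemma Mat_psd {R : Matrix m m ℝ} (hR : R.PosSemidef) (c : m → ℝ) (D : Matrix m κ ℝ) (s : κ → ℝ) (y : ℝ) :
    (Mat R c D s y).PosSemidef := by
  have e : Mat R c D s y = R + (vecMulVec c s + D) * (vecMulVec c s + D)ᵀ
      + y ^ 2 • vecMulVec c c := by
    unfold Mat
    have h1 : vecMulVec c s * (vecMulVec c s)ᵀ = (s ⬝ᵥ s) • vecMulVec c c := by
      ext i j
      simp [Matrix.mul_apply, vecMulVec_apply, dotProduct, Finset.sum_mul]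
      exact Finset.sum_congr rfl fun k _ => by ring
    have h2 : vecMulVec c s * Dᵀ = vecMulVec c (D *ᵥ s) := by
      ext i j
      simp [Matrix.mul_apply, vecMulVec_apply, mulVec, dotProduct, Finset.mul_sum]
      exact Finset.sum_congr rfl fun k _ => by ring
    have h3 : D * (vecMulVec c s)ᵀ = vecMulVec (D *ᵥ s) c := by
      ext i j
      simp [Matrix.mul_apply, vecMulVec_apply, mulVec, dotProduct, Finset.sum_mul]
      exact Finset.sum_congr rfl fun k _ => by ring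
    rw [transpose_add, Matrix.mul_add, Matrix.add_mul, Matrix.add_mul, h1, h2, h3, sq, add_smul]
    abel
  rw [e]
  refine (hR.add ?_).add ?_
  · have := posSemidef_self_mul_conjTranspose (vecMulVec c s + D)
    rwa [conjTranspose_eq_transpose_of_trivial] at this
  · have := posSemidef_vecMulVec_self_star c
    simp only [star_trivial] at this
    exact this.smul (by positivity)

/-- The determinant is an admissible quadratic polynomial. -/
theorem det_QD {R : Matrix m m ℝ} (hR : R.PosDef) (c : m → ℝ) (D : Matrix m κ ℝ) {δ ν n : ℝ}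
    (hδ : 0 < δ) (hν : 0 ≤ ν) (hn : Fintype.card m + 1 ≤ n) :
    ∃ q : QD κ, q.Good n ∧ q.ν = ν ∧ ∀ s y, q.val s y = (Mat R c D s y).det + δ := by
  have hDD : (D * Dᵀ).PosSemidef := by
    have := posSemidef_self_mul_conjTranspose D
    rwa [conjTranspose_eq_transpose_of_trivial] at this
  have hS : (R + D * Dᵀ).PosDef := hR.add_posSemidef hDD
  obtain ⟨N, hN, hNS⟩ := pd_whiten hS
  set S := R + D * Dᵀ with hSdef
  set dS := S.det with hdS
  have hdSpos : 0 < dS := hS.det_pos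
  set c' := N *ᵥ c with hc'
  set D' := N * D with hD'
  have hdet : N.det * dS * N.det = 1 := by
    have := congrArg det hNS
    rwa [det_mul, det_mul, det_transpose, det_one] at this
  -- determinant of `Mat`
  have hMat : ∀ s y, (Mat R c D s y).det
      = dS * ((1 + c' ⬝ᵥ (D' *ᵥ s)) ^ 2 + (c' ⬝ᵥ c') * (sq s y - (D' *ᵥ s) ⬝ᵥ (D' *ᵥ s))) := by
    intro s y
    rw [← detform]
    have e : N * Mat R c D s y * Nᵀ = 1 + (sq s y • vecMulVec c' c' + vecMulVec c' (D' *ᵥ s)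
        + vecMulVec (D' *ᵥ s) c') := by
      unfold Mat
      have hv : ∀ a b : m → ℝ, N * vecMulVec a b * Nᵀ = vecMulVec (N *ᵥ a) (N *ᵥ b) := by
        intro a b
        rw [mul_vecMulVec, vecMulVec_mul, vecMul_transpose]
      rw [Matrix.mul_add, Matrix.add_mul, hNS, Matrix.mul_add, Matrix.mul_add, Matrix.add_mul,
        Matrix.add_mul, Matrix.mul_smul, Matrix.smul_mul, hv, hv, hv, mulVec_mulVec]
    rw [← e, det_mul, det_mul, det_transpose]
    have : dS * (N.det * (Mat R c D s y).det * N.det)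
        = (N.det * dS * N.det) * (Mat R c D s y).det := by ring
    rw [this, hdet, one_mul]
  have hsym : ∀ v s : κ → ℝ, (D' *ᵥ v) ⬝ᵥ (D' *ᵥ s) = v ⬝ᵥ ((D'ᵀ * D') *ᵥ s) := by
    intro v s
    have := mulVec_mulVec s D'ᵀ D'
    rw [← this, dotProduct_mulVec v, vecMul_transpose]
  have hcd : ∀ s : κ → ℝ, c' ⬝ᵥ (D' *ᵥ s) = (D'ᵀ *ᵥ c') ⬝ᵥ s := by
    intro s
    rw [dotProduct_mulVec, mulVec_transpose]
  refine ⟨⟨dS * (c' ⬝ᵥ c'), dS • ((c' ⬝ᵥ c') • (D'ᵀ * D') - vecMulVec (D'ᵀ *ᵥ c') (D'ᵀ *ᵥ c')),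
    dS • (D'ᵀ *ᵥ c'), dS + δ, δ, ν⟩, ?_, rfl, ?_⟩
  swap
  · intro s y
    rw [hMat s y, hsym, hcd]
    simp only [QD.val, smul_mulVec, sub_mulVec, dotProduct_smul, dotProduct_sub, smul_dotProduct,
      smul_eq_mul, vecMulVec_mulVec, op_smul_eq_smul]
    rw [dotProduct_comm s (D'ᵀ *ᵥ c')]
    ring
  have hval : ∀ s y, QD.val ⟨dS * (c' ⬝ᵥ c'),
      dS • ((c' ⬝ᵥ c') • (D'ᵀ * D') - vecMulVec (D'ᵀ *ᵥ c') (D'ᵀ *ᵥ c')),
      dS • (D'ᵀ *ᵥ c'), dS + δ, δ, ν⟩ s y = (Mat R c D s y).det + δ := by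
    intro s y
    rw [hMat s y, hsym, hcd]
    simp only [QD.val, smul_mulVec, sub_mulVec, dotProduct_smul, dotProduct_sub, smul_dotProduct,
      smul_eq_mul, vecMulVec_mulVec, op_smul_eq_smul]
    rw [dotProduct_comm s (D'ᵀ *ᵥ c')]
    ring
  have hcc : 0 ≤ c' ⬝ᵥ c' := dot_self_nonneg c'
  constructor
  · exact mul_nonneg hdSpos.le hcc
  · refine PosSemidef.smul ?_ hdSpos.le
    refine PosSemidef.of_dotProduct_mulVec_nonneg ?_ fun v => ?_
    · rw [IsHermitian, conjTranspose_eq_transpose_of_trivial, transpose_sub, transpose_smul,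
        transpose_mul, transpose_transpose, transpose_vecMulVec]
    · simp only [star_trivial, sub_mulVec, smul_mulVec, dotProduct_sub, dotProduct_smul, smul_eq_mul,
        vecMulVec_mulVec, op_smul_eq_smul]
      rw [← hsym, dotProduct_comm v (D'ᵀ *ᵥ c'), ← hcd]
      have := cauchy c' (D' *ᵥ v)
      nlinarith
  · exact hδ
  · intro s y
    rw [hval]
    have := (Mat_psd hR.posSemidef c D s y).det_nonneg
    simp only
    linarith
  · simp only
    -- trace computation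
    set Z := N * R * Nᵀ with hZ
    have hZpsd : Z.PosSemidef := by
      have := hR.posSemidef.mul_mul_conjTranspose_same N
      rwa [conjTranspose_eq_transpose_of_trivial] at this
    have hDZ : D' * D'ᵀ = 1 - Z := by
      rw [hD', hZ, transpose_mul, eq_sub_iff_add_eq, ← hNS, hSdef]
      simp only [Matrix.mul_add, Matrix.add_mul, Matrix.mul_assoc]
      abel
    have t1 : (D'ᵀ * D').trace = Fintype.card m - Z.trace := by
      rw [trace_mul_comm, hDZ, trace_sub, trace_one]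
    have t2 : (D'ᵀ *ᵥ c') ⬝ᵥ (D'ᵀ *ᵥ c') = c' ⬝ᵥ c' - c' ⬝ᵥ (Z *ᵥ c') := by
      rw [dotProduct_mulVec, vecMul_transpose, mulVec_mulVec, hDZ, sub_mulVec, one_mulVec,
        sub_dotProduct, dotProduct_comm (Z *ᵥ c')]
    have t3 := psd_le_trace hZpsd c'
    rw [trace_smul, trace_sub, trace_smul, trace_vecMulVec, t1, t2, smul_eq_mul, smul_eq_mul, mul_assoc]
    refine mul_le_mul_of_nonneg_left ?_ hdSpos.le
    nlinarith
  · exact hν

end Pool.Agent.V5helper59.Wish
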