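import Mathlib

open MeasureTheory Set Matrix Filter
open scoped BigOperators Topology ENNReal

set_option linter.unusedSectionVars false

namespace Pool.Agent.V5helper59.Wish

variable {ι : Type*}

/-- the symmetric matrix with given entries, one for each unordered pair of indices -/
def toM (x : Sym2 ι → ℝ) : Matrix ι ι ℝ := Matrix.of fun i j => x s(i, j)

@[simp] lemma toM_apply (x : Sym2 ι → ℝ) (i j : ι) : toM x i j = x s(i, j) := rfl

lemma toM_transpose (x : Sym2 ι → ℝ) : (toM x)ᵀ = toM x := by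
  ext i j; simp [Sym2.eq_swap]

lemma toM_herm (x : Sym2 ι → ℝ) : (toM x).IsHermitian := by
  rw [IsHermitian, conjTranspose_eq_transpose_of_trivial, toM_transpose]

lemma toM_add (x y : Sym2 ι → ℝ) : toM (x + y) = toM x + toM y := by ext; simp

lemma toM_injective : Function.Injective (toM (ι := ι)) := by
  intro x y h
  funext p
  induction p with
  | _ i j => exact congrFun (congrFun h i) j

/-- coordinates of a symmetric matrix -/
def ofM (X : Matrix ι ι ℝ) (hX : Xᵀ = X) : Sym2 ι → ℝ :=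
  Sym2.lift ⟨fun i j => X i j, fun i j => by
    have := congrFun (congrFun hX i) j
    rw [transpose_apply] at this
    exact this.symm⟩

lemma toM_ofM (X : Matrix ι ι ℝ) (hX : Xᵀ = X) : toM (ofM X hX) = X := by
  ext i j; simp [ofM]

lemma continuous_toM : Continuous (toM (ι := ι)) := by
  refine continuous_matrix fun i j => ?_
  exact continuous_apply s(i, j)

section blocks
variable {κ : Type*}

/-- block matrix -/
def blk (τ : ℝ) (v : κ → ℝ) (Z : Matrix κ κ ℝ) : Matrix (Unit ⊕ κ) (Unit ⊕ κ) ℝ :=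
  fromBlocks (Matrix.of fun _ _ => τ) (Matrix.of fun _ j => v j) (Matrix.of fun i _ => v i) Z

def eqFun : Unit ⊕ (κ ⊕ Sym2 κ) → Sym2 (Unit ⊕ κ)
  | Sum.inl _ => s(Sum.inl (), Sum.inl ())
  | Sum.inr (Sum.inl k) => s(Sum.inl (), Sum.inr k)
  | Sum.inr (Sum.inr z) => Sym2.map Sum.inr z

lemma eqFun_bij : Function.Bijective (eqFun (κ := κ)) := by
  constructor
  · rintro (_ | (a | a)) (_ | (b | b)) h
    · rfl
    · simp [eqFun] at h
    · induction b with
      | _ i j => simp [eqFun] at h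
    · simp [eqFun] at h
    · simp [eqFun] at h; simp [h]
    · induction b with
      | _ i j => simp [eqFun] at h
    · induction a with
      | _ i j => simp [eqFun] at h
    · induction a with
      | _ i j => simp [eqFun] at h
    · have := Sym2.map.injective (f := (Sum.inr : κ → Unit ⊕ κ)) Sum.inr_injective h
      rw [this]
  · intro p
    induction p with
    | _ a b =>
      rcases a with a | a <;> rcases b with b | b
      · exact ⟨Sum.inl (), by simp [eqFun]⟩
      · exact ⟨Sum.inr (Sum.inl b), by simp [eqFun]⟩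
      · exact ⟨Sum.inr (Sum.inl a), by simp [eqFun, Sym2.eq_swap]⟩
      · exact ⟨Sum.inr (Sum.inr s(a, b)), by simp [eqFun]⟩

noncomputable def eqv : Unit ⊕ (κ ⊕ Sym2 κ) ≃ Sym2 (Unit ⊕ κ) := Equiv.ofBijective eqFun eqFun_bij

/-- coordinates of the block matrix -/
noncomputable def mk (τ : ℝ) (v : κ → ℝ) (z : Sym2 κ → ℝ) : Sym2 (Unit ⊕ κ) → ℝ :=
  fun p => Sum.elim (fun _ => τ) (Sum.elim v z) (eqv.symm p)

lemma mk_eqv (τ : ℝ) (v : κ → ℝ) (z : Sym2 κ → ℝ) (a) :
    mk τ v z (eqv a) = Sum.elim (fun _ => τ) (Sum.elim v z) a := by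
  unfold mk; rw [Equiv.symm_apply_apply]

lemma toM_mk (τ : ℝ) (v : κ → ℝ) (z : Sym2 κ → ℝ) : toM (mk τ v z) = blk τ v (toM z) := by
  ext a b
  rcases a with a | a <;> rcases b with b | b
  · have := mk_eqv τ v z (Sum.inl ())
    simpa [eqv, eqFun, blk] using this
  · have := mk_eqv τ v z (Sum.inr (Sum.inl b))
    simpa [eqv, eqFun, blk] using this
  · have := mk_eqv τ v z (Sum.inr (Sum.inl a))
    rw [toM_apply, Sym2.eq_swap]
    simpa [eqv, eqFun, blk] using this
  · have := mk_eqv τ v z (Sum.inr (Sum.inr s(a, b)))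
    simpa [eqv, eqFun, blk] using this

variable [Fintype κ] [DecidableEq κ]

lemma mp_mk : MeasurePreserving (fun t : ℝ × ((κ → ℝ) × (Sym2 κ → ℝ)) => mk t.1 t.2.1 t.2.2)
    volume volume := by
  have h1 : MeasurePreserving (MeasurableEquiv.funUnique Unit ℝ).symm volume volume :=
    (volume_preserving_funUnique Unit ℝ).symm
  have h2 : MeasurePreserving (MeasurableEquiv.sumPiEquivProdPi (fun _ : κ ⊕ Sym2 κ => ℝ)).symm
    volume volume := volume_measurePreserving_sumPiEquivProdPi_symm (fun _ : κ ⊕ Sym2 κ => ℝ)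
  have h3 : MeasurePreserving (MeasurableEquiv.sumPiEquivProdPi (fun _ : Unit ⊕ (κ ⊕ Sym2 κ) => ℝ)).symm
    volume volume := volume_measurePreserving_sumPiEquivProdPi_symm (fun _ : Unit ⊕ (κ ⊕ Sym2 κ) => ℝ)
  have h4 : MeasurePreserving (MeasurableEquiv.piCongrLeft (fun _ : Sym2 (Unit ⊕ κ) => ℝ) eqv)
    volume volume := volume_measurePreserving_piCongrLeft (fun _ : Sym2 (Unit ⊕ κ) => ℝ) eqv
  have h5 := h4.comp (h3.comp (h1.prod h2))
  have e : (fun t : ℝ × ((κ → ℝ) × (Sym2 κ → ℝ)) => mk t.1 t.2.1 t.2.2)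
      = (MeasurableEquiv.piCongrLeft (fun _ : Sym2 (Unit ⊕ κ) => ℝ) eqv) ∘
        ((MeasurableEquiv.sumPiEquivProdPi (fun _ : Unit ⊕ (κ ⊕ Sym2 κ) => ℝ)).symm ∘
          Prod.map (MeasurableEquiv.funUnique Unit ℝ).symm
            (MeasurableEquiv.sumPiEquivProdPi (fun _ : κ ⊕ Sym2 κ => ℝ)).symm) := by
    funext t
    funext p
    obtain ⟨a, rfl⟩ := eqv.surjective p
    rw [mk_eqv]
    simp only [Function.comp]
    rw [MeasurableEquiv.coe_piCongrLeft, Equiv.piCongrLeft_apply_apply]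
    rcases a with a | a | a <;> rfl
  rw [e]
  exact h5

lemma lintegral_mk {h : (Sym2 (Unit ⊕ κ) → ℝ) → ℝ≥0∞} (hh : Measurable h) :
    ∫⁻ x, h x = ∫⁻ τ, ∫⁻ v, ∫⁻ z, h (mk τ v z) := by
  have hm : Measurable fun t : ℝ × ((κ → ℝ) × (Sym2 κ → ℝ)) => mk t.1 t.2.1 t.2.2 := mp_mk.measurable
  have hH : Measurable fun t : ℝ × ((κ → ℝ) × (Sym2 κ → ℝ)) => h (mk t.1 t.2.1 t.2.2) := hh.comp hm
  rw [← mp_mk.lintegral_comp hh]
  rw [Measure.volume_eq_prod, lintegral_prod _ hH.aemeasurable]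
  refine lintegral_congr fun τ => ?_
  have hH2 : Measurable fun t : ((κ → ℝ) × (Sym2 κ → ℝ)) => h (mk τ t.1 t.2) :=
    hH.comp (measurable_const.prodMk measurable_id)
  rw [Measure.volume_eq_prod, lintegral_prod _ hH2.aemeasurable]

end blocks

end Pool.Agent.V5helper59.Wish
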