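import Pool.Agent.V5helper59.Wish.C1

open MeasureTheory Set Matrix Filter
open scoped BigOperators Topology ENNReal

set_option linter.unusedSectionVars false

namespace Pool.Agent.V5helper59.Wish

variable {κ : Type*} [Fintype κ] [DecidableEq κ]

/-- the `1 × 1` block -/
def cst (τ : ℝ) : Matrix Unit Unit ℝ := Matrix.of fun _ _ => τ
def rowv (v : κ → ℝ) : Matrix Unit κ ℝ := Matrix.of fun _ j => v j

lemma rowv_H (v : κ → ℝ) : (rowv v)ᴴ = Matrix.of fun i _ => v i := by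
  ext i j; simp [rowv]

lemma blk_eq (τ : ℝ) (v : κ → ℝ) (Z : Matrix κ κ ℝ) :
    blk τ v Z = fromBlocks (cst τ) (rowv v) (rowv v)ᴴ Z := by
  rw [rowv_H]; rfl

lemma cst_det (τ : ℝ) : (cst τ).det = τ := by simp [cst]

lemma cst_inv {τ : ℝ} (hτ : τ ≠ 0) : (cst τ)⁻¹ = cst τ⁻¹ := by
  refine inv_eq_right_inv ?_
  ext i j
  simp [cst, Matrix.mul_apply, hτ]

lemma cst_posDef {τ : ℝ} (hτ : 0 < τ) : (cst τ).PosDef := by
  refine PosDef.of_dotProduct_mulVec_pos ?_ fun x hx => ?_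
  · ext i j; simp [cst]
  · have hx0 : x () ≠ 0 := fun h => hx (by funext u; cases u; simpa using h)
    simp only [dotProduct, mulVec, cst, Finset.univ_unique, Finset.sum_singleton, star_trivial,
      Matrix.of_apply]
    have : 0 < x default * x default := mul_self_pos.2 hx0
    nlinarith

lemma schur1 (τ : ℝ) (v : κ → ℝ) : (rowv v)ᴴ * cst τ * rowv v = τ • vecMulVec v v := by
  ext i j
  simp [rowv, cst, Matrix.mul_apply, vecMulVec_apply]
  ring

lemma schur2 (v : κ → ℝ) (Z : Matrix κ κ ℝ) : rowv v * Z * (rowv v)ᴴ = cst (v ⬝ᵥ (Z *ᵥ v)) := by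
  ext i j
  simp only [rowv, cst, Matrix.mul_apply, dotProduct, mulVec, Matrix.of_apply, conjTranspose_apply,
    star_trivial, Finset.sum_mul, Finset.mul_sum]
  rw [Finset.sum_comm]
  exact Finset.sum_congr rfl fun a _ => Finset.sum_congr rfl fun b _ => by ring

lemma det_blk1 {τ : ℝ} (hτ : τ ≠ 0) (v : κ → ℝ) (Z : Matrix κ κ ℝ) :
    (blk τ v Z).det = τ * (Z - τ⁻¹ • vecMulVec v v).det := by
  have hu : IsUnit (cst τ).det := by rw [cst_det]; exact isUnit_iff_ne_zero.2 hτ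
  letI := invertibleOfIsUnitDet (cst τ) hu
  rw [blk_eq, det_fromBlocks₁₁, invOf_eq_nonsing_inv, cst_inv hτ, schur1, cst_det]

lemma det_blk2 {Z : Matrix κ κ ℝ} (hZ : IsUnit Z.det) (τ : ℝ) (v : κ → ℝ) :
    (blk τ v Z).det = Z.det * (τ - v ⬝ᵥ (Z⁻¹ *ᵥ v)) := by
  letI := invertibleOfIsUnitDet Z hZ
  rw [blk_eq, det_fromBlocks₂₂, invOf_eq_nonsing_inv, schur2]
  congr 1
  simp [cst]

lemma trace_blk (τ : ℝ) (v : κ → ℝ) (Z : Matrix κ κ ℝ) : (blk τ v Z).trace = τ + Z.trace := by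
  simp [blk, Matrix.trace]

section
open scoped MatrixOrder

lemma posDef_blk1 (τ : ℝ) (v : κ → ℝ) (Z : Matrix κ κ ℝ) :
    (blk τ v Z).PosDef ↔ 0 < τ ∧ (Z - τ⁻¹ • vecMulVec v v).PosDef := by
  have key : ∀ hτ : 0 < τ, ((blk τ v Z).PosSemidef ↔ (Z - τ⁻¹ • vecMulVec v v).PosSemidef) := by
    intro hτ
    have hu : IsUnit (cst τ).det := by rw [cst_det]; exact isUnit_iff_ne_zero.2 hτ.ne'
    letI := invertibleOfIsUnitDet (cst τ) hu
    rw [blk_eq, PosDef.fromBlocks₁₁ (rowv v) Z (cst_posDef hτ), cst_inv hτ.ne', schur1]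
  constructor
  · intro h
    have hτ : 0 < τ := by
      have := h.diag_pos (i := Sum.inl ())
      simpa [blk] using this
    refine ⟨hτ, ?_⟩
    have h1 := (key hτ).1 h.posSemidef
    rw [h1.posDef_iff_det_ne_zero]
    intro h0
    have := h.det_pos
    rw [det_blk1 hτ.ne', h0, mul_zero] at this
    exact lt_irrefl _ this
  · rintro ⟨hτ, h⟩
    have h1 := (key hτ).2 h.posSemidef
    rw [h1.posDef_iff_det_ne_zero, det_blk1 hτ.ne']
    exact mul_ne_zero hτ.ne' h.det_pos.ne'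

lemma posDef_blk2 (τ : ℝ) (v : κ → ℝ) (Z : Matrix κ κ ℝ) :
    (blk τ v Z).PosDef ↔ Z.PosDef ∧ 0 < τ - v ⬝ᵥ (Z⁻¹ *ᵥ v) := by
  have key : ∀ hZ : Z.PosDef, ((blk τ v Z).PosSemidef ↔ 0 ≤ τ - v ⬝ᵥ (Z⁻¹ *ᵥ v)) := by
    intro hZ
    letI := invertibleOfIsUnitDet Z (isUnit_iff_ne_zero.2 hZ.det_pos.ne')
    rw [blk_eq, PosDef.fromBlocks₂₂ (cst τ) (rowv v) hZ, schur2]
    have e : cst τ - cst (v ⬝ᵥ (Z⁻¹ *ᵥ v)) = cst (τ - v ⬝ᵥ (Z⁻¹ *ᵥ v)) := by
      ext i j; simp [cst]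
    rw [e]
    constructor
    · intro h
      have := h.diag_nonneg (i := ())
      simpa [cst] using this
    · intro h
      refine PosSemidef.of_dotProduct_mulVec_nonneg ?_ fun x => ?_
      · ext i j; simp [cst]
      · simp only [dotProduct, mulVec, cst, Finset.univ_unique, Finset.sum_singleton, star_trivial,
          Matrix.of_apply]
        have : 0 ≤ x default * x default := mul_self_nonneg _
        have h' : 0 ≤ τ - v ⬝ᵥ (Z⁻¹ *ᵥ v) := h
        simp only [dotProduct, mulVec] at h'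
        nlinarith [mul_nonneg h' this]
  constructor
  · intro h
    have hZ : Z.PosDef := by
      have := h.submatrix (e := (Sum.inr : κ → Unit ⊕ κ)) Sum.inr_injective
      have e : (blk τ v Z).submatrix Sum.inr Sum.inr = Z := by ext i j; simp [blk]
      rwa [e] at this
    refine ⟨hZ, ?_⟩
    have h2 := h.det_pos
    rw [det_blk2 (isUnit_iff_ne_zero.2 hZ.det_pos.ne')] at h2
    exact (mul_pos_iff_of_pos_left hZ.det_pos).1 h2
  · rintro ⟨hZ, h⟩
    have h1 := (key hZ).2 h.le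
    rw [h1.posDef_iff_det_ne_zero, det_blk2 (isUnit_iff_ne_zero.2 hZ.det_pos.ne')]
    exact mul_ne_zero hZ.det_pos.ne' h.ne'

end

end Pool.Agent.V5helper59.Wish
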