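import Pool.Agent.V5helper59.Wish.C2
import Pool.Agent.V5helper59.Wish.B1

open MeasureTheory Set Matrix Filter
open scoped BigOperators Topology ENNReal

set_option linter.unusedSectionVars false

namespace Pool.Agent.V5helper59.Wish

section general
variable {ι : Type*} [Fintype ι] [DecidableEq ι]

lemma isClosed_psd : IsClosed {x : Sym2 ι → ℝ | (toM x).PosSemidef} := by
  have e : {x : Sym2 ι → ℝ | (toM x).PosSemidef} = ⋂ v : ι → ℝ, {x | 0 ≤ v ⬝ᵥ (toM x *ᵥ v)} := by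
    ext x
    simp only [mem_ofPred_eq, mem_iInter]
    constructor
    · intro h v
      have := h.dotProduct_mulVec_nonneg v
      simpa using this
    · intro h
      refine PosSemidef.of_dotProduct_mulVec_nonneg (toM_herm x) fun v => ?_
      simpa using h v
  rw [e]
  refine isClosed_iInter fun v => ?_
  refine isClosed_le continuous_const ?_
  have : Continuous fun x : Sym2 ι → ℝ => toM x *ᵥ v := continuous_toM.matrix_mulVec continuous_const
  exact Continuous.dotProduct continuous_const this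

lemma continuous_det_toM : Continuous fun x : Sym2 ι → ℝ => (toM x).det :=
  continuous_toM.matrix_det

lemma continuous_trace_toM : Continuous fun x : Sym2 ι → ℝ => (toM x).trace :=
  continuous_toM.matrix_trace

lemma measurableSet_pd : MeasurableSet {x : Sym2 ι → ℝ | (toM x).PosDef} := by
  have e : {x : Sym2 ι → ℝ | (toM x).PosDef}
      = {x | (toM x).PosSemidef} ∩ {x | (toM x).det ≠ 0} := by
    ext x
    simp only [mem_ofPred_eq, mem_inter_iff]
    constructor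
    · intro h; exact ⟨h.posSemidef, h.det_pos.ne'⟩
    · rintro ⟨h1, h2⟩; exact (h1.posDef_iff_det_ne_zero).2 h2
  rw [e]
  refine isClosed_psd.measurableSet.inter ?_
  exact (isOpen_ne_fun continuous_det_toM continuous_const).measurableSet

/-- the Wishart weight `|X|^{(n-p-1)/2} e^{-tr X/2}` on the cone -/
noncomputable def wt (n : ℝ) (x : Sym2 ι → ℝ) : ℝ≥0∞ :=
  {x : Sym2 ι → ℝ | (toM x).PosDef}.indicator (fun x => ENNReal.ofReal
    ((toM x).det ^ ((n - Fintype.card ι - 1) / 2) * Real.exp (-(toM x).trace / 2))) x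

lemma wt_of_pd {n : ℝ} {x : Sym2 ι → ℝ} (h : (toM x).PosDef) : wt n x = ENNReal.ofReal
    ((toM x).det ^ ((n - Fintype.card ι - 1) / 2) * Real.exp (-(toM x).trace / 2)) :=
  indicator_of_mem (s := {x : Sym2 ι → ℝ | (toM x).PosDef}) h _

lemma wt_of_not {n : ℝ} {x : Sym2 ι → ℝ} (h : ¬ (toM x).PosDef) : wt n x = 0 :=
  indicator_of_notMem (s := {x : Sym2 ι → ℝ | (toM x).PosDef}) h _

lemma measurable_wt (n : ℝ) : Measurable (wt (ι := ι) n) := by
  unfold wt
  refine Measurable.indicator ?_ measurableSet_pd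
  refine ENNReal.measurable_ofReal.comp ?_
  have h1 : Measurable fun x : Sym2 ι → ℝ => (toM x).det := continuous_det_toM.measurable
  have h2 : Measurable fun x : Sym2 ι → ℝ => (toM x).trace := continuous_trace_toM.measurable
  exact (h1.pow_const _).mul ((h2.neg.div_const 2).exp)

end general

variable {κ : Type*} [Fintype κ] [DecidableEq κ]

/-- coordinates of `v vᵀ` -/
def vvT (v : κ → ℝ) : Sym2 κ → ℝ := Sym2.lift ⟨fun i j => v i * v j, fun _ _ => mul_comm _ _⟩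

lemma toM_add_vvT (z : Sym2 κ → ℝ) (τ : ℝ) (v : κ → ℝ) :
    toM (z + τ • vvT v) = toM z + τ • vecMulVec v v := by
  ext i j
  simp [vvT, vecMulVec_apply]

lemma wt_D1 (n : ℝ) {τ : ℝ} (hτ : 0 < τ) (v : κ → ℝ) (z : Sym2 κ → ℝ) :
    wt n (mk τ v (z + τ⁻¹ • vvT v))
      = ENNReal.ofReal (τ ^ ((n - Fintype.card κ - 2) / 2) * Real.exp (-τ / 2 - (v ⬝ᵥ v) / (2 * τ)))
        * wt (n - 1) z := by
  have e0 : toM (z + τ⁻¹ • vvT v) - τ⁻¹ • vecMulVec v v = toM z := by
    rw [toM_add_vvT, add_sub_cancel_right]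
  have hiff : (toM (mk τ v (z + τ⁻¹ • vvT v))).PosDef ↔ (toM z).PosDef := by
    rw [toM_mk, posDef_blk1, e0]
    exact ⟨fun h => h.2, fun h => ⟨hτ, h⟩⟩
  by_cases h : (toM z).PosDef
  · rw [wt_of_pd (hiff.2 h), wt_of_pd h, toM_mk, det_blk1 hτ.ne', e0, trace_blk, toM_add_vvT,
      trace_add, trace_smul, trace_vecMulVec]
    have hd := h.det_pos
    have hc : (Fintype.card (Unit ⊕ κ) : ℝ) = Fintype.card κ + 1 := by
      simp only [Fintype.card_sum, Fintype.card_unit]; push_cast; ring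
    rw [← ENNReal.ofReal_mul (by positivity), Real.mul_rpow hτ.le hd.le, hc]
    congr 1
    have e1 : Real.exp (-(τ + ((toM z).trace + τ⁻¹ • (v ⬝ᵥ v))) / 2)
        = Real.exp (-τ / 2 - (v ⬝ᵥ v) / (2 * τ)) * Real.exp (-(toM z).trace / 2) := by
      rw [← Real.exp_add]
      congr 1
      simp only [smul_eq_mul]
      field_simp
      ring
    rw [e1]
    have e2 : (n - ((Fintype.card κ : ℝ) + 1) - 1) / 2 = (n - Fintype.card κ - 2) / 2 := by ring
    have e3 : (n - 1 - (Fintype.card κ : ℝ) - 1) / 2 = (n - Fintype.card κ - 2) / 2 := by ring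
    rw [e2, e3]
    ring
  · rw [wt_of_not (fun h' => h (hiff.1 h')), wt_of_not h, mul_zero]

lemma wt_mk_of_nonpos (n : ℝ) {τ : ℝ} (hτ : ¬ 0 < τ) (v : κ → ℝ) (z : Sym2 κ → ℝ) :
    wt n (mk τ v z) = 0 := by
  refine wt_of_not fun h => hτ ?_
  rw [toM_mk, posDef_blk1] at h
  exact h.1

lemma measurable_mk : Measurable fun t : ℝ × ((κ → ℝ) × (Sym2 κ → ℝ)) => mk t.1 t.2.1 t.2.2 :=
  mp_mk.measurable

lemma measurable_mk_z (τ : ℝ) (v : κ → ℝ) : Measurable fun z : Sym2 κ → ℝ => mk τ v z :=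
  measurable_mk.comp (measurable_const.prodMk (measurable_const.prodMk measurable_id))

theorem lint_D1 (n : ℝ) {h : (Sym2 (Unit ⊕ κ) → ℝ) → ℝ≥0∞} (hh : Measurable h) :
    ∫⁻ x, wt n x * h x = ∫⁻ τ in Ioi (0:ℝ), ∫⁻ v : κ → ℝ,
      ENNReal.ofReal (τ ^ ((n - Fintype.card κ - 2) / 2) * Real.exp (-τ / 2 - (v ⬝ᵥ v) / (2 * τ)))
        * ∫⁻ z, wt (n - 1) z * h (mk τ v (z + τ⁻¹ • vvT v)) := by
  rw [lintegral_mk (h := fun x => wt n x * h x) ((measurable_wt n).mul hh),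
    ← lintegral_indicator measurableSet_Ioi]
  refine lintegral_congr fun τ => ?_
  by_cases hτ : 0 < τ
  · rw [indicator_of_mem (show τ ∈ Ioi (0:ℝ) from hτ)]
    refine lintegral_congr fun v => ?_
    rw [← lintegral_add_right_eq_self _ (τ⁻¹ • vvT v), ← lintegral_const_mul]
    · refine lintegral_congr fun z => ?_
      rw [wt_D1 n hτ, mul_assoc]
    · refine (measurable_wt _).mul (hh.comp ((measurable_mk_z τ v).comp ?_))
      exact measurable_id.add_const _
  · rw [indicator_of_notMem (show τ ∉ Ioi (0:ℝ) from hτ)]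
    simp [wt_mk_of_nonpos n hτ]

/-- `z` outermost. -/
theorem lint_D2 (n : ℝ) {h : (Sym2 (Unit ⊕ κ) → ℝ) → ℝ≥0∞} (hh : Measurable h) :
    ∫⁻ x, wt n x * h x = ∫⁻ z : Sym2 κ → ℝ, ∫⁻ v : κ → ℝ, ∫⁻ τ, wt n (mk τ v z) * h (mk τ v z) := by
  have hH : Measurable fun t : ℝ × ((κ → ℝ) × (Sym2 κ → ℝ)) =>
      wt n (mk t.1 t.2.1 t.2.2) * h (mk t.1 t.2.1 t.2.2) := ((measurable_wt n).mul hh).comp measurable_mk
  rw [← mp_mk.lintegral_comp (f := fun x => wt n x * h x) ((measurable_wt n).mul hh)]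
  rw [Measure.volume_eq_prod, lintegral_prod_symm _ hH.aemeasurable]
  have hm2 : Measurable fun y : (κ → ℝ) × (Sym2 κ → ℝ) => ∫⁻ τ : ℝ, wt n (mk τ y.1 y.2) * h (mk τ y.1 y.2) :=
    Measurable.lintegral_prod_left' hH
  rw [Measure.volume_eq_prod, lintegral_prod_symm _ hm2.aemeasurable]

lemma lint_lin {K : Matrix κ κ ℝ} (hK : K.det ≠ 0) {G : (κ → ℝ) → ℝ≥0∞} (hG : Measurable G) :
    ∫⁻ v, G v = ENNReal.ofReal |K.det| * ∫⁻ s, G (K *ᵥ s) := by
  have h1 := Real.map_matrix_volume_pi_eq_smul_volume_pi hK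
  have hm : Measurable (toLin' K) := (LinearMap.continuous_on_pi _).measurable
  have h2 : ∫⁻ s, G (K *ᵥ s) = ENNReal.ofReal |(K.det)⁻¹| * ∫⁻ v, G v := by
    have h3 := lintegral_map (μ := volume) hG hm
    rw [h1, lintegral_smul_measure] at h3
    simp only [toLin'_apply, smul_eq_mul] at h3
    exact h3.symm
  rw [h2, ← mul_assoc, ← ENNReal.ofReal_mul (abs_nonneg _), ← abs_mul, mul_inv_cancel₀ hK]
  simp

lemma quad_inv {K Z : Matrix κ κ ℝ} (hK : K.det ≠ 0) (hZ : Z = K * Kᵀ) (s : κ → ℝ) :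
    (K *ᵥ s) ⬝ᵥ (Z⁻¹ *ᵥ (K *ᵥ s)) = s ⬝ᵥ s := by
  have hu : IsUnit K.det := isUnit_iff_ne_zero.2 hK
  have hut : IsUnit Kᵀ.det := by rw [det_transpose]; exact hu
  have e : Kᵀ * Z⁻¹ * K = 1 := by
    rw [hZ, Matrix.mul_inv_rev, ← Matrix.mul_assoc, mul_nonsing_inv _ hut, Matrix.one_mul,
      nonsing_inv_mul _ hu]
  have : (K *ᵥ s) ⬝ᵥ (Z⁻¹ *ᵥ (K *ᵥ s)) = s ⬝ᵥ ((Kᵀ * Z⁻¹ * K) *ᵥ s) := by
    rw [← mulVec_mulVec, ← mulVec_mulVec, dotProduct_mulVec s, vecMul_transpose]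
  rw [this, e, one_mulVec]

lemma image_sq (a : ℝ) : (fun y : ℝ => a + y ^ 2) '' Ioi 0 = Ioi a := by
  ext t
  simp only [mem_image, mem_Ioi]
  constructor
  · rintro ⟨y, hy, rfl⟩
    have : 0 < y ^ 2 := by positivity
    linarith
  · intro ht
    refine ⟨Real.sqrt (t - a), Real.sqrt_pos.2 (by linarith), ?_⟩
    rw [Real.sq_sqrt (by linarith)]; ring

lemma wt_D2 (n : ℝ) {z : Sym2 κ → ℝ} (hz : (toM z).PosDef) {K : Matrix κ κ ℝ} (hK : K.det ≠ 0)
    (hZ : toM z = K * Kᵀ) (s : κ → ℝ) {y : ℝ} (hy : 0 < y) :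
    ENNReal.ofReal |K.det| * (ENNReal.ofReal |2 * y| * wt n (mk (sq s y) (K *ᵥ s) z))
      = ENNReal.ofReal (2 * (toM z).det ^ ((n - Fintype.card κ - 1) / 2) *
          Real.exp (-(toM z).trace / 2)) * Wt (n - Fintype.card κ - 1) (s, y) := by
  have hq := quad_inv hK hZ s
  have hsq : sq s y - (K *ᵥ s) ⬝ᵥ ((toM z)⁻¹ *ᵥ (K *ᵥ s)) = y ^ 2 := by
    rw [hq]; unfold sq; ring
  have hpd : (toM (mk (sq s y) (K *ᵥ s) z)).PosDef := by
    rw [toM_mk, posDef_blk2]
    refine ⟨hz, ?_⟩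
    rw [hsq]; positivity
  have hd := hz.det_pos
  have hc : (Fintype.card (Unit ⊕ κ) : ℝ) = Fintype.card κ + 1 := by
    simp only [Fintype.card_sum, Fintype.card_unit]; push_cast; ring
  rw [wt_of_pd hpd, toM_mk, det_blk2 (isUnit_iff_ne_zero.2 hd.ne'), hsq, trace_blk, hc]
  unfold Wt
  simp only
  rw [← ENNReal.ofReal_mul (abs_nonneg _), ← ENNReal.ofReal_mul (abs_nonneg _),
    ← ENNReal.ofReal_mul (by positivity)]
  congr 1
  have hdet : (toM z).det = |K.det| ^ 2 := by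
    rw [hZ, det_mul, det_transpose, sq_abs]; ring
  have hKp : 0 < |K.det| := abs_pos.2 hK
  rw [abs_of_pos (show 0 < 2 * y by linarith), Real.mul_rpow hd.le (by positivity)]
  have e1 : (toM z).det ^ ((n - (Fintype.card κ : ℝ) - 1) / 2)
      = |K.det| * (toM z).det ^ ((n - ((Fintype.card κ : ℝ) + 1) - 1) / 2) := by
    have h1 : |K.det| = (toM z).det ^ ((1:ℝ) / 2) := by
      rw [hdet, ← Real.sqrt_eq_rpow, Real.sqrt_sq hKp.le]
    conv_rhs => rw [h1]
    rw [← Real.rpow_add hd]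
    congr 1; ring
  have e2 : y ^ (n - (Fintype.card κ : ℝ) - 1) = y * (y ^ 2) ^ ((n - ((Fintype.card κ : ℝ) + 1) - 1) / 2) := by
    rw [← Real.rpow_natCast y 2, ← Real.rpow_mul hy.le]
    conv_rhs => lhs; rw [← Real.rpow_one y]
    rw [← Real.rpow_add hy]
    congr 1; push_cast; ring
  have e3 : Real.exp (-(sq s y + (toM z).trace) / 2)
      = Real.exp (-(1/2) * sq s y) * Real.exp (-(toM z).trace / 2) := by
    rw [← Real.exp_add]; congr 1; ring
  rw [e1, e2, e3]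
  ring

theorem D2_inner (n : ℝ) {z : Sym2 κ → ℝ} (hz : (toM z).PosDef) {K : Matrix κ κ ℝ} (hK : K.det ≠ 0)
    (hZ : toM z = K * Kᵀ) {h : (Sym2 (Unit ⊕ κ) → ℝ) → ℝ≥0∞} (hh : Measurable h) :
    ∫⁻ v : κ → ℝ, ∫⁻ τ, wt n (mk τ v z) * h (mk τ v z)
      = ENNReal.ofReal (2 * (toM z).det ^ ((n - Fintype.card κ - 1) / 2) *
          Real.exp (-(toM z).trace / 2)) *
        ∫⁻ p, Wt (n - Fintype.card κ - 1) p * h (mk (sq p.1 p.2) (K *ᵥ p.1) z) ∂(hm κ) := by
  have hmk2 : Measurable fun t : (κ → ℝ) × ℝ => mk t.2 t.1 z :=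
    measurable_mk.comp (measurable_snd.prodMk (measurable_fst.prodMk measurable_const))
  have hH : Measurable fun t : (κ → ℝ) × ℝ => wt n (mk t.2 t.1 z) * h (mk t.2 t.1 z) :=
    ((measurable_wt n).mul hh).comp hmk2
  have hG : Measurable fun v : κ → ℝ => ∫⁻ τ, wt n (mk τ v z) * h (mk τ v z) := hH.lintegral_prod_right'
  rw [lint_lin hK hG]
  have hKm : Measurable fun s : κ → ℝ => K *ᵥ s := (LinearMap.continuous_on_pi (toLin' K)).measurable
  have hmk3 : Measurable fun p : (κ → ℝ) × ℝ => mk (sq p.1 p.2) (K *ᵥ p.1) z :=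
    hmk2.comp ((hKm.comp measurable_fst).prodMk measurable_sq)
  have hF : Measurable fun p : (κ → ℝ) × ℝ => Wt (n - Fintype.card κ - 1) p *
      h (mk (sq p.1 p.2) (K *ᵥ p.1) z) := (measurable_Wt _).mul (hh.comp hmk3)
  unfold hm
  rw [lintegral_prod _ hF.aemeasurable, ← lintegral_const_mul _ hF.lintegral_prod_right',
    ← lintegral_const_mul]
  swap
  · exact hG.comp hKm
  refine lintegral_congr fun s => ?_
  have hS : ∫⁻ τ, wt n (mk τ (K *ᵥ s) z) * h (mk τ (K *ᵥ s) z)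
      = ∫⁻ τ in Ioi (s ⬝ᵥ s), wt n (mk τ (K *ᵥ s) z) * h (mk τ (K *ᵥ s) z) := by
    rw [← lintegral_indicator measurableSet_Ioi]
    refine lintegral_congr fun τ => ?_
    by_cases hτ : s ⬝ᵥ s < τ
    · rw [indicator_of_mem (show τ ∈ Ioi (s ⬝ᵥ s) from hτ)]
    · rw [indicator_of_notMem (show τ ∉ Ioi (s ⬝ᵥ s) from hτ)]
      have : ¬ (toM (mk τ (K *ᵥ s) z)).PosDef := by
        rw [toM_mk, posDef_blk2, quad_inv hK hZ]
        intro h'
        exact hτ (by linarith [h'.2])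
      rw [wt_of_not this, zero_mul]
  rw [hS, ← image_sq, lintegral_image_eq_lintegral_abs_deriv_mul (f' := fun y => 2 * y) measurableSet_Ioi]
  · have hmk4 : Measurable fun y : ℝ => mk (s ⬝ᵥ s + y ^ 2) (K *ᵥ s) z :=
      hmk2.comp (measurable_const.prodMk (by fun_prop))
    rw [← lintegral_const_mul, ← lintegral_const_mul]
    · refine setLIntegral_congr_fun measurableSet_Ioi fun y hy => ?_
      have := wt_D2 n hz hK hZ s (y := y) hy
      simp only
      rw [← mul_assoc (ENNReal.ofReal |2 * y|), ← mul_assoc (ENNReal.ofReal |K.det|),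
        ← mul_assoc (ENNReal.ofReal _) (Wt _ _), ← this]
      rfl
    · exact hF.comp (measurable_const.prodMk measurable_id)
    · refine Measurable.mul (by fun_prop) (((measurable_wt n).mul hh).comp hmk4)
  · intro y _
    have := ((hasDerivAt_id y).pow 2).const_add (s ⬝ᵥ s)
    simpa using this.hasDerivWithinAt
  · intro a ha b hb hab
    have ha : 0 < a := ha
    have hb : 0 < b := hb
    simp only [add_right_inj] at hab
    exact (pow_left_inj₀ ha.le hb.le (by norm_num)).1 hab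

end Pool.Agent.V5helper59.Wish
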