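import Pool.Agent.V5helper59.Wish.C3

open MeasureTheory Set Matrix Filter
open scoped BigOperators Topology ENNReal

set_option linter.unusedSectionVars false

namespace Pool.Agent.V5helper59.Wish

section relabel
variable {ι ι' : Type*} [Fintype ι] [DecidableEq ι] [Fintype ι'] [DecidableEq ι']

/-- relabelling of the coordinates -/
def relab (e : ι ≃ ι') (x : Sym2 ι → ℝ) : Sym2 ι' → ℝ := fun p => x (Sym2.map e.symm p)

lemma toM_relab (e : ι ≃ ι') (x : Sym2 ι → ℝ) : toM (relab e x) = (toM x).submatrix e.symm e.symm := by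
  ext i j; simp [relab]

/-- relabelling of unordered pairs -/
def s2e (e : ι ≃ ι') : Sym2 ι ≃ Sym2 ι' where
  toFun := Sym2.map e
  invFun := Sym2.map e.symm
  left_inv p := by induction p with | _ i j => simp
  right_inv p := by induction p with | _ i j => simp

lemma mp_relab (e : ι ≃ ι') : MeasurePreserving (relab e) volume volume := by
  have h := volume_measurePreserving_piCongrLeft (fun _ : Sym2 ι' => ℝ) (s2e e)
  have e1 : relab e = (MeasurableEquiv.piCongrLeft (fun _ : Sym2 ι' => ℝ) (s2e e)) := by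
    funext x
    funext p
    obtain ⟨a, rfl⟩ := (s2e e).surjective p
    rw [MeasurableEquiv.coe_piCongrLeft, Equiv.piCongrLeft_apply_apply]
    induction a with
    | _ i j => simp [relab, s2e]
  rw [e1]
  exact h

lemma wt_relab (e : ι ≃ ι') (n : ℝ) (x : Sym2 ι → ℝ) : wt n (relab e x) = wt n x := by
  have hiff : (toM (relab e x)).PosDef ↔ (toM x).PosDef := by
    rw [toM_relab]
    constructor
    · intro h
      have := h.submatrix (e := e) e.injective
      simpa [submatrix_submatrix] using this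
    · intro h
      exact h.submatrix e.symm.injective
  by_cases h : (toM x).PosDef
  · rw [wt_of_pd h, wt_of_pd (hiff.2 h), toM_relab, det_submatrix_equiv_self,
      ← Fintype.card_congr e]
    congr 4
    unfold Matrix.trace
    simp only [diag_apply, submatrix_apply]
    rw [Equiv.sum_comp e.symm (fun i => toM x i i)]
  · rw [wt_of_not h, wt_of_not (fun h' => h (hiff.1 h'))]

theorem lint_relab (e : ι ≃ ι') (n : ℝ) {h : (Sym2 ι' → ℝ) → ℝ≥0∞} (hh : Measurable h) :
    ∫⁻ x, wt n x * h x = ∫⁻ x, wt n x * h (relab e x) := by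
  rw [← (mp_relab e).lintegral_comp (f := fun x => wt n x * h x) ((measurable_wt n).mul hh)]
  simp only [wt_relab]

end relabel

variable {κ : Type*} [Fintype κ] [DecidableEq κ]

/-- Gaussian weight -/
noncomputable def gw (g : κ → ℝ) : ℝ≥0∞ := ENNReal.ofReal (Real.exp (-(g ⬝ᵥ g) / 2))

/-- chi square weight -/
noncomputable def cw (n : ℝ) (τ : ℝ) : ℝ≥0∞ := ENNReal.ofReal (τ ^ ((n - 2) / 2) * Real.exp (-τ / 2))

lemma measurable_gw : Measurable (gw (κ := κ)) := by
  unfold gw
  have : Measurable fun g : κ → ℝ => g ⬝ᵥ g := by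
    unfold dotProduct; fun_prop
  exact ENNReal.measurable_ofReal.comp ((this.neg.div_const 2).exp)

lemma measurable_cw (n : ℝ) : Measurable (cw n) := by
  unfold cw; fun_prop

lemma vvT_smul (c : ℝ) (v : κ → ℝ) : vvT (c • v) = (c ^ 2) • vvT v := by
  funext p
  induction p with
  | _ i j => simp [vvT]; ring

theorem lint_D1' (n : ℝ) {h : (Sym2 (Unit ⊕ κ) → ℝ) → ℝ≥0∞} (hh : Measurable h) :
    ∫⁻ x, wt n x * h x = ∫⁻ τ in Ioi (0:ℝ), cw n τ * ∫⁻ g : κ → ℝ, gw g *
      ∫⁻ z, wt (n - 1) z * h (mk τ (Real.sqrt τ • g) (z + vvT g)) := by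
  rw [lint_D1 n hh]
  refine setLIntegral_congr_fun measurableSet_Ioi fun τ hτ => ?_
  have hτ : 0 < τ := hτ
  have hs : 0 < Real.sqrt τ := Real.sqrt_pos.2 hτ
  have hss : Real.sqrt τ ^ 2 = τ := Real.sq_sqrt hτ.le
  set K : Matrix κ κ ℝ := Real.sqrt τ • 1 with hK
  have hKd : K.det = Real.sqrt τ ^ Fintype.card κ := by
    rw [hK, det_smul, det_one, mul_one]
  have hKd0 : K.det ≠ 0 := by rw [hKd]; positivity
  have hvvT : Measurable fun v : κ → ℝ => vvT v := by
    refine measurable_pi_lambda _ fun p => ?_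
    induction p with
    | _ i j =>
      simp only [vvT, Sym2.lift_mk]
      fun_prop
  have hmk0 : Measurable fun t : (κ → ℝ) × (Sym2 κ → ℝ) => t.2 + τ⁻¹ • vvT t.1 :=
    measurable_snd.add ((hvvT.comp measurable_fst).const_smul τ⁻¹)
  have hmk : Measurable fun t : (κ → ℝ) × (Sym2 κ → ℝ) => mk τ t.1 (t.2 + τ⁻¹ • vvT t.1) :=
    (measurable_mk (κ := κ)).comp ((measurable_const (a := τ)).prodMk (measurable_fst.prodMk hmk0))
  have hm1 : Measurable fun t : (κ → ℝ) × (Sym2 κ → ℝ) =>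
      wt (n - 1) t.2 * h (mk τ t.1 (t.2 + τ⁻¹ • vvT t.1)) :=
    ((measurable_wt _).comp measurable_snd).mul (hh.comp hmk)
  have hvv : Measurable fun v : κ → ℝ => v ⬝ᵥ v := by unfold dotProduct; fun_prop
  have hm2 : Measurable fun v : κ → ℝ => ENNReal.ofReal (τ ^ ((n - Fintype.card κ - 2) / 2) *
      Real.exp (-τ / 2 - (v ⬝ᵥ v) / (2 * τ))) := by
    refine ENNReal.measurable_ofReal.comp ?_
    exact Measurable.const_mul (((hvv.div_const _).const_sub _).exp) _
  have hm3 : Measurable fun v : κ → ℝ => ∫⁻ z : Sym2 κ → ℝ, wt (n - 1) z * h (mk τ v (z + τ⁻¹ • vvT v)) :=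
    hm1.lintegral_prod_right' (ν := (volume : Measure (Sym2 κ → ℝ)))
  have hm4 : Measurable fun v : κ → ℝ => ENNReal.ofReal (τ ^ ((n - Fintype.card κ - 2) / 2) *
      Real.exp (-τ / 2 - (v ⬝ᵥ v) / (2 * τ))) *
        ∫⁻ z : Sym2 κ → ℝ, wt (n - 1) z * h (mk τ v (z + τ⁻¹ • vvT v)) := hm2.mul hm3
  rw [lint_lin hKd0 hm4, ← lintegral_const_mul, ← lintegral_const_mul]
  · refine lintegral_congr fun g => ?_
    have hKg : K *ᵥ g = Real.sqrt τ • g := by rw [hK, smul_mulVec, one_mulVec]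
    have e1 : τ⁻¹ • vvT (Real.sqrt τ • g) = vvT g := by
      rw [vvT_smul, hss, smul_smul, inv_mul_cancel₀ hτ.ne', one_smul]
    have e2 : (Real.sqrt τ • g) ⬝ᵥ (Real.sqrt τ • g) = τ * (g ⬝ᵥ g) := by
      rw [smul_dotProduct, dotProduct_smul, smul_eq_mul, smul_eq_mul, ← mul_assoc, ← _root_.sq, hss]
    rw [hKg, e1, e2, ← mul_assoc, ← mul_assoc]
    congr 1
    unfold cw gw
    rw [← ENNReal.ofReal_mul (abs_nonneg _), ← ENNReal.ofReal_mul (by positivity)]
    congr 1
    rw [hKd, abs_of_pos (by positivity)]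
    have e3 : Real.sqrt τ ^ Fintype.card κ = τ ^ ((Fintype.card κ : ℝ) / 2) := by
      rw [Real.sqrt_eq_rpow, ← Real.rpow_natCast, ← Real.rpow_mul hτ.le]
      congr 1; ring
    have e4 : τ ^ ((n - 2) / 2) = τ ^ ((Fintype.card κ : ℝ) / 2) * τ ^ ((n - Fintype.card κ - 2) / 2) := by
      rw [← Real.rpow_add hτ]; congr 1; ring
    have e5 : Real.exp (-τ / 2 - τ * (g ⬝ᵥ g) / (2 * τ)) = Real.exp (-τ / 2) * Real.exp (-(g ⬝ᵥ g) / 2) := by
      rw [← Real.exp_add]; congr 1; field_simp; ring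
    rw [e3, e4, e5]
    ring
  · have hsm : Measurable fun g : κ → ℝ => Real.sqrt τ • g := measurable_const_smul (Real.sqrt τ)
    have h5 : Measurable fun g : κ → ℝ => ∫⁻ z, wt (n - 1) z * h (mk τ (Real.sqrt τ • g) (z + vvT g)) := by
      have := hm3.comp hsm
      have e : (fun g : κ → ℝ => ∫⁻ z, wt (n - 1) z * h (mk τ (Real.sqrt τ • g) (z + vvT g)))
        = (fun v : κ → ℝ => ∫⁻ z, wt (n - 1) z * h (mk τ v (z + τ⁻¹ • vvT v))) ∘ (fun g => Real.sqrt τ • g) := by
        funext g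
        simp only [Function.comp]
        rw [vvT_smul, hss, smul_smul, inv_mul_cancel₀ hτ.ne', one_smul]
      rw [e]; exact this
    exact measurable_gw.mul h5
  · have hKm : Measurable fun s : κ → ℝ => K *ᵥ s := (LinearMap.continuous_on_pi (toLin' K)).measurable
    exact hm4.comp hKm

end Pool.Agent.V5helper59.Wish
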