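import Pool.Agent.V5helper59.Wish.C4

open MeasureTheory Set Matrix Filter
open scoped BigOperators Topology ENNReal

set_option linter.unusedSectionVars false

namespace Pool.Agent.V5helper59.Wish

section
variable {κ : Type*} [Fintype κ] [DecidableEq κ]

lemma gmass : (∫⁻ g : κ → ℝ, gw g) ≠ 0 ∧ (∫⁻ g : κ → ℝ, gw g) ≠ ⊤ := by
  have e : (fun g : κ → ℝ => gw g) = fun g => ENNReal.ofReal (Real.exp (-(1/2) * (g ⬝ᵥ g))) := by
    funext g; unfold gw; congr 2; ring
  have hi : Integrable fun g : κ → ℝ => Real.exp (-(1/2) * (g ⬝ᵥ g)) := integrable_gauss (by norm_num)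
  constructor
  · intro h
    rw [lintegral_eq_zero_iff measurable_gw] at h
    have h2 : ∀ g : κ → ℝ, gw g ≠ 0 := fun g => by
      unfold gw
      simp only [ne_eq, ENNReal.ofReal_eq_zero, not_le]
      positivity
    have h3 : ∀ᵐ g : κ → ℝ, False := h.mono fun g hg => h2 g hg
    rw [eventually_false_iff_eq_bot] at h3
    exact (NeZero.ne (volume : Measure (κ → ℝ))) (ae_eq_bot.1 h3)
  · rw [e]
    exact ((hasFiniteIntegral_iff_ofReal (Eventually.of_forall fun g => by positivity)).1 hi.2).ne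

lemma cmass {n ν : ℝ} (hn : 0 < n) (hν : 0 ≤ ν) :
    (∫⁻ τ in Ioi (0:ℝ), cw n τ * ENNReal.ofReal (τ ^ ν)) ≠ 0 ∧
      (∫⁻ τ in Ioi (0:ℝ), cw n τ * ENNReal.ofReal (τ ^ ν)) ≠ ⊤ := by
  have e : ∀ τ ∈ Ioi (0:ℝ), cw n τ * ENNReal.ofReal (τ ^ ν)
      = ENNReal.ofReal (τ ^ (n / 2 + ν - 1) * Real.exp (-(1/2 * τ))) := by
    intro τ hτ
    have hτ : 0 < τ := hτ
    unfold cw
    rw [← ENNReal.ofReal_mul (by positivity)]
    congr 1
    have : τ ^ (n / 2 + ν - 1) = τ ^ ((n - 2) / 2) * τ ^ ν := by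
      rw [← Real.rpow_add hτ]; congr 1; ring
    rw [this]
    have : Real.exp (-τ / 2) = Real.exp (-(1/2 * τ)) := by congr 1; ring
    rw [this]; ring
  rw [setLIntegral_congr_fun measurableSet_Ioi e]
  have h1 := Real.integral_rpow_mul_exp_neg_mul_Ioi (a := n / 2 + ν) (r := 1 / 2) (by positivity) (by norm_num)
  have hG : 0 < Real.Gamma (n / 2 + ν) := Real.Gamma_pos_of_pos (by positivity)
  have hpos : 0 < (1 / (1 / 2 : ℝ)) ^ (n / 2 + ν) * Real.Gamma (n / 2 + ν) := by positivity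
  have hint : IntegrableOn (fun t : ℝ => t ^ (n / 2 + ν - 1) * Real.exp (-(1 / 2 * t))) (Ioi 0) := by
    by_contra hcon
    rw [integral_undef hcon] at h1
    linarith
  rw [← ofReal_integral_eq_lintegral_ofReal hint, h1]
  · refine ⟨?_, ENNReal.ofReal_ne_top⟩
    simp only [ne_eq, ENNReal.ofReal_eq_zero, not_le]; exact hpos
  · refine (ae_restrict_iff' measurableSet_Ioi).2 (Eventually.of_forall fun t ht => ?_)
    have ht : 0 < t := ht
    simp only [Pi.zero_apply]; positivity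

/-- the corner entry -/
def x00 (x : Sym2 (Unit ⊕ κ) → ℝ) : ℝ := x s(Sum.inl (), Sum.inl ())

lemma x00_mk (τ : ℝ) (v : κ → ℝ) (z : Sym2 κ → ℝ) : x00 (mk τ v z) = τ := by
  have := congrFun (congrFun (toM_mk τ v z) (Sum.inl ())) (Sum.inl ())
  simpa [blk, x00] using this

lemma measurable_x00 : Measurable (x00 (κ := κ)) := by unfold x00; exact measurable_pi_apply _

lemma moment_step (n ν : ℝ) : ∫⁻ x : Sym2 (Unit ⊕ κ) → ℝ, wt n x * ENNReal.ofReal (x00 x ^ ν)
    = (∫⁻ τ in Ioi (0:ℝ), cw n τ * ENNReal.ofReal (τ ^ ν)) *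
      ((∫⁻ g : κ → ℝ, gw g) * ∫⁻ z : Sym2 κ → ℝ, wt (n - 1) z) := by
  rw [lint_D1' n (h := fun x => ENNReal.ofReal (x00 x ^ ν))
    (ENNReal.measurable_ofReal.comp (measurable_x00.pow_const ν))]
  simp only [x00_mk]
  rw [← lintegral_mul_const]
  · refine lintegral_congr fun τ => ?_
    rw [mul_assoc]
    congr 1
    have : ∀ g : κ → ℝ, gw g * ∫⁻ z : Sym2 κ → ℝ, wt (n - 1) z * ENNReal.ofReal (τ ^ ν)
        = gw g * (ENNReal.ofReal (τ ^ ν) * ∫⁻ z : Sym2 κ → ℝ, wt (n - 1) z) := by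
      intro g
      rw [lintegral_mul_const _ (measurable_wt _), mul_comm (ENNReal.ofReal _)]
    simp_rw [this]
    rw [lintegral_mul_const _ measurable_gw]
    ring
  · exact (measurable_cw n).mul (by fun_prop)

lemma mass_step (n : ℝ) : ∫⁻ x : Sym2 (Unit ⊕ κ) → ℝ, wt n x
    = (∫⁻ τ in Ioi (0:ℝ), cw n τ * ENNReal.ofReal (τ ^ (0:ℝ))) *
      ((∫⁻ g : κ → ℝ, gw g) * ∫⁻ z : Sym2 κ → ℝ, wt (n - 1) z) := by
  rw [← moment_step n 0]
  simp

end

theorem mass_aux : ∀ (q : ℕ) (n : ℝ), (q : ℝ) - 1 < n → (∫⁻ x : Sym2 (Fin q) → ℝ, wt n x) ≠ 0 ∧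
    (∫⁻ x : Sym2 (Fin q) → ℝ, wt n x) ≠ ⊤ := by
  intro q
  induction q with
  | zero =>
    intro n _
    have h : ∀ x : Sym2 (Fin 0) → ℝ, wt n x = 1 := by
      intro x
      have hp : (toM x).PosDef := by
        refine PosDef.of_dotProduct_mulVec_pos (toM_herm x) fun v hv => ?_
        exact absurd (Subsingleton.elim v 0) hv
      rw [wt_of_pd hp]
      simp [Matrix.trace]
    simp only [h, lintegral_one]
    have : IsEmpty (Sym2 (Fin 0)) := by
      constructor; intro p; induction p with | _ i j => exact i.elim0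
    have h1 : volume (univ : Set (Sym2 (Fin 0) → ℝ)) = 1 := by
      rw [volume_pi, Measure.pi_of_empty]; simp
    rw [h1]; exact ⟨one_ne_zero, ENNReal.one_ne_top⟩
  | succ q ih =>
    intro n hn
    have e : Unit ⊕ Fin q ≃ Fin (q + 1) := by
      refine Fintype.equivOfCardEq ?_
      simp [add_comm]
    have h1 := lint_relab e n (h := fun _ => 1) measurable_const
    simp only [mul_one] at h1
    rw [h1, mass_step]
    push_cast at hn
    have h2 := ih (n - 1) (by linarith)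
    have h3 := cmass (n := n) (ν := 0) (by have : (0:ℝ) ≤ q := by positivity
                                           linarith) le_rfl
    have h4 := gmass (κ := Fin q)
    exact ⟨mul_ne_zero h3.1 (mul_ne_zero h4.1 h2.1), ENNReal.mul_ne_top h3.2 (ENNReal.mul_ne_top h4.2 h2.2)⟩

theorem mass {ι : Type*} [Fintype ι] [DecidableEq ι] {n : ℝ} (hn : (Fintype.card ι : ℝ) - 1 < n) :
    (∫⁻ x : Sym2 ι → ℝ, wt n x) ≠ 0 ∧ (∫⁻ x : Sym2 ι → ℝ, wt n x) ≠ ⊤ := by
  have h1 := lint_relab (Fintype.equivFin ι).symm n (h := fun _ => 1) measurable_const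
  simp only [mul_one] at h1
  rw [h1]
  exact mass_aux _ n hn

end Pool.Agent.V5helper59.Wish
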