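import Pool.Agent.V5helper59.Wish.C5

open MeasureTheory Set Matrix Filter
open scoped BigOperators Topology ENNReal

set_option linter.unusedSectionVars false

namespace Pool.Agent.V5helper59.Wish

section
variable {m : Type*} [Fintype m] [DecidableEq m] {κ : Type*} [Fintype κ] [DecidableEq κ]

/-- first column -/
def colC (C : Matrix m (Unit ⊕ κ) ℝ) : m → ℝ := fun i => C i (Sum.inl ())
/-- other columns -/
def resC (C : Matrix m (Unit ⊕ κ) ℝ) : Matrix m κ ℝ := Matrix.of fun i k => C i (Sum.inr k)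

lemma conj_blk (C : Matrix m (Unit ⊕ κ) ℝ) (τ : ℝ) (v : κ → ℝ) (Z : Matrix κ κ ℝ) :
    C * blk τ v Z * Cᵀ = τ • vecMulVec (colC C) (colC C) + vecMulVec (colC C) (resC C *ᵥ v)
      + vecMulVec (resC C *ᵥ v) (colC C) + resC C * Z * (resC C)ᵀ := by
  ext i j
  simp only [Matrix.mul_apply, Fintype.sum_sum_type, blk, fromBlocks_apply₁₁, fromBlocks_apply₁₂,
    fromBlocks_apply₂₁, fromBlocks_apply₂₂, Finset.univ_unique, Finset.sum_singleton, transpose_apply,
    Matrix.of_apply, Matrix.add_apply, Matrix.smul_apply, vecMulVec_apply, smul_eq_mul, colC, resC,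
    mulVec, dotProduct, add_mul, Finset.sum_add_distrib, Finset.mul_sum, Finset.sum_mul,
    PUnit.default_eq_unit]
  have h1 : ∑ k : κ, C i (Sum.inl ()) * v k * C j (Sum.inr k)
      = ∑ k : κ, C i (Sum.inl ()) * (C j (Sum.inr k) * v k) :=
    Finset.sum_congr rfl fun k _ => by ring
  rw [h1]
  ring

lemma conj_D1 (R : Matrix m m ℝ) (C : Matrix m (Unit ⊕ κ) ℝ) {τ : ℝ} (hτ : 0 ≤ τ) (g : κ → ℝ)
    (z : Sym2 κ → ℝ) :
    R + C * toM (mk τ (Real.sqrt τ • g) (z + vvT g)) * Cᵀ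
      = (R + vecMulVec (Real.sqrt τ • colC C + resC C *ᵥ g) (Real.sqrt τ • colC C + resC C *ᵥ g))
        + resC C * toM z * (resC C)ᵀ := by
  have hz : toM (z + vvT g) = toM z + vecMulVec g g := by
    have := toM_add_vvT z 1 g
    rwa [one_smul, one_smul] at this
  have hss : Real.sqrt τ * Real.sqrt τ = τ := Real.mul_self_sqrt hτ
  rw [toM_mk, conj_blk, hz, Matrix.mul_add, Matrix.add_mul, mul_vecMulVec, vecMulVec_mul,
    vecMul_transpose, mulVec_smul]
  ext i j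
  simp only [Matrix.add_apply, Matrix.smul_apply, vecMulVec_apply, Pi.add_apply, Pi.smul_apply,
    smul_eq_mul]
  linear_combination -(colC C i * colC C j) * hss

lemma conj_D2 (R : Matrix m m ℝ) (C : Matrix m (Unit ⊕ κ) ℝ) (s : κ → ℝ) (y : ℝ) {z : Sym2 κ → ℝ}
    {K : Matrix κ κ ℝ} (hZ : toM z = K * Kᵀ) :
    R + C * toM (mk (sq s y) (K *ᵥ s) z) * Cᵀ = Mat R (colC C) (resC C * K) s y := by
  rw [toM_mk, conj_blk, hZ]
  unfold Mat
  rw [transpose_mul, mulVec_mulVec, ← Matrix.mul_assoc, ← Matrix.mul_assoc]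
  abel

end

section
variable {J : Type*} [Fintype J] {m : J → Type*} [∀ j, Fintype (m j)] [∀ j, DecidableEq (m j)]
variable {ι : Type*} [Fintype ι] [DecidableEq ι]

/-- the regularised product of determinants -/
noncomputable def FF (R : ∀ j, Matrix (m j) (m j) ℝ) (C : ∀ j, Matrix (m j) ι ℝ) (δ νs : J → ℝ)
    (X : Matrix ι ι ℝ) : ℝ := ∏ j, ((R j + C j * X * (C j)ᵀ).det + δ j) ^ (νs j)

lemma measurable_FF (R : ∀ j, Matrix (m j) (m j) ℝ) (C : ∀ j, Matrix (m j) ι ℝ) (δ νs : J → ℝ) :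
    Measurable fun x : Sym2 ι → ℝ => ENNReal.ofReal (FF R C δ νs (toM x)) := by
  refine ENNReal.measurable_ofReal.comp ?_
  unfold FF
  refine Finset.measurable_prod _ fun j _ => ?_
  have : Continuous fun x : Sym2 ι → ℝ => (R j + C j * toM x * (C j)ᵀ).det + δ j := by
    refine Continuous.add ?_ continuous_const
    refine Continuous.matrix_det ?_
    exact continuous_const.add ((continuous_const.matrix_mul continuous_toM).matrix_mul continuous_const)
  exact this.measurable.pow_const _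

end

section
variable {κ : Type*} [Fintype κ] [DecidableEq κ]
variable {J : Type*} [Fintype J] {m : J → Type*} [∀ j, Fintype (m j)] [∀ j, DecidableEq (m j)]

/-- the statement of the single step -/
def SS (κ : Type*) [Fintype κ] [DecidableEq κ] (n ν : ℝ) (R : ∀ j, Matrix (m j) (m j) ℝ)
    (C : ∀ j, Matrix (m j) (Unit ⊕ κ) ℝ) (δ νs : J → ℝ) : Prop :=
  (∫⁻ x : Sym2 (Unit ⊕ κ) → ℝ, wt n x * ENNReal.ofReal (x00 x ^ ν)) *
      (∫⁻ x : Sym2 (Unit ⊕ κ) → ℝ, wt n x * ENNReal.ofReal (FF R C δ νs (toM x)))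
    ≤ (∫⁻ x : Sym2 (Unit ⊕ κ) → ℝ, wt n x) *
      (∫⁻ x : Sym2 (Unit ⊕ κ) → ℝ, wt n x *
        (ENNReal.ofReal (x00 x ^ ν) * ENNReal.ofReal (FF R C δ νs (toM x))))

theorem single_D2 {n ν : ℝ} (hν : 0 ≤ ν) (hn : (Fintype.card κ : ℝ) < n)
    (R : ∀ j, Matrix (m j) (m j) ℝ) (C : ∀ j, Matrix (m j) (Unit ⊕ κ) ℝ) (δ νs : J → ℝ)
    (hR : ∀ j, (R j).PosDef) (hδ : ∀ j, 0 < δ j) (hνs : ∀ j, 0 ≤ νs j)
    (hcd : ∀ j, (Fintype.card (m j) : ℝ) + 1 ≤ n) : SS κ n ν R C δ νs := by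
  unfold SS
  have m0 : Measurable fun x : Sym2 (Unit ⊕ κ) → ℝ => ENNReal.ofReal (x00 x ^ ν) :=
    ENNReal.measurable_ofReal.comp (measurable_x00.pow_const ν)
  have m1 := measurable_FF R C δ νs
  have m01 : Measurable fun x : Sym2 (Unit ⊕ κ) → ℝ =>
      ENNReal.ofReal (x00 x ^ ν) * ENNReal.ofReal (FF R C δ νs (toM x)) := m0.mul m1
  set k : ℝ := n - Fintype.card κ - 1 with hk
  have hk1 : -1 < k := by rw [hk]; linarith
  set G : (Sym2 κ → ℝ) → ℝ≥0∞ := {z : Sym2 κ → ℝ | (toM z).PosDef}.indicator fun z =>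
    ENNReal.ofReal (2 * (toM z).det ^ (k / 2) * Real.exp (-(toM z).trace / 2)) with hG
  have hGm : Measurable G := by
    refine Measurable.indicator ?_ measurableSet_pd
    refine ENNReal.measurable_ofReal.comp ?_
    have h1 : Measurable fun x : Sym2 κ → ℝ => (toM x).det := continuous_det_toM.measurable
    have h2 : Measurable fun x : Sym2 κ → ℝ => (toM x).trace := continuous_trace_toM.measurable
    exact ((h1.pow_const _).const_mul 2).mul ((h2.neg.div_const 2).exp)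
  set a0 : ℝ≥0∞ := ∫⁻ p, Wt k p ∂(hm κ) with ha0
  set a1 : ℝ≥0∞ := ∫⁻ p, Wt k p * ENNReal.ofReal (sq p.1 p.2 ^ ν) ∂(hm κ) with ha1
  -- the inner integrals vanish off the cone
  have hoff : ∀ (h : (Sym2 (Unit ⊕ κ) → ℝ) → ℝ≥0∞) (z : Sym2 κ → ℝ), ¬ (toM z).PosDef →
      ∫⁻ v : κ → ℝ, ∫⁻ τ, wt n (mk τ v z) * h (mk τ v z) = 0 := by
    intro h z hz
    have : ∀ (v : κ → ℝ) (τ : ℝ), wt n (mk τ v z) = 0 := by
      intro v τ
      refine wt_of_not fun h' => hz ?_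
      rw [toM_mk, posDef_blk2] at h'
      exact h'.1
    simp [this]
  have e1 : ∀ z : Sym2 κ → ℝ, ∫⁻ v : κ → ℝ, ∫⁻ τ, wt n (mk τ v z) * (1 : ℝ≥0∞) = G z * a0 := by
    intro z
    by_cases hz : (toM z).PosDef
    · obtain ⟨B, hB, hZ⟩ := pd_factor hz
      have hB' : (Bᵀ).det ≠ 0 := by rwa [det_transpose]
      have := D2_inner n hz hB' (by rw [transpose_transpose]; exact hZ) (h := fun _ => 1) measurable_const
      rw [← hk] at this
      rw [this, hG, indicator_of_mem (s := {z : Sym2 κ → ℝ | (toM z).PosDef}) hz, ha0]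
      simp only [mul_one]
    · have h2 := hoff (fun _ => 1) z hz
      rw [h2, hG, indicator_of_notMem (s := {z : Sym2 κ → ℝ | (toM z).PosDef}) hz, zero_mul]
  have e2 : ∀ z : Sym2 κ → ℝ, ∫⁻ v : κ → ℝ, ∫⁻ τ, wt n (mk τ v z) * ENNReal.ofReal (x00 (mk τ v z) ^ ν)
      = G z * a1 := by
    intro z
    by_cases hz : (toM z).PosDef
    · obtain ⟨B, hB, hZ⟩ := pd_factor hz
      have hB' : (Bᵀ).det ≠ 0 := by rwa [det_transpose]
      have := D2_inner n hz hB' (by rw [transpose_transpose]; exact hZ)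
        (h := fun x => ENNReal.ofReal (x00 x ^ ν)) m0
      rw [← hk] at this
      rw [this, hG, indicator_of_mem (s := {z : Sym2 κ → ℝ | (toM z).PosDef}) hz, ha1]
      simp only [x00_mk]
    · have h2 := hoff (fun x => ENNReal.ofReal (x00 x ^ ν)) z hz
      rw [h2, hG, indicator_of_notMem (s := {z : Sym2 κ → ℝ | (toM z).PosDef}) hz, zero_mul]
  set Q0 : (Sym2 κ → ℝ) → ℝ≥0∞ := fun z => ∫⁻ v : κ → ℝ, ∫⁻ τ, wt n (mk τ v z) *
    ENNReal.ofReal (FF R C δ νs (toM (mk τ v z))) with hQ0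
  set Q1 : (Sym2 κ → ℝ) → ℝ≥0∞ := fun z => ∫⁻ v : κ → ℝ, ∫⁻ τ, wt n (mk τ v z) *
    (ENNReal.ofReal (x00 (mk τ v z) ^ ν) * ENNReal.ofReal (FF R C δ νs (toM (mk τ v z)))) with hQ1
  have key : ∀ z, a1 * Q0 z ≤ a0 * Q1 z := by
    intro z
    by_cases hz : (toM z).PosDef
    · obtain ⟨B, hB, hZ⟩ := pd_factor hz
      have hB' : (Bᵀ).det ≠ 0 := by rwa [det_transpose]
      have hZ' : toM z = Bᵀ * (Bᵀ)ᵀ := by rw [transpose_transpose]; exact hZ
      have hD := fun j => det_QD (κ := κ) (hR j) (colC (C j)) (resC (C j) * Bᵀ) (hδ j) (hνs j) (hcd j)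
      choose f hf hfν hfv using hD
      have hphi : ∀ s y, FF R C δ νs (toM (mk (sq s y) (Bᵀ *ᵥ s) z)) = phi f s y := by
        intro s y
        unfold FF phi
        refine Finset.prod_congr rfl fun j _ => ?_
        rw [conj_D2 (R j) (C j) s y hZ', hfν j, hfv j]
      have h1 := D2_inner n hz hB' hZ' (h := fun x => ENNReal.ofReal (FF R C δ νs (toM x))) m1
      have h2 := D2_inner n hz hB' hZ'
        (h := fun x => ENNReal.ofReal (x00 x ^ ν) * ENNReal.ofReal (FF R C δ νs (toM x))) m01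
      rw [← hk] at h1 h2
      simp only [hQ0, hQ1]
      rw [h1, h2]
      simp only [hphi, x00_mk]
      have h3 := ana hf hν hk1 (n := n) (κ := κ) (by rw [hk]; ring)
      rw [mul_left_comm a1, mul_left_comm a0]
      exact mul_le_mul_right h3 _
    · have h1 := hoff (fun x => ENNReal.ofReal (FF R C δ νs (toM x))) z hz
      simp only [hQ0]
      rw [h1, mul_zero]
      exact zero_le
  have hmkm : Measurable fun t : ℝ × ((κ → ℝ) × (Sym2 κ → ℝ)) => mk t.1 t.2.1 t.2.2 := measurable_mk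
  have hQm : ∀ h : (Sym2 (Unit ⊕ κ) → ℝ) → ℝ≥0∞, Measurable h →
      Measurable fun z : Sym2 κ → ℝ => ∫⁻ v : κ → ℝ, ∫⁻ τ, wt n (mk τ v z) * h (mk τ v z) := by
    intro h hh
    have hH : Measurable fun t : ℝ × ((κ → ℝ) × (Sym2 κ → ℝ)) =>
      wt n (mk t.1 t.2.1 t.2.2) * h (mk t.1 t.2.1 t.2.2) := ((measurable_wt n).mul hh).comp measurable_mk
    have hm2 : Measurable fun y : (κ → ℝ) × (Sym2 κ → ℝ) => ∫⁻ τ : ℝ, wt n (mk τ y.1 y.2) * h (mk τ y.1 y.2) :=
      Measurable.lintegral_prod_left' hH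
    exact Measurable.lintegral_prod_left' hm2
  have l0 : ∫⁻ x : Sym2 (Unit ⊕ κ) → ℝ, wt n x = (∫⁻ z, G z) * a0 := by
    have := lint_D2 (κ := κ) n (h := fun _ => 1) measurable_const
    simp only [e1] at this
    simp only [mul_one] at this
    rw [this, lintegral_mul_const _ hGm]
  have l1 : ∫⁻ x : Sym2 (Unit ⊕ κ) → ℝ, wt n x * ENNReal.ofReal (x00 x ^ ν) = (∫⁻ z, G z) * a1 := by
    rw [lint_D2 (κ := κ) n m0]
    simp only [e2]
    rw [lintegral_mul_const _ hGm]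
  rw [l0, l1, lint_D2 (κ := κ) n m1, lint_D2 (κ := κ) n m01, mul_assoc, mul_assoc]
  refine mul_le_mul_right ?_ _
  have h5 : a1 * ∫⁻ z, Q0 z ≤ a0 * ∫⁻ z, Q1 z := by
    rw [← lintegral_const_mul _ (hQm _ m1), ← lintegral_const_mul _ (hQm _ m01)]
    exact lintegral_mono key
  exact h5

end

end Pool.Agent.V5helper59.Wish
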