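import Pool.Agent.V5helper59.Wish.C6

open MeasureTheory Set Matrix Filter
open scoped BigOperators Topology ENNReal

set_option linter.unusedSectionVars false

namespace Pool.Agent.V5helper59.Wish

section anderson
variable {m κ : Type*} [Fintype m] [DecidableEq m] [Fintype κ] [DecidableEq κ]

/-- squared norm of `t z + B g` -/
def nq (z : m → ℝ) (B : Matrix m κ ℝ) (t : ℝ) (g : κ → ℝ) : ℝ := (t • z + B *ᵥ g) ⬝ᵥ (t • z + B *ᵥ g)

lemma nq_nonneg (z : m → ℝ) (B : Matrix m κ ℝ) (t : ℝ) (g : κ → ℝ) : 0 ≤ nq z B t g := dot_self_nonneg _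

lemma continuous_nq (z : m → ℝ) (B : Matrix m κ ℝ) : Continuous fun p : ℝ × (κ → ℝ) => nq z B p.1 p.2 := by
  unfold nq
  have h : Continuous fun p : ℝ × (κ → ℝ) => p.1 • z + B *ᵥ p.2 := by
    refine Continuous.add (continuous_fst.smul continuous_const) ?_
    exact Continuous.matrix_mulVec continuous_const continuous_snd
  exact h.dotProduct h

lemma gauss_shift {b : ℝ} (hb : 0 ≤ b) (z : m → ℝ) (B : Matrix m κ ℝ) : ∃ c : ℝ, 0 ≤ c ∧ ∀ t,
    ∫⁻ g, gw g * ENNReal.ofReal (Real.exp (-(b * nq z B t g)))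
      = ENNReal.ofReal (Real.exp (-(c * t ^ 2))) *
        ∫⁻ g, gw g * ENNReal.ofReal (Real.exp (-(b * nq z B 0 g))) := by
  set M : Matrix κ κ ℝ := 1 + (2 * b) • (Bᵀ * B) with hM
  have hMpd : M.PosDef := by
    rw [hM]
    refine PosDef.one.add_posSemidef ?_
    have := posSemidef_conjTranspose_mul_self B
    rw [conjTranspose_eq_transpose_of_trivial] at this
    exact this.smul (by positivity)
  have hu : IsUnit M.det := isUnit_iff_ne_zero.2 hMpd.det_pos.ne'
  obtain ⟨h, hMh⟩ : ∃ h : κ → ℝ, M *ᵥ h = (-(2 * b)) • (Bᵀ *ᵥ z) :=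
    ⟨M⁻¹ *ᵥ ((-(2 * b)) • (Bᵀ *ᵥ z)), by rw [mulVec_mulVec, mul_nonsing_inv _ hu, one_mulVec]⟩
  set w : m → ℝ := z + B *ᵥ h with hw
  have hcross : ∀ g : κ → ℝ, g ⬝ᵥ h + 2 * b * (w ⬝ᵥ (B *ᵥ g)) = 0 := by
    intro g
    have h1 : g ⬝ᵥ (M *ᵥ h) = g ⬝ᵥ h + 2 * b * ((B *ᵥ g) ⬝ᵥ (B *ᵥ h)) := by
      rw [hM, add_mulVec, one_mulVec, smul_mulVec, dotProduct_add, dotProduct_smul, smul_eq_mul,
        ← mulVec_mulVec, dotProduct_mulVec g, vecMul_transpose]
    have h2 : g ⬝ᵥ ((-(2 * b)) • (Bᵀ *ᵥ z)) = -(2 * b) * ((B *ᵥ g) ⬝ᵥ z) := by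
      rw [dotProduct_smul, smul_eq_mul, dotProduct_mulVec g, vecMul_transpose]
    rw [hMh, h2] at h1
    have h3 : w ⬝ᵥ (B *ᵥ g) = (B *ᵥ g) ⬝ᵥ z + (B *ᵥ g) ⬝ᵥ (B *ᵥ h) := by
      rw [hw, add_dotProduct, dotProduct_comm z, dotProduct_comm (B *ᵥ h)]
    rw [h3]; linarith
  refine ⟨(h ⬝ᵥ h) / 2 + b * (w ⬝ᵥ w), ?_, fun t => ?_⟩
  · have := dot_self_nonneg h
    have := dot_self_nonneg w
    positivity
  · rw [← lintegral_add_right_eq_self _ (t • h), ← lintegral_const_mul' _ _ ENNReal.ofReal_ne_top]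
    refine lintegral_congr fun g => ?_
    unfold gw
    rw [← ENNReal.ofReal_mul (by positivity), ← ENNReal.ofReal_mul (by positivity),
      ← ENNReal.ofReal_mul (by positivity), ← Real.exp_add, ← Real.exp_add, ← Real.exp_add]
    congr 2
    have e1 : (g + t • h) ⬝ᵥ (g + t • h) = g ⬝ᵥ g + 2 * t * (g ⬝ᵥ h) + t ^ 2 * (h ⬝ᵥ h) := by
      simp only [add_dotProduct, dotProduct_add, smul_dotProduct, dotProduct_smul, smul_eq_mul]
      rw [dotProduct_comm h g]; ring
    have e2 : nq z B t (g + t • h) = t ^ 2 * (w ⬝ᵥ w) + 2 * t * (w ⬝ᵥ (B *ᵥ g)) + (B *ᵥ g) ⬝ᵥ (B *ᵥ g) := by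
      have : t • z + B *ᵥ (g + t • h) = t • w + B *ᵥ g := by
        rw [mulVec_add, mulVec_smul, hw, smul_add]; abel
      unfold nq
      rw [this]
      simp only [add_dotProduct, dotProduct_add, smul_dotProduct, dotProduct_smul, smul_eq_mul]
      rw [dotProduct_comm (B *ᵥ g) w]; ring
    have e3 : nq z B 0 g = (B *ᵥ g) ⬝ᵥ (B *ᵥ g) := by
      unfold nq; rw [zero_smul, zero_add]
    rw [e1, e2, e3]
    linear_combination -t * hcross g

lemma gauss_anti {b : ℝ} (hb : 0 ≤ b) (z : m → ℝ) (B : Matrix m κ ℝ) {s t : ℝ} (hs : 0 ≤ s) (hst : s ≤ t) :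
    ∫⁻ g, gw g * ENNReal.ofReal (Real.exp (-(b * nq z B t g)))
      ≤ ∫⁻ g, gw g * ENNReal.ofReal (Real.exp (-(b * nq z B s g))) := by
  obtain ⟨c, hc, h⟩ := gauss_shift hb z B
  rw [h s, h t]
  refine mul_le_mul_left (ENNReal.ofReal_le_ofReal (Real.exp_le_exp.2 ?_)) _
  have : s ^ 2 ≤ t ^ 2 := by gcongr
  nlinarith

lemma gauss_one_sub {r a β : ℝ} (hr : 0 ≤ r) (ha : 0 ≤ a) (hβ : 0 ≤ β) (z : m → ℝ) (B : Matrix m κ ℝ)
    {s t : ℝ} (hs : 0 ≤ s) (hst : s ≤ t) :
    ∫⁻ g, gw g * ENNReal.ofReal (1 - Real.exp (-(r * (a + β * nq z B s g))))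
      ≤ ∫⁻ g, gw g * ENNReal.ofReal (1 - Real.exp (-(r * (a + β * nq z B t g)))) := by
  have hE : ∀ t, ∫⁻ g, gw g * ENNReal.ofReal (Real.exp (-(r * (a + β * nq z B t g))))
      = ENNReal.ofReal (Real.exp (-(r * a))) *
        ∫⁻ g, gw g * ENNReal.ofReal (Real.exp (-((r * β) * nq z B t g))) := by
    intro t
    rw [← lintegral_const_mul' _ _ ENNReal.ofReal_ne_top]
    refine lintegral_congr fun g => ?_
    rw [mul_left_comm, ← ENNReal.ofReal_mul (by positivity), ← Real.exp_add]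
    congr 3; ring
  have hmE : ∀ t, Measurable fun g : κ → ℝ => gw g * ENNReal.ofReal (Real.exp (-(r * (a + β * nq z B t g)))) := by
    intro t
    refine measurable_gw.mul (ENNReal.measurable_ofReal.comp ?_)
    have : Continuous fun g : κ → ℝ => nq z B t g := (continuous_nq z B).comp (continuous_const.prodMk continuous_id)
    exact (by fun_prop : Continuous fun g : κ → ℝ => Real.exp (-(r * (a + β * nq z B t g)))).measurable
  have hsum : ∀ t, (∫⁻ g, gw g * ENNReal.ofReal (1 - Real.exp (-(r * (a + β * nq z B t g)))))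
      + ∫⁻ g, gw g * ENNReal.ofReal (Real.exp (-(r * (a + β * nq z B t g)))) = ∫⁻ g : κ → ℝ, gw g := by
    intro t
    rw [← lintegral_add_right _ (hmE t)]
    refine lintegral_congr fun g => ?_
    rw [← mul_add, ← ENNReal.ofReal_add _ (by positivity)]
    · simp
    · have : 0 ≤ r * (a + β * nq z B t g) := by
        have := nq_nonneg z B t g
        positivity
      have := Real.exp_le_one_iff.2 (neg_nonpos.2 this)
      linarith
  have hle : ∫⁻ g, gw g * ENNReal.ofReal (Real.exp (-(r * (a + β * nq z B t g))))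
      ≤ ∫⁻ g, gw g * ENNReal.ofReal (Real.exp (-(r * (a + β * nq z B s g)))) := by
    rw [hE s, hE t]
    exact mul_le_mul_right (gauss_anti (by positivity) z B hs hst) _
  have hfin : ∫⁻ g, gw g * ENNReal.ofReal (Real.exp (-(r * (a + β * nq z B s g)))) ≠ ⊤ := by
    intro h
    have := hsum s
    rw [h, add_top] at this
    exact gmass.2 this.symm
  have h1 := hsum s
  rw [← hsum t] at h1
  refine ENNReal.le_of_add_le_add_right hfin ?_
  rw [h1]
  gcongr

/-- Bernstein representation of powers. -/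
lemma rpow_rep {ν : ℝ} (h0 : 0 < ν) (h1 : ν < 1) : ∃ C : ℝ≥0∞, C ≠ 0 ∧ C ≠ ⊤ ∧ ∀ u : ℝ, 0 < u →
    ∫⁻ r in Ioi (0:ℝ), ENNReal.ofReal (r ^ (-1 - ν)) * ENNReal.ofReal (1 - Real.exp (-(r * u)))
      = C * ENNReal.ofReal (u ^ ν) := by
  refine ⟨∫⁻ r in Ioi (0:ℝ), ENNReal.ofReal (r ^ (-1 - ν)) * ENNReal.ofReal (1 - Real.exp (-r)), ?_, ?_, ?_⟩
  · have hm : Measurable fun r : ℝ => ENNReal.ofReal (r ^ (-1 - ν)) * ENNReal.ofReal (1 - Real.exp (-r)) := by
      fun_prop
    intro h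
    rw [lintegral_eq_zero_iff hm] at h
    have h2 : ∀ᵐ r ∂((volume : Measure ℝ).restrict (Ioi 0)), False := by
      have h3 : ∀ᵐ r ∂((volume : Measure ℝ).restrict (Ioi 0)), r ∈ Ioi (0:ℝ) := ae_restrict_mem measurableSet_Ioi
      filter_upwards [h, h3] with r hr hr0
      have hr0 : 0 < r := hr0
      have h4 : Real.exp (-r) < 1 := by
        rw [Real.exp_lt_one_iff]; linarith
      simp only [Pi.zero_apply, mul_eq_zero, ENNReal.ofReal_eq_zero] at hr
      rcases hr with hr | hr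
      · have : 0 < r ^ (-1 - ν) := by positivity
        linarith
      · linarith
    rw [eventually_false_iff_eq_bot, ae_eq_bot, Measure.restrict_eq_zero] at h2
    simp at h2
  · have hsplit : Ioi (0:ℝ) = Ioc 0 1 ∪ Ioi 1 := (Ioc_union_Ioi_eq_Ioi (by norm_num)).symm
    rw [hsplit]
    refine ne_of_lt (lt_of_le_of_lt (lintegral_union_le _ _ _) (ENNReal.add_lt_top.2 ⟨?_, ?_⟩))
    · have hle : ∀ r ∈ Ioc (0:ℝ) 1, ENNReal.ofReal (r ^ (-1 - ν)) * ENNReal.ofReal (1 - Real.exp (-r))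
          ≤ ENNReal.ofReal (r ^ (-ν)) := by
        intro r hr
        have hr0 : 0 < r := hr.1
        rw [← ENNReal.ofReal_mul (by positivity)]
        refine ENNReal.ofReal_le_ofReal ?_
        have h3 : 1 - Real.exp (-r) ≤ r := by
          have := Real.add_one_le_exp (-r); linarith
        have h4 : r ^ (-ν) = r ^ (-1 - ν) * r := by
          rw [show -ν = (-1 - ν) + 1 by ring, Real.rpow_add hr0, Real.rpow_one]
        rw [h4]
        exact mul_le_mul_of_nonneg_left h3 (by positivity)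
      refine lt_of_le_of_lt (setLIntegral_mono' measurableSet_Ioc hle) ?_
      have hi : IntegrableOn (fun r : ℝ => r ^ (-ν)) (Ioc 0 1) := by
        have := intervalIntegral.intervalIntegrable_rpow' (a := 0) (b := 1) (r := -ν) (by linarith)
        rwa [intervalIntegrable_iff_integrableOn_Ioc_of_le (by norm_num)] at this
      have h5 := hi.2
      rwa [hasFiniteIntegral_iff_ofReal] at h5
      exact (ae_restrict_iff' measurableSet_Ioc).2 (Eventually.of_forall fun r hr => Real.rpow_nonneg hr.1.le _)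
    · have hle : ∀ r ∈ Ioi (1:ℝ), ENNReal.ofReal (r ^ (-1 - ν)) * ENNReal.ofReal (1 - Real.exp (-r))
          ≤ ENNReal.ofReal (r ^ (-1 - ν)) := by
        intro r hr
        have hr0 : 0 < r := lt_trans one_pos hr
        rw [← ENNReal.ofReal_mul (by positivity)]
        refine ENNReal.ofReal_le_ofReal ?_
        have h3 : 1 - Real.exp (-r) ≤ 1 := by
          have := Real.exp_pos (-r); linarith
        have h4 : 0 ≤ r ^ (-1 - ν) := by positivity
        nlinarith
      refine lt_of_le_of_lt (setLIntegral_mono' measurableSet_Ioi hle) ?_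
      have hi : IntegrableOn (fun r : ℝ => r ^ (-1 - ν)) (Ioi 1) := integrableOn_Ioi_rpow_of_lt (by linarith) one_pos
      have h5 := hi.2
      rwa [hasFiniteIntegral_iff_ofReal] at h5
      exact (ae_restrict_iff' measurableSet_Ioi).2 (Eventually.of_forall fun r hr =>
        Real.rpow_nonneg (lt_trans one_pos hr).le _)
  · intro u hu
    have himg : (fun r : ℝ => u⁻¹ * r) '' Ioi 0 = Ioi 0 := by
      ext r
      simp only [mem_image, mem_Ioi]
      constructor
      · rintro ⟨y, hy, rfl⟩; positivity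
      · intro hr; exact ⟨u * r, by positivity, by field_simp⟩
    have h5 := lintegral_image_eq_lintegral_abs_deriv_mul (s := Ioi (0:ℝ)) (f := fun r : ℝ => u⁻¹ * r)
      (f' := fun _ => u⁻¹) measurableSet_Ioi
      (fun x _ => by simpa using ((hasDerivAt_id x).const_mul u⁻¹).hasDerivWithinAt)
      (fun a _ b _ hab => by
        have hu' : u⁻¹ ≠ 0 := (inv_pos.2 hu).ne'
        exact mul_left_cancel₀ hu' hab)
      (fun r => ENNReal.ofReal (r ^ (-1 - ν)) * ENNReal.ofReal (1 - Real.exp (-(r * u))))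
    rw [himg] at h5
    rw [h5, mul_comm, ← lintegral_const_mul' _ _ ENNReal.ofReal_ne_top]
    refine setLIntegral_congr_fun measurableSet_Ioi fun r hr => ?_
    have hr : 0 < r := hr
    have e1 : u⁻¹ * r * u = r := by field_simp
    rw [e1, ← mul_assoc, ← mul_assoc (ENNReal.ofReal (u ^ ν)), ← ENNReal.ofReal_mul (p := |u⁻¹|) (by positivity),
      ← ENNReal.ofReal_mul (p := u ^ ν) (by positivity)]
    congr 2
    rw [abs_of_pos (by positivity), Real.mul_rpow (by positivity) hr.le, Real.inv_rpow hu.le, ← mul_assoc]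
    congr 1
    rw [← Real.rpow_neg hu.le, ← Real.rpow_neg_one, ← Real.rpow_add hu]
    congr 1; ring

end anderson

end Pool.Agent.V5helper59.Wish
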