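import Pool.Agent.V5helper59.Wish.D1

open MeasureTheory Set Matrix Filter
open scoped BigOperators Topology ENNReal

set_option linter.unusedSectionVars false

namespace Pool.Agent.V5helper59.Wish

section anderson
variable {m κ : Type*} [Fintype m] [DecidableEq m] [Fintype κ] [DecidableEq κ]

lemma continuous_nq' (z : m → ℝ) (B : Matrix m κ ℝ) (t : ℝ) : Continuous fun g : κ → ℝ => nq z B t g :=
  (continuous_nq z B).comp (continuous_const.prodMk continuous_id)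

lemma measurable_pw' (a β ν : ℝ) (z : m → ℝ) (B : Matrix m κ ℝ) (t : ℝ) :
    Measurable fun g : κ → ℝ => gw g * ENNReal.ofReal ((a + β * nq z B t g) ^ ν) := by
  refine measurable_gw.mul (ENNReal.measurable_ofReal.comp ?_)
  have := continuous_nq' z B t
  exact (by fun_prop : Continuous fun g : κ → ℝ => a + β * nq z B t g).measurable.pow_const ν

lemma anderson_lt {a β ν : ℝ} (ha : 0 < a) (hβ : 0 ≤ β) (h0 : 0 < ν) (h1 : ν < 1) (z : m → ℝ)
    (B : Matrix m κ ℝ) {s t : ℝ} (hs : 0 ≤ s) (hst : s ≤ t) :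
    ∫⁻ g, gw g * ENNReal.ofReal ((a + β * nq z B s g) ^ ν)
      ≤ ∫⁻ g, gw g * ENNReal.ofReal ((a + β * nq z B t g) ^ ν) := by
  obtain ⟨C, hC0, hCt, hC⟩ := rpow_rep h0 h1
  have hcont : Continuous fun p : ℝ × (κ → ℝ) => nq z B p.1 p.2 := continuous_nq z B
  have hcont' : ∀ t, Continuous fun g : κ → ℝ => nq z B t g := fun t =>
    hcont.comp (continuous_const.prodMk continuous_id)
  have hmj : ∀ t, Measurable fun p : (κ → ℝ) × ℝ => gw p.1 * (ENNReal.ofReal (p.2 ^ (-1 - ν)) *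
      ENNReal.ofReal (1 - Real.exp (-(p.2 * (a + β * nq z B t p.1))))) := by
    intro t
    have h2 : Measurable fun p : (κ → ℝ) × ℝ => ENNReal.ofReal (p.2 ^ (-1 - ν)) :=
      ENNReal.measurable_ofReal.comp (measurable_snd.pow_const _)
    have h3 : Continuous fun p : (κ → ℝ) × ℝ => nq z B t p.1 := (hcont' t).comp continuous_fst
    have h4 : Measurable fun p : (κ → ℝ) × ℝ => ENNReal.ofReal (1 - Real.exp (-(p.2 * (a + β * nq z B t p.1)))) :=
      ENNReal.measurable_ofReal.comp (by fun_prop : Continuous fun p : (κ → ℝ) × ℝ =>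
        1 - Real.exp (-(p.2 * (a + β * nq z B t p.1)))).measurable
    exact (measurable_gw.comp measurable_fst).mul (h2.mul h4)
  have rep : ∀ t, C * ∫⁻ g, gw g * ENNReal.ofReal ((a + β * nq z B t g) ^ ν)
      = ∫⁻ r in Ioi (0:ℝ), ENNReal.ofReal (r ^ (-1 - ν)) *
        ∫⁻ g, gw g * ENNReal.ofReal (1 - Real.exp (-(r * (a + β * nq z B t g)))) := by
    intro t
    rw [← lintegral_const_mul' _ _ hCt]
    have e1 : ∀ g : κ → ℝ, C * (gw g * ENNReal.ofReal ((a + β * nq z B t g) ^ ν))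
        = ∫⁻ r in Ioi (0:ℝ), gw g * (ENNReal.ofReal (r ^ (-1 - ν)) *
          ENNReal.ofReal (1 - Real.exp (-(r * (a + β * nq z B t g))))) := by
      intro g
      have hpos : 0 < a + β * nq z B t g := by
        have := nq_nonneg z B t g
        positivity
      rw [lintegral_const_mul', hC _ hpos]
      · ring
      · unfold gw; exact ENNReal.ofReal_ne_top
    simp_rw [e1]
    rw [lintegral_lintegral_swap (hmj t).aemeasurable]
    refine lintegral_congr fun r => ?_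
    rw [← lintegral_const_mul' _ _ ENNReal.ofReal_ne_top]
    exact lintegral_congr fun g => by ring
  refine (ENNReal.mul_le_mul_iff_right hC0 hCt).1 ?_
  rw [rep s, rep t]
  refine setLIntegral_mono' measurableSet_Ioi fun r hr => ?_
  exact mul_le_mul_right (gauss_one_sub (le_of_lt hr) ha.le hβ z B hs hst) _

lemma gw_neg (g : κ → ℝ) : gw (-g) = gw g := by
  unfold gw; rw [neg_dotProduct, dotProduct_neg, neg_neg]

lemma lint_neg (f : (κ → ℝ) → ℝ≥0∞) : ∫⁻ g, f (-g) = ∫⁻ g, f g := by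
  have := (Measure.measurePreserving_neg (volume : Measure (κ → ℝ))).lintegral_comp_emb
    (MeasurableEquiv.neg (κ → ℝ)).measurableEmbedding f
  exact this

lemma cvx {ν lam p q : ℝ} (hν : 1 ≤ ν) (hl : 0 ≤ lam) (hl1 : lam ≤ 1) (hp : 0 ≤ p) (hq : 0 ≤ q) :
    (lam * p + (1 - lam) * q) ^ ν ≤ lam * p ^ ν + (1 - lam) * q ^ ν := by
  have := (convexOn_rpow hν).2 (show p ∈ Ici (0:ℝ) from hp) (show q ∈ Ici (0:ℝ) from hq) hl
    (by linarith : 0 ≤ 1 - lam) (by ring)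
  simpa [smul_eq_mul] using this

lemma sqcvx (x y : m → ℝ) {lam : ℝ} (hl : 0 ≤ lam) (hl1 : lam ≤ 1) :
    (lam • x + (1 - lam) • y) ⬝ᵥ (lam • x + (1 - lam) • y) ≤ lam * (x ⬝ᵥ x) + (1 - lam) * (y ⬝ᵥ y) := by
  have h := dot_self_nonneg (x - y)
  have e : (lam • x + (1 - lam) • y) ⬝ᵥ (lam • x + (1 - lam) • y)
      = lam * (x ⬝ᵥ x) + (1 - lam) * (y ⬝ᵥ y) - lam * (1 - lam) * ((x - y) ⬝ᵥ (x - y)) := by
    simp only [add_dotProduct, dotProduct_add, smul_dotProduct, dotProduct_smul, smul_eq_mul,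
      sub_dotProduct, dotProduct_sub]
    rw [dotProduct_comm y x]; ring
  rw [e]
  have : 0 ≤ lam * (1 - lam) * ((x - y) ⬝ᵥ (x - y)) := by
    have : 0 ≤ 1 - lam := by linarith
    positivity
  linarith

lemma anderson_ge {a β ν : ℝ} (ha : 0 < a) (hβ : 0 ≤ β) (h1 : 1 ≤ ν) (z : m → ℝ)
    (B : Matrix m κ ℝ) {s t : ℝ} (hs : 0 ≤ s) (hst : s ≤ t) :
    ∫⁻ g, gw g * ENNReal.ofReal ((a + β * nq z B s g) ^ ν)
      ≤ ∫⁻ g, gw g * ENNReal.ofReal ((a + β * nq z B t g) ^ ν) := by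
  rcases hst.eq_or_lt with rfl | hlt
  · exact le_rfl
  have ht : 0 < t := lt_of_le_of_lt hs hlt
  have hsym : ∀ t, 2 * ∫⁻ g, gw g * ENNReal.ofReal ((a + β * nq z B t g) ^ ν)
      = ∫⁻ g, gw g * (ENNReal.ofReal ((a + β * nq z B t g) ^ ν) + ENNReal.ofReal ((a + β * nq z B t (-g)) ^ ν)) := by
    intro t
    have h2 := lint_neg (fun g : κ → ℝ => gw g * ENNReal.ofReal ((a + β * nq z B t g) ^ ν))
    rw [two_mul]
    conv_lhs => rhs; rw [← h2]
    rw [← lintegral_add_left (measurable_pw' a β ν z B t)]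
    refine lintegral_congr fun g => ?_
    rw [gw_neg, mul_add]
  refine (ENNReal.mul_le_mul_iff_right (a := 2) (by norm_num) (by norm_num)).1 ?_
  rw [hsym s, hsym t]
  refine lintegral_mono fun g => mul_le_mul_right ?_ _
  set lam : ℝ := (1 + s / t) / 2 with hlam
  have hst1 : s / t ≤ 1 := by rw [div_le_one ht]; exact hst
  have hst0 : 0 ≤ s / t := by positivity
  have hl0 : 0 ≤ lam := by rw [hlam]; linarith
  have hl1 : lam ≤ 1 := by rw [hlam]; linarith
  have hs' : s = lam * t - (1 - lam) * t := by rw [hlam]; field_simp; ring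
  have hq : ∀ g : κ → ℝ, nq z B s g ≤ lam * nq z B t g + (1 - lam) * nq z B t (-g) := by
    intro g
    have e1 : s • z + B *ᵥ g = lam • (t • z + B *ᵥ g) + (1 - lam) • (-(t • z + B *ᵥ (-g))) := by
      conv_lhs => rw [hs']
      rw [mulVec_neg]
      module
    have e2 : nq z B t (-g) = (-(t • z + B *ᵥ (-g))) ⬝ᵥ (-(t • z + B *ᵥ (-g))) := by
      unfold nq; rw [neg_dotProduct, dotProduct_neg, neg_neg]
    unfold nq at e2 ⊢
    rw [e1, e2]
    exact sqcvx _ _ hl0 hl1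
  have hp : ∀ g : κ → ℝ, (a + β * nq z B s g) ^ ν
      ≤ lam * (a + β * nq z B t g) ^ ν + (1 - lam) * (a + β * nq z B t (-g)) ^ ν := by
    intro g
    have n1 := nq_nonneg z B s g
    have n2 := nq_nonneg z B t g
    have n3 := nq_nonneg z B t (-g)
    refine le_trans (Real.rpow_le_rpow (by positivity) ?_ (by linarith)) (cvx h1 hl0 hl1 (by positivity) (by positivity))
    have := mul_le_mul_of_nonneg_left (hq g) hβ
    linarith
  have h3 := hp g
  have h4 := hp (-g)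
  rw [neg_neg] at h4
  have n1 := nq_nonneg z B s g
  have n1' := nq_nonneg z B s (-g)
  have n2 := nq_nonneg z B t g
  have n3 := nq_nonneg z B t (-g)
  rw [← ENNReal.ofReal_add (by positivity) (by positivity), ← ENNReal.ofReal_add (by positivity) (by positivity)]
  refine ENNReal.ofReal_le_ofReal ?_
  linarith

theorem anderson {a β ν : ℝ} (ha : 0 < a) (hβ : 0 ≤ β) (hν : 0 ≤ ν) (z : m → ℝ)
    (B : Matrix m κ ℝ) {s t : ℝ} (hs : 0 ≤ s) (hst : s ≤ t) :
    ∫⁻ g, gw g * ENNReal.ofReal ((a + β * nq z B s g) ^ ν)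
      ≤ ∫⁻ g, gw g * ENNReal.ofReal ((a + β * nq z B t g) ^ ν) := by
  rcases hν.eq_or_lt with rfl | h0
  · simp
  rcases lt_or_ge ν 1 with h1 | h1
  · exact anderson_lt ha hβ h0 h1 z B hs hst
  · exact anderson_ge ha hβ h1 z B hs hst

end anderson

/-- Chebyshev's integral inequality. -/
lemma cheb_pt (f1 f2 g1 g2 : ℝ≥0∞) (hf : f1 ≤ f2) (hg : g1 ≤ g2) :
    f1 * g2 + g1 * f2 ≤ f2 * g2 + f1 * g1 := by
  obtain ⟨a, rfl⟩ := exists_add_of_le hf
  obtain ⟨b, rfl⟩ := exists_add_of_le hg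
  calc f1 * (g1 + b) + g1 * (f1 + a) ≤ f1 * (g1 + b) + g1 * (f1 + a) + a * b := le_self_add
    _ = _ := by ring

lemma cheb {w f g : ℝ → ℝ≥0∞} (hw : Measurable w) (hf : Measurable f) (hg : Measurable g)
    (mf : MonotoneOn f (Ioi 0)) (mg : MonotoneOn g (Ioi 0)) :
    (∫⁻ t in Ioi (0:ℝ), w t * f t) * (∫⁻ t in Ioi (0:ℝ), w t * g t)
      ≤ (∫⁻ t in Ioi (0:ℝ), w t) * (∫⁻ t in Ioi (0:ℝ), w t * (f t * g t)) := by
  set μ := (volume : Measure ℝ).restrict (Ioi 0) with hμ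
  have m1 : Measurable fun t => w t * f t := hw.mul hf
  have m2 : Measurable fun t => w t * g t := hw.mul hg
  have m3 : Measurable fun t => w t * (f t * g t) := hw.mul (hf.mul hg)
  have p1 := lintegral_prod_mul (μ := μ) (ν := μ) m1.aemeasurable m2.aemeasurable
  have p2 := lintegral_prod_mul (μ := μ) (ν := μ) m2.aemeasurable m1.aemeasurable
  have p3 := lintegral_prod_mul (μ := μ) (ν := μ) hw.aemeasurable m3.aemeasurable
  have p4 := lintegral_prod_mul (μ := μ) (ν := μ) m3.aemeasurable hw.aemeasurable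
  refine (ENNReal.mul_le_mul_iff_right (a := 2) (by norm_num) (by norm_num)).1 ?_
  have hmm : ∀ {F G : ℝ → ℝ≥0∞}, Measurable F → Measurable G → Measurable fun z : ℝ × ℝ => F z.1 * G z.2 :=
    fun hF hG => (hF.comp measurable_fst).mul (hG.comp measurable_snd)
  have l1 : 2 * ((∫⁻ t, w t * f t ∂μ) * (∫⁻ t, w t * g t ∂μ))
      = ∫⁻ z, ((w z.1 * f z.1) * (w z.2 * g z.2) + (w z.1 * g z.1) * (w z.2 * f z.2)) ∂(μ.prod μ) := by
    rw [lintegral_add_left (hmm m1 m2), p1, p2]; ring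
  have l2 : 2 * ((∫⁻ t, w t ∂μ) * (∫⁻ t, w t * (f t * g t) ∂μ))
      = ∫⁻ z, (w z.1 * (w z.2 * (f z.2 * g z.2)) + (w z.1 * (f z.1 * g z.1)) * w z.2) ∂(μ.prod μ) := by
    rw [lintegral_add_left (hmm hw m3), p3, p4]; ring
  rw [l1, l2]
  have hae : ∀ᵐ z ∂(μ.prod μ), z.1 ∈ Ioi (0:ℝ) ∧ z.2 ∈ Ioi (0:ℝ) := by
    have h1 : ∀ᵐ r ∂μ, r ∈ Ioi (0:ℝ) := ae_restrict_mem measurableSet_Ioi
    have h2 := Measure.quasiMeasurePreserving_fst (μ := μ) (ν := μ) |>.ae h1
    have h3 := Measure.quasiMeasurePreserving_snd (μ := μ) (ν := μ) |>.ae h1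
    exact h2.and h3
  refine lintegral_mono_ae ?_
  filter_upwards [hae] with z hz
  rcases le_total z.1 z.2 with h | h
  · have := cheb_pt (f z.1) (f z.2) (g z.1) (g z.2) (mf hz.1 hz.2 h) (mg hz.1 hz.2 h)
    calc w z.1 * f z.1 * (w z.2 * g z.2) + w z.1 * g z.1 * (w z.2 * f z.2)
        = (w z.1 * w z.2) * (f z.1 * g z.2 + g z.1 * f z.2) := by ring
      _ ≤ (w z.1 * w z.2) * (f z.2 * g z.2 + f z.1 * g z.1) := by gcongr
      _ = _ := by ring
  · have := cheb_pt (f z.2) (f z.1) (g z.2) (g z.1) (mf hz.2 hz.1 h) (mg hz.2 hz.1 h)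
    calc w z.1 * f z.1 * (w z.2 * g z.2) + w z.1 * g z.1 * (w z.2 * f z.2)
        = (w z.1 * w z.2) * (f z.2 * g z.1 + g z.2 * f z.1) := by ring
      _ ≤ (w z.1 * w z.2) * (f z.1 * g z.1 + f z.2 * g z.2) := by gcongr
      _ = _ := by ring

end Pool.Agent.V5helper59.Wish
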