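import Pool.Agent.V5helper59.Wish.D2

open MeasureTheory Set Matrix Filter
open scoped BigOperators Topology ENNReal

set_option linter.unusedSectionVars false
set_option maxHeartbeats 400000

namespace Pool.Agent.V5helper59.Wish

variable {κ : Type*} [Fintype κ] [DecidableEq κ]

lemma measurable_vvT : Measurable fun v : κ → ℝ => vvT v := by
  refine measurable_pi_lambda _ fun p => ?_
  induction p with
  | _ i j =>
    simp only [vvT, Sym2.lift_mk]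
    fun_prop

/-- the map `(τ, g, z) ↦ X` -/
noncomputable def mk1 (t : ℝ × ((κ → ℝ) × (Sym2 κ → ℝ))) : Sym2 (Unit ⊕ κ) → ℝ :=
  mk t.1 (Real.sqrt t.1 • t.2.1) (t.2.2 + vvT t.2.1)

lemma measurable_mk1 : Measurable (mk1 (κ := κ)) := by
  unfold mk1
  have h1 : Measurable fun t : ℝ × ((κ → ℝ) × (Sym2 κ → ℝ)) => Real.sqrt t.1 := by fun_prop
  have h2 : Measurable fun t : ℝ × ((κ → ℝ) × (Sym2 κ → ℝ)) => t.2.1 := by fun_prop
  have h3 : Measurable fun t : ℝ × ((κ → ℝ) × (Sym2 κ → ℝ)) => t.2.2 := by fun_prop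
  have h4 : Measurable fun t : ℝ × ((κ → ℝ) × (Sym2 κ → ℝ)) => Real.sqrt t.1 • t.2.1 := h1.smul h2
  have h5 : Measurable fun t : ℝ × ((κ → ℝ) × (Sym2 κ → ℝ)) => t.2.2 + vvT t.2.1 :=
    h3.add (measurable_vvT.comp h2)
  exact (measurable_mk (κ := κ)).comp (measurable_fst.prodMk (h4.prodMk h5))

lemma gw_ne_top (g : κ → ℝ) : gw g ≠ ⊤ := by unfold gw; exact ENNReal.ofReal_ne_top
lemma cw_ne_top (n τ : ℝ) : cw n τ ≠ ⊤ := by unfold cw; exact ENNReal.ofReal_ne_top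

/-- `z` outermost -/
theorem lint_D1z (n : ℝ) {h : (Sym2 (Unit ⊕ κ) → ℝ) → ℝ≥0∞} (hh : Measurable h) :
    ∫⁻ x, wt n x * h x = ∫⁻ z : Sym2 κ → ℝ, wt (n - 1) z * ∫⁻ τ in Ioi (0:ℝ), cw n τ *
      ∫⁻ g : κ → ℝ, gw g * h (mk1 (τ, g, z)) := by
  rw [lint_D1' n hh]
  have hwt : ∀ z : Sym2 κ → ℝ, wt (n - 1) z ≠ ⊤ := by
    intro z
    by_cases hz : (toM z).PosDef
    · rw [wt_of_pd hz]; exact ENNReal.ofReal_ne_top
    · rw [wt_of_not hz]; exact ENNReal.zero_ne_top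
  have hM : Measurable fun t : ℝ × ((κ → ℝ) × (Sym2 κ → ℝ)) =>
      cw n t.1 * (gw t.2.1 * (wt (n - 1) t.2.2 * h (mk1 t))) := by
    have a1 : Measurable fun t : ℝ × ((κ → ℝ) × (Sym2 κ → ℝ)) => cw n t.1 := (measurable_cw n).comp measurable_fst
    have a2 : Measurable fun t : ℝ × ((κ → ℝ) × (Sym2 κ → ℝ)) => gw t.2.1 := measurable_gw.comp (by fun_prop)
    have a3 : Measurable fun t : ℝ × ((κ → ℝ) × (Sym2 κ → ℝ)) => wt (n - 1) t.2.2 :=
      (measurable_wt (n - 1)).comp (by fun_prop)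
    exact a1.mul (a2.mul (a3.mul (hh.comp measurable_mk1)))
  have e1 : ∀ τ : ℝ, cw n τ * ∫⁻ g : κ → ℝ, gw g *
      ∫⁻ z, wt (n - 1) z * h (mk τ (Real.sqrt τ • g) (z + vvT g))
      = ∫⁻ z : Sym2 κ → ℝ, ∫⁻ g : κ → ℝ, cw n τ * (gw g * (wt (n - 1) z * h (mk1 (τ, g, z)))) := by
    intro τ
    rw [← lintegral_const_mul' _ _ (cw_ne_top n τ)]
    have : ∀ g : κ → ℝ, cw n τ * (gw g * ∫⁻ z, wt (n - 1) z * h (mk τ (Real.sqrt τ • g) (z + vvT g)))
        = ∫⁻ z : Sym2 κ → ℝ, cw n τ * (gw g * (wt (n - 1) z * h (mk1 (τ, g, z)))) := by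
      intro g
      rw [← lintegral_const_mul' _ _ (gw_ne_top g), ← lintegral_const_mul' _ _ (cw_ne_top n τ)]
      rfl
    simp_rw [this]
    rw [lintegral_lintegral_swap]
    exact (hM.comp (measurable_const.prodMk measurable_id)).aemeasurable
  simp_rw [e1]
  rw [lintegral_lintegral_swap]
  · refine lintegral_congr fun z => ?_
    rw [← lintegral_const_mul' _ _ (hwt z)]
    refine lintegral_congr fun τ => ?_
    rw [← lintegral_const_mul' _ _ (cw_ne_top n τ), ← lintegral_const_mul' _ _ (hwt z)]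
    exact lintegral_congr fun g => by ring
  · have h6 : Measurable fun p : (ℝ × (Sym2 κ → ℝ)) × (κ → ℝ) =>
        cw n p.1.1 * (gw p.2 * (wt (n - 1) p.1.2 * h (mk1 (p.1.1, p.2, p.1.2)))) :=
      hM.comp (by fun_prop : Measurable fun p : (ℝ × (Sym2 κ → ℝ)) × (κ → ℝ) => (p.1.1, p.2, p.1.2))
    have h7 : Measurable fun p : ℝ × (Sym2 κ → ℝ) => ∫⁻ g : κ → ℝ,
        cw n p.1 * (gw g * (wt (n - 1) p.2 * h (mk1 (p.1, g, p.2)))) :=
      h6.lintegral_prod_right' (ν := (volume : Measure (κ → ℝ)))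
    exact h7.aemeasurable

variable {J : Type*} [Fintype J] {m : J → Type*} [∀ j, Fintype (m j)] [∀ j, DecidableEq (m j)]

lemma x00_mk1 (τ : ℝ) (g : κ → ℝ) (z : Sym2 κ → ℝ) : x00 (mk1 (τ, g, z)) = τ := x00_mk _ _ _

/-- the determinant factor along the first decomposition -/
lemma det_fac {m : Type*} [Fintype m] [DecidableEq m] {R : Matrix m m ℝ} (hR : R.PosDef)
    (C : Matrix m (Unit ⊕ κ) ℝ) {z : Sym2 κ → ℝ} (hz : (toM z).PosDef) :
    ∃ (β : ℝ) (z0 : m → ℝ) (B : Matrix m κ ℝ), 0 < β ∧ ∀ (τ : ℝ) (g : κ → ℝ), 0 ≤ τ →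
      (R + C * toM (mk1 (τ, g, z)) * Cᵀ).det = β + β * nq z0 B (Real.sqrt τ) g := by
  have hS : (R + resC C * toM z * (resC C)ᵀ).PosDef := by
    refine hR.add_posSemidef ?_
    have := hz.posSemidef.mul_mul_conjTranspose_same (resC C)
    rwa [conjTranspose_eq_transpose_of_trivial] at this
  obtain ⟨N, hN, hNS⟩ := pd_whiten hS
  set S := R + resC C * toM z * (resC C)ᵀ with hSdef
  refine ⟨S.det, N *ᵥ colC C, N * resC C, hS.det_pos, fun τ g hτ => ?_⟩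
  have hdet : N.det * S.det * N.det = 1 := by
    have := congrArg det hNS
    rwa [det_mul, det_mul, det_transpose, det_one] at this
  have e1 : R + C * toM (mk1 (τ, g, z)) * Cᵀ = S + vecMulVec (Real.sqrt τ • colC C + resC C *ᵥ g)
      (Real.sqrt τ • colC C + resC C *ᵥ g) := by
    unfold mk1
    simp only
    rw [conj_D1 R C hτ, hSdef]; abel
  set u := Real.sqrt τ • colC C + resC C *ᵥ g with hu
  have e2 : N * (S + vecMulVec u u) * Nᵀ = 1 + ((1:ℝ) • vecMulVec (N *ᵥ u) (N *ᵥ u)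
      + vecMulVec (N *ᵥ u) 0 + vecMulVec 0 (N *ᵥ u)) := by
    rw [Matrix.mul_add, Matrix.add_mul, hNS, mul_vecMulVec, vecMulVec_mul, vecMul_transpose]
    simp
  have e3 : (N * (S + vecMulVec u u) * Nᵀ).det = 1 + (N *ᵥ u) ⬝ᵥ (N *ᵥ u) := by
    rw [e2, detform]; simp
  rw [det_mul, det_mul, det_transpose] at e3
  have e4 : nq (N *ᵥ colC C) (N * resC C) (Real.sqrt τ) g = (N *ᵥ u) ⬝ᵥ (N *ᵥ u) := by
    unfold nq
    rw [hu, mulVec_add, mulVec_smul, mulVec_mulVec]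
  rw [e1, e4]
  have : (S + vecMulVec u u).det = S.det * (N.det * (S + vecMulVec u u).det * N.det) := by
    have h9 : S.det * (N.det * (S + vecMulVec u u).det * N.det)
        = (N.det * S.det * N.det) * (S + vecMulVec u u).det := by ring
    rw [h9, hdet, one_mul]
  rw [this, e3]; ring

/-- the inner Gaussian integral -/
noncomputable def Psi (R : ∀ j, Matrix (m j) (m j) ℝ) (C : ∀ j, Matrix (m j) (Unit ⊕ κ) ℝ) (δ νs : J → ℝ)
    (z : Sym2 κ → ℝ) (τ : ℝ) : ℝ≥0∞ :=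
  ∫⁻ g : κ → ℝ, gw g * ENNReal.ofReal (FF R C δ νs (toM (mk1 (τ, g, z))))

lemma measurable_Psi (R : ∀ j, Matrix (m j) (m j) ℝ) (C : ∀ j, Matrix (m j) (Unit ⊕ κ) ℝ) (δ νs : J → ℝ) :
    Measurable fun p : (Sym2 κ → ℝ) × ℝ => Psi R C δ νs p.1 p.2 := by
  have m1 := measurable_FF R C δ νs
  have : Measurable fun q : ((Sym2 κ → ℝ) × ℝ) × (κ → ℝ) =>
      gw q.2 * ENNReal.ofReal (FF R C δ νs (toM (mk1 (q.1.2, q.2, q.1.1)))) :=
    (measurable_gw.comp (measurable_snd : Measurable fun q : ((Sym2 κ → ℝ) × ℝ) × (κ → ℝ) => q.2)).mul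
      (m1.comp (measurable_mk1.comp (by fun_prop :
        Measurable fun q : ((Sym2 κ → ℝ) × ℝ) × (κ → ℝ) => (q.1.2, q.2, q.1.1))))
  exact this.lintegral_prod_right' (ν := (volume : Measure (κ → ℝ)))

lemma measurable_Psi' (R : ∀ j, Matrix (m j) (m j) ℝ) (C : ∀ j, Matrix (m j) (Unit ⊕ κ) ℝ) (δ νs : J → ℝ)
    (z : Sym2 κ → ℝ) : Measurable fun τ : ℝ => Psi R C δ νs z τ :=
  Measurable.of_uncurry_left (f := fun (z : Sym2 κ → ℝ) (τ : ℝ) => Psi R C δ νs z τ)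
    (measurable_Psi R C δ νs)

lemma Psi_mono [Subsingleton J] (R : ∀ j, Matrix (m j) (m j) ℝ) (C : ∀ j, Matrix (m j) (Unit ⊕ κ) ℝ)
    (δ νs : J → ℝ) (hR : ∀ j, (R j).PosDef) (hδ : ∀ j, 0 < δ j) (hνs : ∀ j, 0 ≤ νs j) (j0 : J)
    {z : Sym2 κ → ℝ} (hz : (toM z).PosDef) : MonotoneOn (Psi R C δ νs z) (Ioi 0) := by
  have huniq : ∀ j, j = j0 := fun j => Subsingleton.elim _ _
  have hFF : ∀ X : Matrix (Unit ⊕ κ) (Unit ⊕ κ) ℝ, FF R C δ νs X
      = ((R j0 + C j0 * X * (C j0)ᵀ).det + δ j0) ^ (νs j0) := by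
    intro X
    unfold FF
    rw [Finset.prod_eq_single j0 (fun j _ hj => absurd (huniq j) hj) (by simp)]
  obtain ⟨β, z0, B, hβ, hdet⟩ := det_fac (hR j0) (C j0) hz
  have hψ : ∀ τ ∈ Ioi (0:ℝ), Psi R C δ νs z τ
      = ∫⁻ g : κ → ℝ, gw g * ENNReal.ofReal (((β + δ j0) + β * nq z0 B (Real.sqrt τ) g) ^ (νs j0)) := by
    intro τ hτ
    unfold Psi
    refine lintegral_congr fun g => ?_
    rw [hFF, hdet τ g (le_of_lt hτ)]
    congr 3; ring
  intro a ha b hb hab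
  rw [hψ a ha, hψ b hb]
  exact anderson (by linarith [hδ j0]) hβ.le (hνs j0) z0 B (Real.sqrt_nonneg a) (Real.sqrt_le_sqrt hab)

theorem single_D1 [Subsingleton J] {n ν : ℝ} (hν : 0 ≤ ν)
    (R : ∀ j, Matrix (m j) (m j) ℝ) (C : ∀ j, Matrix (m j) (Unit ⊕ κ) ℝ) (δ νs : J → ℝ)
    (hR : ∀ j, (R j).PosDef) (hδ : ∀ j, 0 < δ j) (hνs : ∀ j, 0 ≤ νs j) : SS κ n ν R C δ νs := by
  rcases isEmpty_or_nonempty J with hJ | ⟨⟨j0⟩⟩
  · unfold SS FF
    simp [mul_comm]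
  unfold SS
  have m0 : Measurable fun x : Sym2 (Unit ⊕ κ) → ℝ => ENNReal.ofReal (x00 x ^ ν) :=
    ENNReal.measurable_ofReal.comp (measurable_x00.pow_const ν)
  have m1 := measurable_FF R C δ νs
  have m01 : Measurable fun x : Sym2 (Unit ⊕ κ) → ℝ =>
      ENNReal.ofReal (x00 x ^ ν) * ENNReal.ofReal (FF R C δ νs (toM x)) := m0.mul m1
  have hms := mass_step (κ := κ) n
  simp only [Real.rpow_zero, ENNReal.ofReal_one, mul_one] at hms
  have hPm := measurable_Psi R C δ νs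
  have hPz : ∀ z, Measurable fun τ : ℝ => Psi R C δ νs z τ := measurable_Psi' R C δ νs
  have hpow : Measurable fun τ : ℝ => ENNReal.ofReal (τ ^ ν) := by fun_prop
  have e0 : ∫⁻ x : Sym2 (Unit ⊕ κ) → ℝ, wt n x * ENNReal.ofReal (FF R C δ νs (toM x))
      = ∫⁻ z, wt (n - 1) z * ∫⁻ τ in Ioi (0:ℝ), cw n τ * Psi R C δ νs z τ :=
    lint_D1z (κ := κ) n m1
  have e1 : ∫⁻ x : Sym2 (Unit ⊕ κ) → ℝ, wt n x * (ENNReal.ofReal (x00 x ^ ν) *
      ENNReal.ofReal (FF R C δ νs (toM x)))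
      = ∫⁻ z, wt (n - 1) z * ∫⁻ τ in Ioi (0:ℝ), cw n τ * (ENNReal.ofReal (τ ^ ν) * Psi R C δ νs z τ) := by
    rw [lint_D1z (κ := κ) n m01]
    refine lintegral_congr fun z => ?_
    congr 1
    refine lintegral_congr fun τ => ?_
    congr 1
    unfold Psi
    rw [← lintegral_const_mul' _ _ ENNReal.ofReal_ne_top]
    refine lintegral_congr fun g => ?_
    rw [x00_mk1, mul_left_comm]
  rw [hms, moment_step n ν, e0, e1]
  have key : ∀ z, wt (n - 1) z * ((∫⁻ τ in Ioi (0:ℝ), cw n τ * ENNReal.ofReal (τ ^ ν)) *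
      ∫⁻ τ in Ioi (0:ℝ), cw n τ * Psi R C δ νs z τ) ≤ wt (n - 1) z * ((∫⁻ τ in Ioi (0:ℝ), cw n τ) *
        ∫⁻ τ in Ioi (0:ℝ), cw n τ * (ENNReal.ofReal (τ ^ ν) * Psi R C δ νs z τ)) := by
    intro z
    by_cases hz : (toM z).PosDef
    · refine mul_le_mul_right ?_ _
      have mf : MonotoneOn (fun τ : ℝ => ENNReal.ofReal (τ ^ ν)) (Ioi 0) := by
        intro a ha b _ hab
        have ha : 0 < a := ha
        exact ENNReal.ofReal_le_ofReal (Real.rpow_le_rpow ha.le hab hν)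
      exact cheb (measurable_cw n) hpow (hPz z) mf (Psi_mono R C δ νs hR hδ hνs j0 hz)
    · rw [wt_of_not hz, zero_mul, zero_mul]
  have hwm := measurable_wt (ι := κ) (n - 1)
  have hP0m : Measurable fun z : Sym2 κ → ℝ => ∫⁻ τ in Ioi (0:ℝ), cw n τ * Psi R C δ νs z τ := by
    have : Measurable fun p : (Sym2 κ → ℝ) × ℝ => cw n p.2 * Psi R C δ νs p.1 p.2 :=
      ((measurable_cw n).comp measurable_snd).mul hPm
    exact this.lintegral_prod_right' (ν := (volume : Measure ℝ).restrict (Ioi 0))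
  have hP1m : Measurable fun z : Sym2 κ → ℝ =>
      ∫⁻ τ in Ioi (0:ℝ), cw n τ * (ENNReal.ofReal (τ ^ ν) * Psi R C δ νs z τ) := by
    have : Measurable fun p : (Sym2 κ → ℝ) × ℝ => cw n p.2 * (ENNReal.ofReal (p.2 ^ ν) * Psi R C δ νs p.1 p.2) :=
      ((measurable_cw n).comp measurable_snd).mul ((hpow.comp measurable_snd).mul hPm)
    exact this.lintegral_prod_right' (ν := (volume : Measure ℝ).restrict (Ioi 0))
  set A0 := ∫⁻ τ in Ioi (0:ℝ), cw n τ with hA0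
  set A1 := ∫⁻ τ in Ioi (0:ℝ), cw n τ * ENNReal.ofReal (τ ^ ν) with hA1
  set G0 := ∫⁻ g : κ → ℝ, gw g with hG0
  set M := ∫⁻ z : Sym2 κ → ℝ, wt (n - 1) z with hM
  generalize hP0 : (fun z : Sym2 κ → ℝ => ∫⁻ τ in Ioi (0:ℝ), cw n τ * Psi R C δ νs z τ) = P0 at hP0m
  generalize hP1 : (fun z : Sym2 κ → ℝ =>
      ∫⁻ τ in Ioi (0:ℝ), cw n τ * (ENNReal.ofReal (τ ^ ν) * Psi R C δ νs z τ)) = P1 at hP1m
  have hP0' : ∀ z, ∫⁻ τ in Ioi (0:ℝ), cw n τ * Psi R C δ νs z τ = P0 z := fun z => congrFun hP0 z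
  have hP1' : ∀ z, ∫⁻ τ in Ioi (0:ℝ), cw n τ * (ENNReal.ofReal (τ ^ ν) * Psi R C δ νs z τ) = P1 z :=
    fun z => congrFun hP1 z
  simp only [hP0', hP1'] at key ⊢
  calc A1 * (G0 * M) * ∫⁻ z, wt (n - 1) z * P0 z
      = (G0 * M) * (A1 * ∫⁻ z, wt (n - 1) z * P0 z) := by ring
    _ = (G0 * M) * ∫⁻ z, wt (n - 1) z * (A1 * P0 z) := by
        have hwP : Measurable fun z => wt (n - 1) z * P0 z := hwm.mul hP0m
        rw [← lintegral_const_mul _ hwP]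
        congr 1
        exact lintegral_congr fun z => by ring
    _ ≤ (G0 * M) * ∫⁻ z, wt (n - 1) z * (A0 * P1 z) := mul_le_mul_right (lintegral_mono key) _
    _ = (G0 * M) * (A0 * ∫⁻ z, wt (n - 1) z * P1 z) := by
        have hwP : Measurable fun z => wt (n - 1) z * P1 z := hwm.mul hP1m
        rw [← lintegral_const_mul _ hwP]
        congr 1
        exact lintegral_congr fun z => by ring
    _ = A0 * (G0 * M) * ∫⁻ z, wt (n - 1) z * P1 z := by ring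

end Pool.Agent.V5helper59.Wish
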