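import Pool.Agent.V5helper59.Wish.D3

open MeasureTheory Set Matrix Filter
open scoped BigOperators Topology ENNReal

set_option linter.unusedSectionVars false
set_option maxHeartbeats 400000

namespace Pool.Agent.V5helper59.Wish

variable {κ : Type*} [Fintype κ] [DecidableEq κ]
variable {J : Type*} [Fintype J] {m : J → Type*} [∀ j, Fintype (m j)] [∀ j, DecidableEq (m j)]

/-- a principal minor -/
noncomputable def mnr {ι a : Type*} [Fintype a] [DecidableEq a] (f : a → ι) (x : Sym2 ι → ℝ) : ℝ :=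
  ((toM x).submatrix f f).det

lemma measurable_mnr {ι a : Type*} [Fintype ι] [Fintype a] [DecidableEq a] (f : a → ι) (ν : ℝ) :
    Measurable fun x : Sym2 ι → ℝ => ENNReal.ofReal (mnr f x ^ ν) := by
  refine ENNReal.measurable_ofReal.comp (Measurable.pow_const ?_ ν)
  have : Continuous fun x : Sym2 ι → ℝ => mnr f x := (continuous_toM.matrix_submatrix f f).matrix_det
  exact this.measurable

lemma mnr_pos {ι a : Type*} [Fintype ι] [DecidableEq ι] [Fintype a] [DecidableEq a] {f : a → ι}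
    (hf : Function.Injective f) {x : Sym2 ι → ℝ} (hx : (toM x).PosDef) : 0 < mnr f x :=
  (hx.submatrix hf).det_pos

lemma mnr_equiv {ι a b : Type*} [Fintype a] [DecidableEq a] [Fintype b] [DecidableEq b] (e : a ≃ b)
    (f : b → ι) (x : Sym2 ι → ℝ) : mnr (f ∘ e) x = mnr f x := by
  unfold mnr
  rw [← submatrix_submatrix, det_submatrix_equiv_self]

lemma mnr_relab {ι ι' a : Type*} [Fintype ι] [DecidableEq ι] [Fintype ι'] [DecidableEq ι']
    [Fintype a] [DecidableEq a] (e : ι ≃ ι') (f : a → ι') (x : Sym2 ι → ℝ) :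
    mnr f (relab e x) = mnr (e.symm ∘ f) x := by
  unfold mnr
  rw [toM_relab, submatrix_submatrix]

lemma FF_relab {ι ι' : Type*} [Fintype ι] [DecidableEq ι] [Fintype ι'] [DecidableEq ι'] (e : ι ≃ ι')
    (R : ∀ j, Matrix (m j) (m j) ℝ) (C : ∀ j, Matrix (m j) ι' ℝ) (δ νs : J → ℝ) (x : Sym2 ι → ℝ) :
    FF R C δ νs (toM (relab e x)) = FF R (fun j => (C j).submatrix id e) δ νs (toM x) := by
  unfold FF
  refine Finset.prod_congr rfl fun j _ => ?_
  congr 3
  have e1 : toM x = (toM (relab e x)).submatrix e e := by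
    rw [toM_relab, submatrix_submatrix]; simp
  conv_rhs => rw [e1]
  rw [submatrix_mul_equiv, transpose_submatrix, submatrix_mul_equiv, submatrix_id_id]

/-- the block embedding -/
def bI (a : ℕ) : Unit ⊕ Fin a → Unit ⊕ (Fin a ⊕ κ) := Sum.map id Sum.inl

lemma mnr_mk1 (a : ℕ) {τ : ℝ} (hτ : 0 < τ) (g : Fin a ⊕ κ → ℝ) (z : Sym2 (Fin a ⊕ κ) → ℝ) :
    mnr (bI a) (mk1 (τ, g, z)) = τ * mnr Sum.inl z := by
  unfold mnr mk1
  simp only
  have hz : toM (z + vvT g) = toM z + vecMulVec g g := by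
    have := toM_add_vvT z 1 g
    rwa [one_smul, one_smul] at this
  have e1 : (toM (mk τ (Real.sqrt τ • g) (z + vvT g))).submatrix (bI a) (bI a)
      = blk τ (fun i => Real.sqrt τ * g (Sum.inl i))
        ((toM z).submatrix Sum.inl Sum.inl + vecMulVec (fun i => g (Sum.inl i)) (fun i => g (Sum.inl i))) := by
    rw [toM_mk, hz]
    ext i j
    rcases i with i | i <;> rcases j with j | j <;> simp [bI, blk, vecMulVec_apply]
  rw [e1, det_blk1 hτ.ne']
  congr 2
  have hss : Real.sqrt τ * Real.sqrt τ = τ := Real.mul_self_sqrt hτ.le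
  ext i j
  simp only [Matrix.sub_apply, Matrix.add_apply, Matrix.smul_apply, vecMulVec_apply, smul_eq_mul]
  have : τ⁻¹ * (Real.sqrt τ * g (Sum.inl i) * (Real.sqrt τ * g (Sum.inl j)))
      = g (Sum.inl i) * g (Sum.inl j) := by
    calc τ⁻¹ * (Real.sqrt τ * g (Sum.inl i) * (Real.sqrt τ * g (Sum.inl j)))
        = τ⁻¹ * (Real.sqrt τ * Real.sqrt τ) * (g (Sum.inl i) * g (Sum.inl j)) := by ring
      _ = _ := by rw [hss, inv_mul_cancel₀ hτ.ne', one_mul]
  rw [this]; ring

lemma FF_mk1 (R : ∀ j, Matrix (m j) (m j) ℝ) (C : ∀ j, Matrix (m j) (Unit ⊕ κ) ℝ) (δ νs : J → ℝ)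
    {τ : ℝ} (hτ : 0 ≤ τ) (g : κ → ℝ) (z : Sym2 κ → ℝ) :
    FF R C δ νs (toM (mk1 (τ, g, z)))
      = FF (fun j => R j + vecMulVec (Real.sqrt τ • colC (C j) + resC (C j) *ᵥ g)
          (Real.sqrt τ • colC (C j) + resC (C j) *ᵥ g)) (fun j => resC (C j)) δ νs (toM z) := by
  unfold FF mk1
  refine Finset.prod_congr rfl fun j _ => ?_
  simp only
  rw [conj_D1 (R j) (C j) hτ]

/-- **Block theorem.** -/
theorem block (δ νs : J → ℝ) (hδ : ∀ j, 0 < δ j) (hνs : ∀ j, 0 ≤ νs j) {ν : ℝ} (hν : 0 ≤ ν) :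
    ∀ (a : ℕ) (n : ℝ), (a : ℝ) + Fintype.card κ - 1 < n →
      (Subsingleton J ∨ ∀ j, (Fintype.card (m j) : ℝ) + a ≤ n) →
      ∃ c : ℝ≥0∞, c ≠ ⊤ ∧
        (∫⁻ x : Sym2 (Fin a ⊕ κ) → ℝ, wt n x * ENNReal.ofReal (mnr Sum.inl x ^ ν))
          = c * ∫⁻ x : Sym2 (Fin a ⊕ κ) → ℝ, wt n x ∧
        ∀ (R : ∀ j, Matrix (m j) (m j) ℝ) (C : ∀ j, Matrix (m j) (Fin a ⊕ κ) ℝ), (∀ j, (R j).PosDef) →
          c * (∫⁻ x : Sym2 (Fin a ⊕ κ) → ℝ, wt n x * ENNReal.ofReal (FF R C δ νs (toM x)))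
            ≤ ∫⁻ x : Sym2 (Fin a ⊕ κ) → ℝ, wt n x *
              (ENNReal.ofReal (mnr Sum.inl x ^ ν) * ENNReal.ofReal (FF R C δ νs (toM x))) := by
  intro a
  induction a with
  | zero =>
    intro n _ _
    have h0 : ∀ x : Sym2 (Fin 0 ⊕ κ) → ℝ, mnr Sum.inl x = 1 := by
      intro x; unfold mnr; exact det_isEmpty
    refine ⟨1, ENNReal.one_ne_top, ?_, ?_⟩
    · simp [h0]
    · intro R C _
      simp [h0]
  | succ a ih =>
    intro n hn hJ
    push_cast at hn hJ
    obtain ⟨c, hct, hc1, hc2⟩ := ih (n - 1) (by linarith) (by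
      rcases hJ with hJ | hJ
      · exact Or.inl hJ
      · exact Or.inr fun j => by have := hJ j; linarith)
    have hcard : (Fintype.card (Fin a ⊕ κ) : ℝ) = a + Fintype.card κ := by
      simp [Fintype.card_sum]
    set e1 : Unit ⊕ Fin a ≃ Fin (a + 1) := Fintype.equivOfCardEq (by simp [add_comm]) with he1
    set e : Unit ⊕ (Fin a ⊕ κ) ≃ Fin (a + 1) ⊕ κ :=
      (Equiv.sumAssoc Unit (Fin a) κ).symm.trans (Equiv.sumCongr e1 (Equiv.refl κ)) with he
    have hmn : ∀ x : Sym2 (Unit ⊕ (Fin a ⊕ κ)) → ℝ, mnr Sum.inl (relab e x) = mnr (bI a) x := by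
      intro x
      rw [mnr_relab, ← mnr_equiv e1.symm (bI a) x]
      congr 1
    have hn1 : 0 < n := by
      have : (0:ℝ) ≤ a := by positivity
      have : (0:ℝ) ≤ Fintype.card κ := by positivity
      linarith
    -- mass
    have hmass := mass (ι := Unit ⊕ (Fin a ⊕ κ)) (n := n) (by
      simp only [Fintype.card_sum, Fintype.card_unit, Fintype.card_fin]; push_cast; linarith)
    set T : ℝ≥0∞ := ∫⁻ x : Sym2 (Unit ⊕ (Fin a ⊕ κ)) → ℝ, wt n x with hT
    set T1 : ℝ≥0∞ := ∫⁻ x : Sym2 (Unit ⊕ (Fin a ⊕ κ)) → ℝ, wt n x * ENNReal.ofReal (x00 x ^ ν) with hT1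
    have hT1t : T1 ≠ ⊤ := by
      rw [hT1, moment_step]
      have h2 := mass (ι := Fin a ⊕ κ) (n := n - 1) (by rw [hcard]; linarith)
      exact ENNReal.mul_ne_top (cmass hn1 hν).2 (ENNReal.mul_ne_top gmass.2 h2.2)
    have hm0 : Measurable fun x : Sym2 (Unit ⊕ (Fin a ⊕ κ)) → ℝ => ENNReal.ofReal (x00 x ^ ν) :=
      ENNReal.measurable_ofReal.comp (measurable_x00.pow_const ν)
    have hmb := measurable_mnr (bI (κ := κ) a) ν
    -- splitting the minor
    have hsplit : ∀ (τ : ℝ), 0 < τ → ∀ (g : Fin a ⊕ κ → ℝ) (z : Sym2 (Fin a ⊕ κ) → ℝ),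
        wt (n - 1) z * ENNReal.ofReal (mnr (bI a) (mk1 (τ, g, z)) ^ ν)
          = ENNReal.ofReal (τ ^ ν) * (wt (n - 1) z * ENNReal.ofReal (mnr Sum.inl z ^ ν)) := by
      intro τ hτ g z
      by_cases hz : (toM z).PosDef
      · have hp := mnr_pos (f := (Sum.inl : Fin a → Fin a ⊕ κ)) Sum.inl_injective hz
        rw [mnr_mk1 a hτ, Real.mul_rpow hτ.le hp.le, ENNReal.ofReal_mul (by positivity)]
        ring
      · rw [wt_of_not hz]; simp
    refine ⟨c * (T1 / T), ENNReal.mul_ne_top hct (ENNReal.div_ne_top hT1t hmass.1), ?_, ?_⟩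
    · -- the moment
      rw [lint_relab e n (measurable_mnr Sum.inl ν)]
      have l0 := lint_relab e n (h := fun _ => 1) measurable_const
      simp only [mul_one] at l0
      rw [l0, ← hT]
      simp only [hmn]
      have l1 : ∫⁻ x : Sym2 (Unit ⊕ (Fin a ⊕ κ)) → ℝ, wt n x * ENNReal.ofReal (mnr (bI a) x ^ ν) = c * T1 := by
        rw [lint_D1' n hmb, hT1, lint_D1' n hm0, ← lintegral_const_mul' _ _ hct]
        refine setLIntegral_congr_fun measurableSet_Ioi fun τ hτ => ?_
        have hτ : 0 < τ := hτ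
        rw [mul_left_comm c]
        congr 1
        rw [← lintegral_const_mul' _ _ hct]
        refine lintegral_congr fun g => ?_
        rw [mul_left_comm c]
        congr 1
        have e2 : ∀ z : Sym2 (Fin a ⊕ κ) → ℝ,
            wt (n - 1) z * ENNReal.ofReal (mnr (bI a) (mk τ (Real.sqrt τ • g) (z + vvT g)) ^ ν)
            = ENNReal.ofReal (τ ^ ν) * (wt (n - 1) z * ENNReal.ofReal (mnr Sum.inl z ^ ν)) :=
          fun z => hsplit τ hτ g z
        simp only [e2, x00_mk]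
        rw [lintegral_const_mul' _ _ ENNReal.ofReal_ne_top, hc1, lintegral_mul_const' _ _ ENNReal.ofReal_ne_top]
        ring
      rw [l1, mul_assoc, ENNReal.div_mul_cancel hmass.1 hmass.2]
    · intro R C hR
      set C' : ∀ j, Matrix (m j) (Unit ⊕ (Fin a ⊕ κ)) ℝ := fun j => (C j).submatrix id e with hC'
      have hF : ∀ x : Sym2 (Unit ⊕ (Fin a ⊕ κ)) → ℝ, FF R C δ νs (toM (relab e x)) = FF R C' δ νs (toM x) :=
        fun x => FF_relab e R C δ νs x
      rw [lint_relab e n (measurable_FF R C δ νs),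
        lint_relab e n (h := fun x => ENNReal.ofReal (mnr Sum.inl x ^ ν) * ENNReal.ofReal (FF R C δ νs (toM x)))
          ((measurable_mnr Sum.inl ν).mul (measurable_FF R C δ νs))]
      simp only [hmn, hF]
      have hmF := measurable_FF R C' δ νs
      have hSS : SS (Fin a ⊕ κ) n ν R C' δ νs := by
        rcases hJ with hJ | hJ
        · exact single_D1 hν R C' δ νs hR hδ hνs
        · refine single_D2 hν (by rw [hcard]; linarith) R C' δ νs hR hδ hνs fun j => ?_
          have := hJ j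
          have h0 : (0:ℝ) ≤ a := by positivity
          linarith
      unfold SS at hSS
      rw [← hT, ← hT1] at hSS
      -- first: block step
      have step1 : c * (∫⁻ x : Sym2 (Unit ⊕ (Fin a ⊕ κ)) → ℝ, wt n x *
          (ENNReal.ofReal (x00 x ^ ν) * ENNReal.ofReal (FF R C' δ νs (toM x))))
          ≤ ∫⁻ x : Sym2 (Unit ⊕ (Fin a ⊕ κ)) → ℝ, wt n x *
            (ENNReal.ofReal (mnr (bI a) x ^ ν) * ENNReal.ofReal (FF R C' δ νs (toM x))) := by
        rw [lint_D1' n (h := fun x => ENNReal.ofReal (x00 x ^ ν) * ENNReal.ofReal (FF R C' δ νs (toM x)))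
          (hm0.mul hmF), lint_D1' n (h := fun x => ENNReal.ofReal (mnr (bI a) x ^ ν) *
            ENNReal.ofReal (FF R C' δ νs (toM x))) (hmb.mul hmF), ← lintegral_const_mul' _ _ hct]
        refine setLIntegral_mono' measurableSet_Ioi fun τ hτ => ?_
        have hτ : 0 < τ := hτ
        rw [mul_left_comm c]
        refine mul_le_mul_right ?_ _
        rw [← lintegral_const_mul' _ _ hct]
        refine lintegral_mono fun g => ?_
        simp only
        rw [mul_left_comm c]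
        refine mul_le_mul_right ?_ _
        have e3 : ∀ z : Sym2 (Fin a ⊕ κ) → ℝ,
            FF R C' δ νs (toM (mk τ (Real.sqrt τ • g) (z + vvT g)))
              = FF (fun j => R j + vecMulVec (Real.sqrt τ • colC (C' j) + resC (C' j) *ᵥ g)
                (Real.sqrt τ • colC (C' j) + resC (C' j) *ᵥ g)) (fun j => resC (C' j)) δ νs (toM z) :=
          fun z => FF_mk1 R C' δ νs hτ.le g z
        simp only [e3, x00_mk]
        have hR' : ∀ j, (R j + vecMulVec (Real.sqrt τ • colC (C' j) + resC (C' j) *ᵥ g)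
            (Real.sqrt τ • colC (C' j) + resC (C' j) *ᵥ g)).PosDef := by
          intro j
          refine (hR j).add_posSemidef ?_
          have := posSemidef_vecMulVec_self_star (Real.sqrt τ • colC (C' j) + resC (C' j) *ᵥ g)
          simpa only [star_trivial] using this
        have h5 := hc2 _ (fun j => resC (C' j)) hR'
        generalize hFz : (fun z : Sym2 (Fin a ⊕ κ) → ℝ => ENNReal.ofReal (FF (fun j => R j + vecMulVec
          (Real.sqrt τ • colC (C' j) + resC (C' j) *ᵥ g)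
                (Real.sqrt τ • colC (C' j) + resC (C' j) *ᵥ g)) (fun j => resC (C' j)) δ νs (toM z))) = Fz
        have hFz' := fun z => congrFun hFz z
        simp only [hFz'] at h5 ⊢
        have e4 : ∫⁻ z, wt (n - 1) z * (ENNReal.ofReal (τ ^ ν) * Fz z)
            = ENNReal.ofReal (τ ^ ν) * ∫⁻ z, wt (n - 1) z * Fz z := by
          rw [← lintegral_const_mul' _ _ ENNReal.ofReal_ne_top]
          exact lintegral_congr fun z => by ring
        have e5 : ∫⁻ z, wt (n - 1) z * (ENNReal.ofReal (mnr (bI a) (mk τ (Real.sqrt τ • g) (z + vvT g)) ^ ν) * Fz z)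
            = ENNReal.ofReal (τ ^ ν) * ∫⁻ z, wt (n - 1) z * (ENNReal.ofReal (mnr Sum.inl z ^ ν) * Fz z) := by
          rw [← lintegral_const_mul' _ _ ENNReal.ofReal_ne_top]
          refine lintegral_congr fun z => ?_
          have := hsplit τ hτ g z
          rw [← mul_assoc]
          have h6 : wt (n - 1) z * ENNReal.ofReal (mnr (bI a) (mk τ (Real.sqrt τ • g) (z + vvT g)) ^ ν)
              = ENNReal.ofReal (τ ^ ν) * (wt (n - 1) z * ENNReal.ofReal (mnr Sum.inl z ^ ν)) := this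
          rw [h6]; ring
        rw [e4, e5, mul_left_comm c]
        exact mul_le_mul_right h5 _
      refine le_trans ?_ step1
      rw [mul_assoc]
      refine mul_le_mul_right ?_ _
      generalize (∫⁻ x : Sym2 (Unit ⊕ (Fin a ⊕ κ)) → ℝ, wt n x *
          (ENNReal.ofReal (x00 x ^ ν) * ENNReal.ofReal (FF R C' δ νs (toM x)))) = X1 at hSS ⊢
      generalize (∫⁻ x : Sym2 (Unit ⊕ (Fin a ⊕ κ)) → ℝ, wt n x * ENNReal.ofReal (FF R C' δ νs (toM x))) = X0
        at hSS ⊢
      rw [ENNReal.div_eq_inv_mul, mul_assoc]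
      calc T⁻¹ * (T1 * X0) ≤ T⁻¹ * (T * X1) := mul_le_mul_right hSS _
        _ = X1 := by rw [← mul_assoc, ENNReal.inv_mul_cancel hmass.1 hmass.2, one_mul]

end Pool.Agent.V5helper59.Wish
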