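import Pool.Agent.V5helper59.Wish.C4

open MeasureTheory Set Matrix Filter
open scoped BigOperators Topology ENNReal

set_option linter.unusedSectionVars false
set_option maxHeartbeats 400000

namespace Pool.Agent.V5helper59.Wish

lemma toM_smul {ι : Type*} (c : ℝ) (x : Sym2 ι → ℝ) : toM (c • x) = c • toM x := by ext; simp

variable {ι : Type*} [Fintype ι] [DecidableEq ι]

lemma cong_sym (A : Matrix ι ι ℝ) (x : Sym2 ι → ℝ) : (A * toM x * Aᵀ)ᵀ = A * toM x * Aᵀ := by
  rw [transpose_mul, transpose_mul, transpose_transpose, toM_transpose, Matrix.mul_assoc]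

/-- the congruence `X ↦ A X Aᵀ` in coordinates -/
noncomputable def cong (A : Matrix ι ι ℝ) : (Sym2 ι → ℝ) →ₗ[ℝ] (Sym2 ι → ℝ) where
  toFun x := ofM (A * toM x * Aᵀ) (cong_sym A x)
  map_add' x y := toM_injective (by
    simp only [toM_ofM, toM_add, Matrix.mul_add, Matrix.add_mul])
  map_smul' c x := toM_injective (by
    simp only [toM_ofM, RingHom.id_apply, toM_smul, Matrix.mul_smul, Matrix.smul_mul])

lemma toM_cong (A : Matrix ι ι ℝ) (x : Sym2 ι → ℝ) : toM (cong A x) = A * toM x * Aᵀ :=
  toM_ofM _ (cong_sym A x)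

lemma cong_mul (A B : Matrix ι ι ℝ) : cong (A * B) = (cong A) ∘ₗ (cong B) := by
  refine LinearMap.ext fun x => toM_injective ?_
  rw [LinearMap.comp_apply, toM_cong, toM_cong, toM_cong, transpose_mul]
  simp only [Matrix.mul_assoc]

lemma cong_one : cong (1 : Matrix ι ι ℝ) = LinearMap.id := by
  refine LinearMap.ext fun x => toM_injective ?_
  rw [toM_cong]; simp

lemma prod_empty (ι : Type*) [Fintype ι] [IsEmpty ι] (D : ι → ℝ) :
    ∏ p : Sym2 ι, vvT D p = (∏ i, D i) ^ (Fintype.card ι + 1) := by
  have : IsEmpty (Sym2 ι) := by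
    constructor; intro p; induction p with | _ i j => exact isEmptyElim i
  simp

lemma prod_aux : ∀ (q : ℕ) (ι : Type) [Fintype ι] [DecidableEq ι], Fintype.card ι = q → ∀ D : ι → ℝ,
    ∏ p : Sym2 ι, vvT D p = (∏ i, D i) ^ (q + 1) := by
  intro q
  induction q with
  | zero =>
    intro ι _ _ hq D
    have : IsEmpty ι := Fintype.card_eq_zero_iff.1 hq
    have h := prod_empty ι D
    rwa [hq] at h
  | succ q ih =>
    intro ι _ _ hq D
    have e : Unit ⊕ Fin q ≃ ι := Fintype.equivOfCardEq (by simp [hq, add_comm])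
    have h1 : ∏ p : Sym2 ι, vvT D p = ∏ p : Sym2 (Unit ⊕ Fin q), vvT (D ∘ e) p := by
      rw [← Equiv.prod_comp (s2e e)]
      refine Finset.prod_congr rfl fun p _ => ?_
      induction p with
      | _ i j => simp [s2e, vvT]
    have h2 : ∏ i, D i = D (e (Sum.inl ())) * ∏ k : Fin q, D (e (Sum.inr k)) := by
      rw [← Equiv.prod_comp e, Fintype.prod_sum_type]; simp
    rw [h1, h2, ← Equiv.prod_comp eqv, Fintype.prod_sum_type, Fintype.prod_sum_type]
    have h3 : ∀ z : Sym2 (Fin q), vvT (D ∘ e) (eqv (Sum.inr (Sum.inr z))) = vvT (fun k => D (e (Sum.inr k))) z := by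
      intro z
      induction z with
      | _ i j => simp [eqv, eqFun, vvT]
    have h4 : ∀ k : Fin q, vvT (D ∘ e) (eqv (Sum.inr (Sum.inl k))) = D (e (Sum.inl ())) * D (e (Sum.inr k)) := by
      intro k; simp [eqv, eqFun, vvT]
    have h5 : ∀ u : Unit, vvT (D ∘ e) (eqv (Sum.inl u)) = D (e (Sum.inl ())) * D (e (Sum.inl ())) := by
      intro u; simp [eqv, eqFun, vvT]
    simp only [h3, h4, h5]
    rw [ih (Fin q) (Fintype.card_fin q)]
    simp only [Finset.prod_mul_distrib, Finset.univ_unique, Finset.prod_const, Finset.card_univ,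
      Fintype.card_fin, Finset.card_singleton, pow_one]
    ring

lemma prod_vvT (D : ι → ℝ) : ∏ p : Sym2 ι, vvT D p = (∏ i, D i) ^ (Fintype.card ι + 1) := by
  have e : Fin (Fintype.card ι) ≃ ι := (Fintype.equivFin ι).symm
  have h1 : ∏ p : Sym2 ι, vvT D p = ∏ p : Sym2 (Fin (Fintype.card ι)), vvT (D ∘ e) p := by
    rw [← Equiv.prod_comp (s2e e)]
    refine Finset.prod_congr rfl fun p _ => ?_
    induction p with
    | _ i j => simp [s2e, vvT]
  rw [h1, prod_aux _ _ (Fintype.card_fin _)]
  congr 1
  exact Equiv.prod_comp e D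

lemma det_cong_diag (D : ι → ℝ) : LinearMap.det (cong (diagonal D)) = (diagonal D).det ^ (Fintype.card ι + 1) := by
  have e : cong (diagonal D) = toLin' (diagonal (vvT D)) := by
    refine LinearMap.ext fun x => toM_injective ?_
    rw [toM_cong]
    ext i j
    rw [diagonal_transpose, mul_diagonal, diagonal_mul, toLin'_apply, toM_apply, toM_apply, mulVec_diagonal]
    simp [vvT]; ring
  rw [e, LinearMap.det_toLin', det_diagonal, det_diagonal, prod_vvT]

lemma det_cong_transv (i j : ι) (hij : i ≠ j) (c : ℝ) : LinearMap.det (cong (transvection i j c)) = 1 := by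
  set f : Matrix ι ι ℝ → ℝ := fun A => LinearMap.det (cong A) with hf
  have fmul : ∀ A B, f (A * B) = f A * f B := by
    intro A B
    simp only [hf, cong_mul, LinearMap.det_comp]
  have f1 : f 1 = 1 := by simp only [hf, cong_one, LinearMap.det_id]
  have h2 : transvection i j c * transvection i j c = transvection i j (c + c) :=
    transvection_mul_transvection_same i j hij c c
  set D : ι → ℝ := Function.update (fun _ => 1) i 2 with hD
  set E : ι → ℝ := Function.update (fun _ => 1) i (1/2) with hE
  have hDE : diagonal D * diagonal E = 1 := by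
    rw [diagonal_mul_diagonal, ← diagonal_one]
    congr 1
    funext k
    by_cases hk : k = i
    · subst hk; simp [hD, hE]
    · simp [hD, hE, hk]
  have h3 : diagonal D * transvection i j c * diagonal E = transvection i j (c + c) := by
    unfold transvection
    rw [Matrix.mul_add, Matrix.add_mul, Matrix.mul_one, hDE]
    congr 1
    ext k l
    rw [mul_diagonal, diagonal_mul, single_apply, single_apply]
    by_cases h : i = k ∧ j = l
    · obtain ⟨rfl, rfl⟩ := h
      simp [hD, hE, hij.symm]; ring
    · simp [h]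
  have h4 : f (transvection i j (c + c)) = f (transvection i j c) := by
    rw [← h3, fmul, fmul, mul_comm (f (diagonal D)), mul_assoc, ← fmul, hDE, f1, mul_one]
  have h5 : f (transvection i j (c + c)) = f (transvection i j c) * f (transvection i j c) := by
    rw [← h2, fmul]
  have h6 : f (transvection i j c) ≠ 0 := by
    intro h0
    have : f (transvection i j c * transvection i j (-c)) = 1 := by
      rw [transvection_mul_transvection_same i j hij, add_neg_cancel, transvection_zero, f1]
    rw [fmul, h0, zero_mul] at this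
    exact zero_ne_one this
  have h7 : f (transvection i j c) * f (transvection i j c) = f (transvection i j c) * 1 := by
    rw [← h5, h4, mul_one]
  exact mul_left_cancel₀ h6 h7

theorem det_cong (A : Matrix ι ι ℝ) (hA : A.det ≠ 0) :
    LinearMap.det (cong A) = A.det ^ (Fintype.card ι + 1) := by
  refine diagonal_transvection_induction_of_det_ne_zero
    (fun A => LinearMap.det (cong A) = A.det ^ (Fintype.card ι + 1)) A hA ?_ ?_ ?_
  · intro D _
    exact det_cong_diag D
  · intro t
    rw [TransvectionStruct.det, one_pow]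
    exact det_cong_transv t.i t.j t.hij t.c
  · intro A B _ _ h1 h2
    rw [cong_mul, LinearMap.det_comp, h1, h2, det_mul, mul_pow]

/-- change of variables `X = A Y Aᵀ` -/
theorem lint_cong {A : Matrix ι ι ℝ} (hA : A.det ≠ 0) {h : (Sym2 ι → ℝ) → ℝ≥0∞} (hh : Measurable h) :
    ∫⁻ x, h x = ENNReal.ofReal (|A.det| ^ (Fintype.card ι + 1)) * ∫⁻ y, h (cong A y) := by
  have hd : LinearMap.det (cong A) ≠ 0 := by rw [det_cong A hA]; exact pow_ne_zero _ hA
  have h1 := Measure.map_linearMap_addHaar_eq_smul_addHaar (volume : Measure (Sym2 ι → ℝ)) hd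
  have hm : Measurable (cong A) := (LinearMap.continuous_on_pi _).measurable
  have h2 : ∫⁻ y, h (cong A y) = ENNReal.ofReal |(LinearMap.det (cong A))⁻¹| * ∫⁻ x, h x := by
    have h3 := lintegral_map (μ := volume) hh hm
    rw [h1, lintegral_smul_measure] at h3
    simp only [smul_eq_mul] at h3
    exact h3.symm
  rw [h2, ← mul_assoc, ← ENNReal.ofReal_mul (by positivity), det_cong A hA, abs_inv, abs_pow,
    mul_inv_cancel₀ (pow_ne_zero _ (abs_ne_zero.2 hA))]
  simp

end Pool.Agent.V5helper59.Wish
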