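import Pool.Agent.V5helper59.Wish.D4
import Pool.Agent.V5helper59.Wish.E1

open MeasureTheory Set Matrix Filter
open scoped BigOperators Topology ENNReal

set_option linter.unusedSectionVars false
set_option maxHeartbeats 400000

namespace Pool.Agent.V5helper59.Wish

variable {ι : Type*} [Fintype ι] [DecidableEq ι]

lemma trace_nonneg' {X : Matrix ι ι ℝ} (h : X.PosSemidef) : 0 ≤ X.trace :=
  Finset.sum_nonneg fun i _ => by simpa using h.diag_nonneg (i := i)

lemma entry_le_trace {X : Matrix ι ι ℝ} (h : X.PosSemidef) (i j : ι) : |X i j| ≤ X.trace := by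
  have hd : ∀ i, 0 ≤ X i i := fun i => by simpa using h.diag_nonneg (i := i)
  have hs : X j i = X i j := by
    have := h.1
    rw [IsHermitian, conjTranspose_eq_transpose_of_trivial] at this
    have := congrFun (congrFun this i) j
    simpa using this
  have hle : ∀ i, X i i ≤ X.trace := fun i =>
    Finset.single_le_sum (f := fun i => X i i) (fun i _ => hd i) (Finset.mem_univ i)
  have h1 : 0 ≤ X i i + X j j + 2 * X i j := by
    have := h.dotProduct_mulVec_nonneg (Pi.single i 1 + Pi.single j 1)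
    simp only [star_trivial, mulVec_add, mulVec_single_one, add_dotProduct, dotProduct_add,
      single_one_dotProduct, col_apply] at this
    linarith
  have h2 : 0 ≤ X i i + X j j - 2 * X i j := by
    have := h.dotProduct_mulVec_nonneg (Pi.single i 1 - Pi.single j 1)
    simp only [star_trivial, mulVec_sub, mulVec_single_one, sub_dotProduct, dotProduct_sub,
      single_one_dotProduct, col_apply] at this
    linarith
  rw [abs_le]
  constructor <;> linarith [hle i, hle j]

lemma poly_exp (M : ℕ) {η : ℝ} (hη : 0 < η) : ∃ K : ℝ, 0 < K ∧ ∀ t : ℝ, 0 ≤ t → (1 + t) ^ M ≤ K * Real.exp (η * t) := by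
  set η' : ℝ := η / (M + 1) with hη'
  have h0 : 0 < η' := by positivity
  refine ⟨(1 + 1 / η') ^ M, by positivity, fun t ht => ?_⟩
  have h1 : 1 + t ≤ (1 + 1 / η') * Real.exp (η' * t) := by
    have h2 := Real.add_one_le_exp (η' * t)
    have h3 : (1 + 1 / η') * (1 + η' * t) = 1 + t + η' * t + 1 / η' := by field_simp; ring
    have h4 : (1 + 1 / η') * (1 + η' * t) ≤ (1 + 1 / η') * Real.exp (η' * t) :=
      mul_le_mul_of_nonneg_left (by linarith) (by positivity)
    have h5 : 0 ≤ η' * t := by positivity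
    have h6 : 0 < 1 / η' := by positivity
    linarith
  calc (1 + t) ^ M ≤ ((1 + 1 / η') * Real.exp (η' * t)) ^ M := by gcongr
    _ = (1 + 1 / η') ^ M * Real.exp (M * (η' * t)) := by rw [mul_pow, ← Real.exp_nat_mul]
    _ ≤ (1 + 1 / η') ^ M * Real.exp (η * t) := by
      refine mul_le_mul_of_nonneg_left (Real.exp_le_exp.2 ?_) (by positivity)
      have : (M : ℝ) * η' ≤ η := by
        rw [hη', mul_div_assoc', div_le_iff₀ (by positivity)]
        nlinarith
      nlinarith

section fac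
variable {m : Type*} [Fintype m] [DecidableEq m]

lemma conj_entry (C : Matrix m ι ℝ) : ∃ K : ℝ, 0 ≤ K ∧ ∀ (X : Matrix ι ι ℝ), X.PosSemidef → ∀ i j,
    |(C * X * Cᵀ) i j| ≤ K * X.trace := by
  refine ⟨∑ i, ∑ j, ∑ k, ∑ l, |C i k| * |C j l|, by positivity, fun X hX i j => ?_⟩
  have ht := trace_nonneg' hX
  have h1 : |(C * X * Cᵀ) i j| ≤ ∑ k, ∑ l, (|C i k| * |C j l|) * X.trace := by
    have e : (C * X * Cᵀ) i j = ∑ k, ∑ l, C i k * X k l * C j l := by
      simp only [Matrix.mul_apply, transpose_apply, Finset.sum_mul]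
      rw [Finset.sum_comm]
    rw [e]
    refine (Finset.abs_sum_le_sum_abs _ _).trans (Finset.sum_le_sum fun k _ => ?_)
    refine (Finset.abs_sum_le_sum_abs _ _).trans (Finset.sum_le_sum fun l _ => ?_)
    rw [abs_mul, abs_mul]
    have := mul_le_mul_of_nonneg_left (entry_le_trace hX k l) (by positivity : 0 ≤ |C i k| * |C j l|)
    calc |C i k| * |X k l| * |C j l| = |C i k| * |C j l| * |X k l| := by ring
      _ ≤ _ := this
  refine h1.trans ?_
  simp only [← Finset.sum_mul]
  refine mul_le_mul_of_nonneg_right ?_ ht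
  refine le_trans ?_ (Finset.single_le_sum (f := fun i => ∑ j, ∑ k, ∑ l, |C i k| * |C j l|)
    (fun i _ => by positivity) (Finset.mem_univ i))
  exact Finset.single_le_sum (f := fun j => ∑ k, ∑ l, |C i k| * |C j l|)
    (fun i _ => by positivity) (Finset.mem_univ j)

lemma det_bound (C : Matrix m ι ℝ) : ∃ K : ℝ, 0 ≤ K ∧ ∀ ε : ℝ, 0 ≤ ε → ε ≤ 1 → ∀ X : Matrix ι ι ℝ,
    X.PosSemidef → (ε • (1 : Matrix m m ℝ) + C * X * Cᵀ).det ≤ K * (1 + X.trace) ^ Fintype.card m := by
  obtain ⟨K, hK, h⟩ := conj_entry C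
  refine ⟨(Nat.factorial (Fintype.card m)) * (1 + K) ^ Fintype.card m, by positivity, fun ε h0 h1 X hX => ?_⟩
  have ht := trace_nonneg' hX
  have hb : ∀ i j, (AbsoluteValue.abs : AbsoluteValue ℝ ℝ) ((ε • (1 : Matrix m m ℝ) + C * X * Cᵀ) i j)
      ≤ (1 + K) * (1 + X.trace) := by
    intro i j
    rw [Matrix.add_apply, Matrix.smul_apply, smul_eq_mul]
    have h2 : |ε * (1 : Matrix m m ℝ) i j| ≤ 1 := by
      rw [one_apply]
      split_ifs
      · rw [mul_one, abs_of_nonneg h0]; exact h1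
      · simp
    have h3 := h X hX i j
    have h4 := abs_add_le (ε * (1 : Matrix m m ℝ) i j) ((C * X * Cᵀ) i j)
    have h5 : |ε * (1 : Matrix m m ℝ) i j + (C * X * Cᵀ) i j| ≤ 1 + K * X.trace := by linarith
    have h6 : (1 + K) * (1 + X.trace) = 1 + K * X.trace + (K + X.trace) := by ring
    calc (AbsoluteValue.abs : AbsoluteValue ℝ ℝ) (ε * (1 : Matrix m m ℝ) i j + (C * X * Cᵀ) i j)
        = |ε * (1 : Matrix m m ℝ) i j + (C * X * Cᵀ) i j| := rfl
      _ ≤ _ := by rw [h6]; linarith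
  have h7 := det_le hb
  have h8 : (ε • (1 : Matrix m m ℝ) + C * X * Cᵀ).det ≤ |(ε • (1 : Matrix m m ℝ) + C * X * Cᵀ).det| := le_abs_self _
  refine h8.trans (h7.trans ?_)
  rw [nsmul_eq_mul, mul_pow, mul_assoc]

lemma det_bound_exp (C : Matrix m ι ℝ) {ν : ℝ} (hν : 0 ≤ ν) {η : ℝ} (hη : 0 < η) :
    ∃ K : ℝ, 0 < K ∧ ∀ ε : ℝ, 0 ≤ ε → ε ≤ 1 → ∀ X : Matrix ι ι ℝ,
    X.PosSemidef → ((ε • (1 : Matrix m m ℝ) + C * X * Cᵀ).det + ε) ^ ν ≤ K * Real.exp (η * X.trace) := by
  obtain ⟨K, hK, h⟩ := det_bound C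
  obtain ⟨K2, hK2, h2⟩ := poly_exp (Fintype.card m) (η := η / (ν + 1)) (by positivity)
  refine ⟨((K + 1) * K2) ^ ν, by positivity, fun ε h0 h1 X hX => ?_⟩
  have ht := trace_nonneg' hX
  have hpsd : (ε • (1 : Matrix m m ℝ) + C * X * Cᵀ).PosSemidef := by
    refine (PosSemidef.one.smul h0).add ?_
    have := hX.mul_mul_conjTranspose_same C
    rwa [conjTranspose_eq_transpose_of_trivial] at this
  have hd := hpsd.det_nonneg
  have h3 := h ε h0 h1 X hX
  have h4 := h2 X.trace ht
  have h5 : 1 ≤ (1 + X.trace) ^ Fintype.card m := one_le_pow₀ (by linarith)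
  have h6 : (ε • (1 : Matrix m m ℝ) + C * X * Cᵀ).det + ε ≤ (K + 1) * K2 * Real.exp (η / (ν + 1) * X.trace) := by
    calc (ε • (1 : Matrix m m ℝ) + C * X * Cᵀ).det + ε ≤ K * (1 + X.trace) ^ Fintype.card m + 1 := by linarith
      _ ≤ (K + 1) * (1 + X.trace) ^ Fintype.card m := by linarith
      _ ≤ (K + 1) * (K2 * Real.exp (η / (ν + 1) * X.trace)) := mul_le_mul_of_nonneg_left h4 (by positivity)
      _ = _ := by ring
  calc ((ε • (1 : Matrix m m ℝ) + C * X * Cᵀ).det + ε) ^ ν
      ≤ ((K + 1) * K2 * Real.exp (η / (ν + 1) * X.trace)) ^ ν := Real.rpow_le_rpow (by positivity) h6 hν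
    _ = ((K + 1) * K2) ^ ν * Real.exp (η / (ν + 1) * X.trace * ν) := by
        rw [Real.mul_rpow (by positivity) (by positivity), ← Real.exp_mul]
    _ ≤ ((K + 1) * K2) ^ ν * Real.exp (η * X.trace) := by
        refine mul_le_mul_of_nonneg_left (Real.exp_le_exp.2 ?_) (by positivity)
        have h7 : η / (ν + 1) * X.trace * ν = (η * X.trace) * (ν / (ν + 1)) := by field_simp
        rw [h7]
        have h8 : ν / (ν + 1) ≤ 1 := by rw [div_le_one (by positivity)]; linarith
        have h9 : 0 ≤ η * X.trace := by positivity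
        nlinarith

end fac

section prod
variable {J : Type*} [Fintype J] {m : J → Type*} [∀ j, Fintype (m j)] [∀ j, DecidableEq (m j)]

/-- the product with regularisation parameter `ε` -/
noncomputable def Fe (ε : ℝ) (C : ∀ j, Matrix (m j) ι ℝ) (νs : J → ℝ) (X : Matrix ι ι ℝ) : ℝ :=
  FF (fun _ => ε • 1) C (fun _ => ε) νs X

lemma Fe_bound (C : ∀ j, Matrix (m j) ι ℝ) {νs : J → ℝ} (hνs : ∀ j, 0 ≤ νs j) {η : ℝ} (hη : 0 < η) :
    ∃ K : ℝ, 0 < K ∧ ∀ ε : ℝ, 0 ≤ ε → ε ≤ 1 → ∀ X : Matrix ι ι ℝ,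
    X.PosSemidef → Fe ε C νs X ≤ K * Real.exp (η * X.trace) := by
  have hη' : 0 < η / (Fintype.card J + 1) := by positivity
  choose K hK h using fun j => det_bound_exp (C j) (hνs j) hη'
  refine ⟨∏ j, K j, Finset.prod_pos fun j _ => hK j, fun ε h0 h1 X hX => ?_⟩
  have ht := trace_nonneg' hX
  unfold Fe FF
  have hnn : ∀ j, 0 ≤ ((ε • (1 : Matrix (m j) (m j) ℝ) + C j * X * (C j)ᵀ).det + ε) ^ (νs j) := by
    intro j
    have hpsd : (ε • (1 : Matrix (m j) (m j) ℝ) + C j * X * (C j)ᵀ).PosSemidef := by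
      refine (PosSemidef.one.smul h0).add ?_
      have := hX.mul_mul_conjTranspose_same (C j)
      rwa [conjTranspose_eq_transpose_of_trivial] at this
    have hd := hpsd.det_nonneg
    exact Real.rpow_nonneg (by positivity) _
  calc ∏ j, ((ε • (1 : Matrix (m j) (m j) ℝ) + C j * X * (C j)ᵀ).det + ε) ^ (νs j)
      ≤ ∏ j, (K j * Real.exp (η / (Fintype.card J + 1) * X.trace)) :=
        Finset.prod_le_prod (fun j _ => hnn j) fun j _ => h j ε h0 h1 X hX
    _ = (∏ j, K j) * Real.exp (Fintype.card J * (η / (Fintype.card J + 1) * X.trace)) := by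
        rw [Finset.prod_mul_distrib, Finset.prod_const, ← Real.exp_nat_mul, Finset.card_univ]
    _ ≤ (∏ j, K j) * Real.exp (η * X.trace) := by
        refine mul_le_mul_of_nonneg_left (Real.exp_le_exp.2 ?_) (Finset.prod_nonneg fun j _ => (hK j).le)
        have h7 : (Fintype.card J : ℝ) * (η / (Fintype.card J + 1) * X.trace)
            = (η * X.trace) * (Fintype.card J / (Fintype.card J + 1)) := by field_simp
        rw [h7]
        have h8 : (Fintype.card J : ℝ) / (Fintype.card J + 1) ≤ 1 := by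
          rw [div_le_one (by positivity)]; linarith
        have h9 : 0 ≤ η * X.trace := by positivity
        nlinarith

end prod

/-- exponential moments -/
theorem exp_moment {n : ℝ} (hn : (Fintype.card ι : ℝ) - 1 < n) :
    ∫⁻ x : Sym2 ι → ℝ, wt n x * ENNReal.ofReal (Real.exp (1/4 * (toM x).trace)) ≠ ⊤ := by
  set A : Matrix ι ι ℝ := Real.sqrt 2 • 1 with hA
  have hs2 : (0:ℝ) < Real.sqrt 2 := Real.sqrt_pos.2 (by norm_num)
  have hAd : A.det ≠ 0 := by rw [hA, det_smul, det_one, mul_one]; positivity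
  have hm : Measurable fun x : Sym2 ι → ℝ => wt n x * ENNReal.ofReal (Real.exp (1/4 * (toM x).trace)) := by
    refine (measurable_wt n).mul (ENNReal.measurable_ofReal.comp ?_)
    exact ((continuous_trace_toM.measurable.const_mul (1/4)).exp)
  have hcong : ∀ y : Sym2 ι → ℝ, toM (cong A y) = (2:ℝ) • toM y := by
    intro y
    rw [toM_cong, hA, transpose_smul, transpose_one, Matrix.smul_mul, Matrix.one_mul, Matrix.mul_smul,
      Matrix.mul_one, smul_smul, Real.mul_self_sqrt (by norm_num)]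
  rw [lint_cong hAd hm]
  have hpt : ∀ y : Sym2 ι → ℝ, wt n (cong A y) * ENNReal.ofReal (Real.exp (1/4 * (toM (cong A y)).trace))
      = ENNReal.ofReal (((2:ℝ) ^ Fintype.card ι) ^ ((n - Fintype.card ι - 1) / 2)) * wt n y := by
    intro y
    have hiff : (toM (cong A y)).PosDef ↔ (toM y).PosDef := by
      rw [hcong]
      constructor
      · intro h
        have := h.smul (show (0:ℝ) < 1/2 by norm_num)
        rwa [smul_smul, show (1/2 : ℝ) * 2 = 1 by norm_num, one_smul] at this
      · intro h; exact h.smul (by norm_num)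
    by_cases hy : (toM y).PosDef
    · rw [wt_of_pd (hiff.2 hy), wt_of_pd hy, hcong, det_smul, trace_smul,
        Real.mul_rpow (by positivity) hy.det_pos.le]
      rw [← ENNReal.ofReal_mul (by have := hy.det_pos; positivity), ← ENNReal.ofReal_mul (by positivity)]
      congr 1
      have : Real.exp (-((2:ℝ) • (toM y).trace) / 2) * Real.exp (1/4 * ((2:ℝ) • (toM y).trace))
          = Real.exp (-(toM y).trace / 2) := by
        rw [← Real.exp_add]; congr 1; simp only [smul_eq_mul]; ring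
      rw [mul_assoc, this, mul_assoc]
    · rw [wt_of_not hy, wt_of_not (fun h => hy (hiff.1 h)), zero_mul, mul_zero]
  simp_rw [hpt]
  rw [lintegral_const_mul' _ _ ENNReal.ofReal_ne_top]
  exact ENNReal.mul_ne_top ENNReal.ofReal_ne_top (ENNReal.mul_ne_top ENNReal.ofReal_ne_top (mass hn).2)

end Pool.Agent.V5helper59.Wish
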