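import Pool.Agent.V5helper59.Wish.E2

open MeasureTheory Set Matrix Filter
open scoped BigOperators Topology ENNReal

set_option linter.unusedSectionVars false
set_option maxHeartbeats 400000

namespace Pool.Agent.V5helper59.Wish

section
variable {ι : Type*} [Fintype ι] [DecidableEq ι]
variable {J : Type*} [Fintype J] {m : J → Type*} [∀ j, Fintype (m j)] [∀ j, DecidableEq (m j)]

lemma Fe_tendsto (C : ∀ j, Matrix (m j) ι ℝ) {νs : J → ℝ} (hνs : ∀ j, 0 ≤ νs j) (X : Matrix ι ι ℝ) :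
    Tendsto (fun ε : ℝ => Fe ε C νs X) (𝓝 0) (𝓝 (Fe 0 C νs X)) := by
  have : Continuous fun ε : ℝ => Fe ε C νs X := by
    unfold Fe FF
    refine continuous_finsetProd _ fun j _ => ?_
    have h1 : Continuous fun ε : ℝ => (ε • (1 : Matrix (m j) (m j) ℝ) + C j * X * (C j)ᵀ).det + ε := by
      refine Continuous.add ?_ continuous_id
      refine Continuous.matrix_det ?_
      exact (continuous_id.smul continuous_const).add continuous_const
    exact h1.rpow_const fun ε => Or.inr (hνs j)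
  exact this.tendsto 0

lemma measurable_Fe (ε : ℝ) (C : ∀ j, Matrix (m j) ι ℝ) (νs : J → ℝ) :
    Measurable fun x : Sym2 ι → ℝ => ENNReal.ofReal (Fe ε C νs (toM x)) := measurable_FF _ _ _ _

/-- finiteness of moments -/
theorem moment_fin {n : ℝ} (hn : (Fintype.card ι : ℝ) - 1 < n) (C : ∀ j, Matrix (m j) ι ℝ) {νs : J → ℝ}
    (hνs : ∀ j, 0 ≤ νs j) :
    ∫⁻ x : Sym2 ι → ℝ, wt n x * ENNReal.ofReal (Fe 0 C νs (toM x)) ≠ ⊤ := by
  obtain ⟨K, hK, h⟩ := Fe_bound C hνs (η := 1/4) (by norm_num)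
  have hle : ∀ x : Sym2 ι → ℝ, wt n x * ENNReal.ofReal (Fe 0 C νs (toM x))
      ≤ ENNReal.ofReal K * (wt n x * ENNReal.ofReal (Real.exp (1/4 * (toM x).trace))) := by
    intro x
    by_cases hx : (toM x).PosDef
    · rw [mul_left_comm, ← ENNReal.ofReal_mul hK.le]
      exact mul_le_mul_right (ENNReal.ofReal_le_ofReal (h 0 le_rfl zero_le_one _ hx.posSemidef)) _
    · rw [wt_of_not hx]; simp
  refine ne_top_of_le_ne_top ?_ (lintegral_mono hle)
  rw [lintegral_const_mul' _ _ ENNReal.ofReal_ne_top]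
  exact ENNReal.mul_ne_top ENNReal.ofReal_ne_top (exp_moment hn)

/-- a minor is a factor -/
lemma mnr_eq_Fe {a : Type*} [Fintype a] [DecidableEq a] (f : a → ι) (ν : ℝ) (x : Sym2 ι → ℝ) :
    mnr f x ^ ν = Fe (J := Unit) (m := fun _ => a) 0 (fun _ => (1 : Matrix ι ι ℝ).submatrix f id) (fun _ => ν) (toM x) := by
  unfold Fe FF mnr
  simp only [zero_smul, zero_add, add_zero, Finset.univ_unique, Finset.prod_singleton]
  congr 2
  ext i j
  simp [Matrix.mul_apply, one_apply, Finset.sum_ite_eq, Finset.sum_ite_eq']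

end

section
variable {κ : Type*} [Fintype κ] [DecidableEq κ]
variable {J : Type*} [Fintype J] {m : J → Type*} [∀ j, Fintype (m j)] [∀ j, DecidableEq (m j)]

/-- **Block theorem without regularisation.** -/
theorem block0 {νs : J → ℝ} (hνs : ∀ j, 0 ≤ νs j) {ν : ℝ} (hν : 0 ≤ ν)
    (a : ℕ) (n : ℝ) (hn : (a : ℝ) + Fintype.card κ - 1 < n)
    (hJ : Subsingleton J ∨ ∀ j, (Fintype.card (m j) : ℝ) + a ≤ n) (C : ∀ j, Matrix (m j) (Fin a ⊕ κ) ℝ) :
    (∫⁻ x : Sym2 (Fin a ⊕ κ) → ℝ, wt n x * ENNReal.ofReal (mnr Sum.inl x ^ ν)) *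
      (∫⁻ x : Sym2 (Fin a ⊕ κ) → ℝ, wt n x * ENNReal.ofReal (Fe 0 C νs (toM x)))
    ≤ (∫⁻ x : Sym2 (Fin a ⊕ κ) → ℝ, wt n x) *
      (∫⁻ x : Sym2 (Fin a ⊕ κ) → ℝ, wt n x *
        (ENNReal.ofReal (mnr Sum.inl x ^ ν) * ENNReal.ofReal (Fe 0 C νs (toM x)))) := by
  have hn' : (Fintype.card (Fin a ⊕ κ) : ℝ) - 1 < n := by
    rw [Fintype.card_sum, Fintype.card_fin]; push_cast; exact hn
  have hfin := mass (ι := Fin a ⊕ κ) hn'
  have hexp := exp_moment (ι := Fin a ⊕ κ) hn'
  set u : ℕ → ℝ := fun k => 1 / ((k : ℝ) + 1) with hu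
  have hu0 : ∀ k, 0 < u k := fun k => by rw [hu]; positivity
  have hu1 : ∀ k, u k ≤ 1 := fun k => by
    rw [hu]; simp only
    rw [div_le_one (by positivity)]
    have : (0:ℝ) ≤ k := by positivity
    linarith
  have hut : Tendsto u atTop (𝓝 0) := tendsto_one_div_add_atTop_nhds_zero_nat
  set T := ∫⁻ x : Sym2 (Fin a ⊕ κ) → ℝ, wt n x with hT
  set X1 := ∫⁻ x : Sym2 (Fin a ⊕ κ) → ℝ, wt n x * ENNReal.ofReal (mnr Sum.inl x ^ ν) with hX1
  have hX1t : X1 ≠ ⊤ := by
    rw [hX1]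
    simp only [mnr_eq_Fe]
    exact moment_fin hn' _ (fun _ => hν)
  have key : ∀ k, X1 * (∫⁻ x : Sym2 (Fin a ⊕ κ) → ℝ, wt n x * ENNReal.ofReal (Fe (u k) C νs (toM x)))
      ≤ T * (∫⁻ x : Sym2 (Fin a ⊕ κ) → ℝ, wt n x *
        (ENNReal.ofReal (mnr Sum.inl x ^ ν) * ENNReal.ofReal (Fe (u k) C νs (toM x)))) := by
    intro k
    obtain ⟨c, hct, hc1, hc2⟩ := block (κ := κ) (m := m) (fun _ => u k) νs (fun _ => hu0 k) hνs hν a n hn hJ
    have hc1' : X1 = c * T := hc1
    have h2 := hc2 (fun _ => u k • 1) C (fun j => PosDef.one.smul (hu0 k))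
    rw [hc1', mul_comm c T, mul_assoc]
    exact mul_le_mul_right h2 _
  obtain ⟨K, hK, hb⟩ := Fe_bound C hνs (η := 1/8) (by norm_num)
  obtain ⟨K', hK', hb'⟩ := Fe_bound (J := Unit) (m := fun _ => Fin a)
    (fun _ => (1 : Matrix (Fin a ⊕ κ) (Fin a ⊕ κ) ℝ).submatrix Sum.inl id) (νs := fun _ => ν) (fun _ => hν)
    (η := 1/8) (by norm_num)
  have hmw := measurable_wt (ι := Fin a ⊕ κ) n
  have lim1 : Tendsto (fun k => ∫⁻ x : Sym2 (Fin a ⊕ κ) → ℝ, wt n x * ENNReal.ofReal (Fe (u k) C νs (toM x)))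
      atTop (𝓝 (∫⁻ x : Sym2 (Fin a ⊕ κ) → ℝ, wt n x * ENNReal.ofReal (Fe 0 C νs (toM x)))) := by
    refine tendsto_lintegral_of_dominated_convergence
      (fun x => ENNReal.ofReal K * (wt n x * ENNReal.ofReal (Real.exp (1/4 * (toM x).trace)))) ?_ ?_ ?_ ?_
    · intro k
      exact hmw.mul (measurable_Fe _ _ _)
    · intro k
      refine Eventually.of_forall fun x => ?_
      by_cases hx : (toM x).PosDef
      · simp only
        rw [mul_left_comm, ← ENNReal.ofReal_mul hK.le]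
        refine mul_le_mul_right (ENNReal.ofReal_le_ofReal ?_) _
        refine (hb (u k) (hu0 k).le (hu1 k) _ hx.posSemidef).trans ?_
        refine mul_le_mul_of_nonneg_left (Real.exp_le_exp.2 ?_) hK.le
        have := trace_nonneg' hx.posSemidef
        linarith
      · simp only
        rw [wt_of_not hx]; simp
    · rw [lintegral_const_mul' _ _ ENNReal.ofReal_ne_top]
      exact ENNReal.mul_ne_top ENNReal.ofReal_ne_top hexp
    · refine Eventually.of_forall fun x => ?_
      refine ENNReal.Tendsto.const_mul ?_ (Or.inr ?_)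
      · exact (ENNReal.continuous_ofReal.tendsto _).comp ((Fe_tendsto C hνs (toM x)).comp hut)
      · by_cases hx : (toM x).PosDef
        · rw [wt_of_pd hx]; exact ENNReal.ofReal_ne_top
        · rw [wt_of_not hx]; exact ENNReal.zero_ne_top
  have lim2 : Tendsto (fun k => ∫⁻ x : Sym2 (Fin a ⊕ κ) → ℝ, wt n x *
        (ENNReal.ofReal (mnr Sum.inl x ^ ν) * ENNReal.ofReal (Fe (u k) C νs (toM x))))
      atTop (𝓝 (∫⁻ x : Sym2 (Fin a ⊕ κ) → ℝ, wt n x *
        (ENNReal.ofReal (mnr Sum.inl x ^ ν) * ENNReal.ofReal (Fe 0 C νs (toM x))))) := by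
    refine tendsto_lintegral_of_dominated_convergence
      (fun x => ENNReal.ofReal (K' * K) * (wt n x * ENNReal.ofReal (Real.exp (1/4 * (toM x).trace)))) ?_ ?_ ?_ ?_
    · intro k
      exact hmw.mul ((measurable_mnr _ _).mul (measurable_Fe _ _ _))
    · intro k
      refine Eventually.of_forall fun x => ?_
      by_cases hx : (toM x).PosDef
      · simp only
        rw [mul_left_comm (ENNReal.ofReal (K' * K)), ← ENNReal.ofReal_mul (p := K' * K) (by positivity)]
        refine mul_le_mul_right ?_ _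
        have h1 := hb (u k) (hu0 k).le (hu1 k) _ hx.posSemidef
        have h2 := hb' 0 le_rfl zero_le_one _ hx.posSemidef
        rw [← mnr_eq_Fe] at h2
        have h3 : 0 ≤ mnr (Sum.inl : Fin a → Fin a ⊕ κ) x ^ ν :=
          Real.rpow_nonneg (mnr_pos Sum.inl_injective hx).le _
        rw [← ENNReal.ofReal_mul h3]
        refine ENNReal.ofReal_le_ofReal ?_
        calc mnr (Sum.inl : Fin a → Fin a ⊕ κ) x ^ ν * Fe (u k) C νs (toM x)
            ≤ mnr (Sum.inl : Fin a → Fin a ⊕ κ) x ^ ν * (K * Real.exp (1/8 * (toM x).trace)) :=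
              mul_le_mul_of_nonneg_left h1 h3
          _ ≤ (K' * Real.exp (1/8 * (toM x).trace)) * (K * Real.exp (1/8 * (toM x).trace)) :=
              mul_le_mul_of_nonneg_right h2 (by positivity)
          _ = K' * K * Real.exp (1/4 * (toM x).trace) := by
              have : Real.exp (1/4 * (toM x).trace) = Real.exp (1/8 * (toM x).trace) * Real.exp (1/8 * (toM x).trace) := by
                rw [← Real.exp_add]; congr 1; ring
              rw [this]; ring
      · simp only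
        rw [wt_of_not hx]; simp
    · rw [lintegral_const_mul' _ _ ENNReal.ofReal_ne_top]
      exact ENNReal.mul_ne_top ENNReal.ofReal_ne_top hexp
    · refine Eventually.of_forall fun x => ?_
      refine ENNReal.Tendsto.const_mul ?_ (Or.inr ?_)
      · refine ENNReal.Tendsto.const_mul ?_ (Or.inr ENNReal.ofReal_ne_top)
        exact (ENNReal.continuous_ofReal.tendsto _).comp ((Fe_tendsto C hνs (toM x)).comp hut)
      · by_cases hx : (toM x).PosDef
        · rw [wt_of_pd hx]; exact ENNReal.ofReal_ne_top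
        · rw [wt_of_not hx]; exact ENNReal.zero_ne_top
  exact le_of_tendsto_of_tendsto' (ENNReal.Tendsto.const_mul lim1 (Or.inr hX1t))
    (ENNReal.Tendsto.const_mul lim2 (Or.inr hfin.2)) key

end

end Pool.Agent.V5helper59.Wish
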