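import Pool.Agent.V5helper59.Wish.E3

open MeasureTheory Set Matrix Filter
open scoped BigOperators Topology ENNReal

set_option linter.unusedSectionVars false
set_option maxHeartbeats 400000

namespace Pool.Agent.V5helper59.Wish

section
variable {ι : Type*} [Fintype ι] [DecidableEq ι]

/-- weight `|X|^{(n-p-1)/2} e^{-tr(PX)/2}` on the cone -/
noncomputable def wS (n : ℝ) (P : Matrix ι ι ℝ) (x : Sym2 ι → ℝ) : ℝ≥0∞ :=
  {x : Sym2 ι → ℝ | (toM x).PosDef}.indicator (fun x => ENNReal.ofReal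
    ((toM x).det ^ ((n - Fintype.card ι - 1) / 2) * Real.exp (-(P * toM x).trace / 2))) x

lemma wS_of_pd {n : ℝ} {P : Matrix ι ι ℝ} {x : Sym2 ι → ℝ} (h : (toM x).PosDef) : wS n P x = ENNReal.ofReal
    ((toM x).det ^ ((n - Fintype.card ι - 1) / 2) * Real.exp (-(P * toM x).trace / 2)) :=
  indicator_of_mem (s := {x : Sym2 ι → ℝ | (toM x).PosDef}) h _

lemma wS_of_not {n : ℝ} {P : Matrix ι ι ℝ} {x : Sym2 ι → ℝ} (h : ¬ (toM x).PosDef) : wS n P x = 0 :=
  indicator_of_notMem (s := {x : Sym2 ι → ℝ | (toM x).PosDef}) h _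

lemma measurable_wS (n : ℝ) (P : Matrix ι ι ℝ) : Measurable (wS n P) := by
  unfold wS
  refine Measurable.indicator ?_ measurableSet_pd
  refine ENNReal.measurable_ofReal.comp ?_
  have h1 : Measurable fun x : Sym2 ι → ℝ => (toM x).det := continuous_det_toM.measurable
  have h2 : Measurable fun x : Sym2 ι → ℝ => (P * toM x).trace :=
    ((continuous_const.matrix_mul continuous_toM).matrix_trace).measurable
  exact (h1.pow_const _).mul ((h2.neg.div_const 2).exp)

lemma posDef_conj {L X : Matrix ι ι ℝ} (hL : L.det ≠ 0) (hX : X.PosDef) : (L * X * Lᵀ).PosDef := by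
  have h1 := hX.posSemidef.mul_mul_conjTranspose_same L
  rw [conjTranspose_eq_transpose_of_trivial] at h1
  rw [h1.posDef_iff_det_ne_zero, det_mul, det_mul, det_transpose]
  exact mul_ne_zero (mul_ne_zero hL hX.det_pos.ne') hL

lemma posDef_conj_iff {L X : Matrix ι ι ℝ} (hL : L.det ≠ 0) : (L * X * Lᵀ).PosDef ↔ X.PosDef := by
  constructor
  · intro h
    have hu : IsUnit L.det := isUnit_iff_ne_zero.2 hL
    have hut : IsUnit Lᵀ.det := by rw [det_transpose]; exact hu
    have h2 : (L⁻¹).det ≠ 0 := by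
      rw [det_nonsing_inv]; exact (isUnit_ringInverse.2 hu).ne_zero
    have h3 := posDef_conj h2 h
    have e : L⁻¹ * (L * X * Lᵀ) * (L⁻¹)ᵀ = X := by
      rw [transpose_nonsing_inv, Matrix.mul_assoc, Matrix.mul_assoc (L * X), mul_nonsing_inv _ hut,
        Matrix.mul_one, ← Matrix.mul_assoc, nonsing_inv_mul _ hu, Matrix.one_mul]
    rwa [e] at h3
  · exact posDef_conj hL

lemma conj_inv {L S : Matrix ι ι ℝ} (hL : L.det ≠ 0) (hS : L * Lᵀ = S) : Lᵀ * S⁻¹ * L = 1 := by
  have hu : IsUnit L.det := isUnit_iff_ne_zero.2 hL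
  have hut : IsUnit Lᵀ.det := by rw [det_transpose]; exact hu
  rw [← hS, Matrix.mul_inv_rev, ← Matrix.mul_assoc, mul_nonsing_inv _ hut, Matrix.one_mul, nonsing_inv_mul _ hu]

lemma wS_cong (n : ℝ) {L S : Matrix ι ι ℝ} (hL : L.det ≠ 0) (hS : L * Lᵀ = S) (y : Sym2 ι → ℝ) :
    wS n S⁻¹ (cong L y) = ENNReal.ofReal (|L.det| ^ (n - Fintype.card ι - 1)) * wt n y := by
  have hiff : (toM (cong L y)).PosDef ↔ (toM y).PosDef := by
    rw [toM_cong]; exact posDef_conj_iff hL
  have hLp : 0 < |L.det| := abs_pos.2 hL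
  by_cases hy : (toM y).PosDef
  · rw [wS_of_pd (hiff.2 hy), wt_of_pd hy, toM_cong, ← ENNReal.ofReal_mul (by positivity)]
    congr 1
    have e1 : (L * toM y * Lᵀ).det = |L.det| ^ (2:ℝ) * (toM y).det := by
      rw [det_mul, det_mul, det_transpose]
      have : |L.det| ^ (2:ℝ) = L.det * L.det := by
        rw [Real.rpow_two, sq_abs, _root_.sq]
      rw [this]; ring
    have e2 : (S⁻¹ * (L * toM y * Lᵀ)).trace = (toM y).trace := by
      rw [← Matrix.mul_assoc, trace_mul_comm, ← Matrix.mul_assoc, ← Matrix.mul_assoc, conj_inv hL hS, Matrix.one_mul]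
    rw [e1, e2, Real.mul_rpow (by positivity) hy.det_pos.le, ← Real.rpow_mul hLp.le]
    have e3 : 2 * ((n - (Fintype.card ι : ℝ) - 1) / 2) = n - Fintype.card ι - 1 := by ring
    rw [e3, mul_assoc]
  · rw [wS_of_not (fun h => hy (hiff.1 h)), wt_of_not hy, mul_zero]

theorem lint_wS (n : ℝ) {L S : Matrix ι ι ℝ} (hL : L.det ≠ 0) (hS : L * Lᵀ = S)
    {h : (Sym2 ι → ℝ) → ℝ≥0∞} (hh : Measurable h) :
    ∫⁻ x, wS n S⁻¹ x * h x = ENNReal.ofReal (|L.det| ^ n) * ∫⁻ y, wt n y * h (cong L y) := by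
  have hm : Measurable fun x => wS n S⁻¹ x * h x := (measurable_wS n _).mul hh
  have hLp : 0 < |L.det| := abs_pos.2 hL
  rw [lint_cong hL hm]
  have : ∀ y, wS n S⁻¹ (cong L y) * h (cong L y)
      = ENNReal.ofReal (|L.det| ^ (n - Fintype.card ι - 1)) * (wt n y * h (cong L y)) := by
    intro y
    rw [wS_cong n hL hS, mul_assoc]
  simp_rw [this]
  rw [lintegral_const_mul' _ _ ENNReal.ofReal_ne_top, ← mul_assoc, ← ENNReal.ofReal_mul (by positivity)]
  congr 2
  rw [← Real.rpow_natCast, ← Real.rpow_add hLp]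
  congr 1; push_cast; ring

lemma exists_chol {S : Matrix ι ι ℝ} (h : S.PosDef) : ∃ L : Matrix ι ι ℝ, L.det ≠ 0 ∧ L * Lᵀ = S := by
  obtain ⟨B, hB, hS⟩ := pd_factor h
  exact ⟨Bᵀ, by rwa [det_transpose], by rw [transpose_transpose]; exact hS.symm⟩

end

section chol
variable {m n : Type*} [Fintype m] [DecidableEq m] [Fintype n] [DecidableEq n]

lemma block_chol {S : Matrix (m ⊕ n) (m ⊕ n) ℝ} (hS : S.PosDef) :
    ∃ L : Matrix (m ⊕ n) (m ⊕ n) ℝ, L.det ≠ 0 ∧ L * Lᵀ = S ∧ ∀ i k, L (Sum.inl i) (Sum.inr k) = 0 := by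
  set A := S.toBlocks₁₁ with hA
  set B := S.toBlocks₁₂ with hB
  set D := S.toBlocks₂₂ with hD
  have hsym : Sᵀ = S := by
    have := hS.1
    rwa [IsHermitian, conjTranspose_eq_transpose_of_trivial] at this
  have hB2 : S.toBlocks₂₁ = Bᵀ := by
    ext i j
    have := congrFun (congrFun hsym (Sum.inr i)) (Sum.inl j)
    simpa [hB, toBlocks₁₂, toBlocks₂₁] using this.symm
  have hSe : S = fromBlocks A B Bᴴ D := by
    rw [conjTranspose_eq_transpose_of_trivial, ← hB2]
    exact (fromBlocks_toBlocks S).symm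
  have hApd : A.PosDef := by
    have := hS.submatrix (e := (Sum.inl : m → m ⊕ n)) Sum.inl_injective
    exact this
  have hAdet : IsUnit A.det := isUnit_iff_ne_zero.2 hApd.det_pos.ne'
  letI := invertibleOfIsUnitDet A hAdet
  have hsch : (D - Bᴴ * A⁻¹ * B).PosDef := by
    have h1 : (D - Bᴴ * A⁻¹ * B).PosSemidef := by
      rw [← PosDef.fromBlocks₁₁ B D hApd, ← hSe]
      exact hS.posSemidef
    rw [h1.posDef_iff_det_ne_zero]
    intro h0
    have h2 := hS.det_pos
    rw [hSe, det_fromBlocks₁₁, invOf_eq_nonsing_inv, h0, mul_zero] at h2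
    exact lt_irrefl _ h2
  obtain ⟨L1, hL1, hL1e⟩ := exists_chol hApd
  obtain ⟨L2, hL2, hL2e⟩ := exists_chol hsch
  have hu : IsUnit L1.det := isUnit_iff_ne_zero.2 hL1
  have hut : IsUnit L1ᵀ.det := by rw [det_transpose]; exact hu
  refine ⟨fromBlocks L1 0 (Bᵀ * (L1ᵀ)⁻¹) L2, ?_, ?_, ?_⟩
  · rw [det_fromBlocks_zero₁₂]; exact mul_ne_zero hL1 hL2
  · rw [hSe, fromBlocks_transpose, fromBlocks_multiply, transpose_mul, transpose_transpose,
      transpose_nonsing_inv, transpose_transpose, transpose_zero, Matrix.zero_mul, Matrix.mul_zero,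
      Matrix.zero_mul, add_zero, add_zero, add_zero, hL1e, conjTranspose_eq_transpose_of_trivial]
    congr 1
    · rw [← Matrix.mul_assoc, mul_nonsing_inv _ hu, Matrix.one_mul]
    · rw [Matrix.mul_assoc, nonsing_inv_mul _ hut, Matrix.mul_one]
    · rw [hL2e, conjTranspose_eq_transpose_of_trivial, ← hL1e, Matrix.mul_inv_rev]
      simp only [Matrix.mul_assoc]
      abel
  · intro i k; simp

end chol

end Pool.Agent.V5helper59.Wish
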