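import Pool.Agent.V5helper59.Wish.E4

open MeasureTheory Set Matrix Filter
open scoped BigOperators Topology ENNReal

set_option linter.unusedSectionVars false
set_option maxHeartbeats 400000

namespace Pool.Agent.V5helper59.Wish

section two
variable {ι : Type*} [Fintype ι] [DecidableEq ι]
variable {J : Type*} [Fintype J] {m : J → Type*} [∀ j, Fintype (m j)] [∀ j, DecidableEq (m j)]

lemma mnr_cong {ι a : Type*} [Fintype ι] [DecidableEq ι] [Fintype a] [DecidableEq a] (L : Matrix ι ι ℝ) (f : a → ι)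
    (y : Sym2 ι → ℝ) : mnr f (cong L y) = (L.submatrix f id * toM y * (L.submatrix f id)ᵀ).det := by
  unfold mnr
  rw [toM_cong]
  congr 1

theorem two {n : ℝ} (hn : (Fintype.card ι : ℝ) - 1 < n) {S : Matrix ι ι ℝ} (hS : S.PosDef)
    {νs : J → ℝ} (hνs : ∀ j, 0 ≤ νs j) {ν : ℝ} (hν : 0 ≤ ν) {a : ℕ} (f : Fin a → ι)
    (hf : Function.Injective f) (g : ∀ j, m j → ι)
    (hJ : Subsingleton J ∨ ∀ j, (Fintype.card (m j) : ℝ) + a ≤ n) :
    (∫⁻ x, wS n S⁻¹ x * ENNReal.ofReal (mnr f x ^ ν)) *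
      (∫⁻ x, wS n S⁻¹ x * ENNReal.ofReal (∏ j, mnr (g j) x ^ νs j))
    ≤ (∫⁻ x, wS n S⁻¹ x) *
      (∫⁻ x, wS n S⁻¹ x * (ENNReal.ofReal (mnr f x ^ ν) * ENNReal.ofReal (∏ j, mnr (g j) x ^ νs j))) := by
  classical
  set κ : Type _ := ↥((range f)ᶜ) with hκ
  set e : Fin a ⊕ κ ≃ ι := (Equiv.sumCongr (Equiv.ofInjective f hf) (Equiv.refl _)).trans
    (Equiv.Set.sumCompl (range f)) with he
  have hel : ∀ i, e (Sum.inl i) = f i := fun i => by
    simp only [he, Equiv.trans_apply, Equiv.sumCongr_apply, Sum.map_inl]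
    exact Equiv.Set.sumCompl_apply_inl _ _
  have hes : ∀ i, e.symm (f i) = Sum.inl i := fun i => by rw [← hel i, Equiv.symm_apply_apply]
  have hcard : (Fintype.card ι : ℝ) = a + Fintype.card κ := by
    rw [← Fintype.card_congr e, Fintype.card_sum, Fintype.card_fin]; push_cast; ring
  have hS' : (S.submatrix e e).PosDef := hS.submatrix e.injective
  obtain ⟨L', hL'd, hL'e, hL'0⟩ := block_chol hS'
  set L : Matrix ι ι ℝ := L'.submatrix e.symm e.symm with hL
  have hLd : L.det ≠ 0 := by rw [hL, det_submatrix_equiv_self]; exact hL'd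
  have hLe : L * Lᵀ = S := by
    rw [hL, transpose_submatrix, submatrix_mul_equiv, hL'e, submatrix_submatrix]
    simp
  -- transfer of integrals
  have tr : ∀ h : (Sym2 ι → ℝ) → ℝ≥0∞, Measurable h → ∫⁻ x, wS n S⁻¹ x * h x
      = ENNReal.ofReal (|L.det| ^ n) * ∫⁻ y : Sym2 (Fin a ⊕ κ) → ℝ, wt n y * h (cong L (relab e y)) := by
    intro h hh
    rw [lint_wS n hLd hLe hh]
    congr 1
    have hm : Measurable (cong L) := (LinearMap.continuous_on_pi _).measurable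
    exact lint_relab e n (h := fun y => h (cong L y)) (hh.comp hm)
  have hmf := measurable_mnr f ν
  have hmg : Measurable fun x : Sym2 ι → ℝ => ENNReal.ofReal (∏ j, mnr (g j) x ^ νs j) := by
    refine ENNReal.measurable_ofReal.comp (Finset.measurable_prod _ fun j _ => Measurable.pow_const ?_ _)
    exact ((continuous_toM.matrix_submatrix (g j) (g j)).matrix_det).measurable
  -- values
  set l : ℝ := (L'.submatrix Sum.inl Sum.inl : Matrix (Fin a) (Fin a) ℝ).det ^ 2 with hl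
  have hl0 : 0 ≤ l := sq_nonneg _
  have v1 : ∀ y : Sym2 (Fin a ⊕ κ) → ℝ, mnr f (cong L (relab e y)) = l * mnr Sum.inl y := by
    intro y
    unfold mnr
    rw [toM_cong, toM_relab, hL, transpose_submatrix, submatrix_mul_equiv, submatrix_mul_equiv,
      submatrix_submatrix]
    have h1 : e.symm ∘ f = Sum.inl := funext fun i => hes i
    rw [h1]
    have h2 : (L' * toM y * L'ᵀ).submatrix Sum.inl Sum.inl
        = L'.submatrix Sum.inl Sum.inl * (toM y).submatrix Sum.inl Sum.inl *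
          (L'.submatrix Sum.inl Sum.inl : Matrix (Fin a) (Fin a) ℝ)ᵀ := by
      ext i j
      simp only [Matrix.mul_apply, submatrix_apply, transpose_apply, Fintype.sum_sum_type, hL'0,
        zero_mul, mul_zero, Finset.sum_const_zero, add_zero]
    rw [h2, det_mul, det_mul, det_transpose, hl]; ring
  have v2 : ∀ y : Sym2 (Fin a ⊕ κ) → ℝ, ∏ j, mnr (g j) (cong L (relab e y)) ^ νs j
      = Fe 0 (fun j => L'.submatrix (e.symm ∘ g j) id) νs (toM y) := by
    intro y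
    unfold Fe FF
    refine Finset.prod_congr rfl fun j _ => ?_
    simp only [zero_smul, zero_add, add_zero]
    congr 1
    unfold mnr
    rw [toM_cong, toM_relab, hL, transpose_submatrix, submatrix_mul_equiv, submatrix_mul_equiv,
      submatrix_submatrix]
    congr 1
  have e1 : ∀ y : Sym2 (Fin a ⊕ κ) → ℝ, wt n y * ENNReal.ofReal (mnr f (cong L (relab e y)) ^ ν)
      = ENNReal.ofReal (l ^ ν) * (wt n y * ENNReal.ofReal (mnr Sum.inl y ^ ν)) := by
    intro y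
    by_cases hy : (toM y).PosDef
    · have hp := mnr_pos (f := (Sum.inl : Fin a → Fin a ⊕ κ)) Sum.inl_injective hy
      rw [v1, Real.mul_rpow hl0 hp.le, ENNReal.ofReal_mul (by positivity)]
      ring
    · rw [wt_of_not hy]; simp
  have hb := block0 (κ := κ) hνs hν a n (by rw [hcard] at hn; exact hn) hJ
    (fun j => L'.submatrix (e.symm ∘ g j) id)
  have t0 := tr (fun _ => 1) measurable_const
  simp only [mul_one] at t0
  rw [t0, tr _ hmf, tr _ hmg, tr (fun x => ENNReal.ofReal (mnr f x ^ ν) *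
    ENNReal.ofReal (∏ j, mnr (g j) x ^ νs j)) (hmf.mul hmg)]
  simp only [v2, e1]
  have e2 : ∀ y : Sym2 (Fin a ⊕ κ) → ℝ, wt n y * (ENNReal.ofReal (mnr f (cong L (relab e y)) ^ ν) *
      ENNReal.ofReal (Fe 0 (fun j => L'.submatrix (e.symm ∘ g j) id) νs (toM y)))
      = ENNReal.ofReal (l ^ ν) * (wt n y * (ENNReal.ofReal (mnr Sum.inl y ^ ν) *
        ENNReal.ofReal (Fe 0 (fun j => L'.submatrix (e.symm ∘ g j) id) νs (toM y)))) := by
    intro y
    rw [← mul_assoc, e1 y]; ring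
  simp only [e2]
  rw [lintegral_const_mul' _ _ ENNReal.ofReal_ne_top, lintegral_const_mul' _ _ ENNReal.ofReal_ne_top]
  generalize (∫⁻ y : Sym2 (Fin a ⊕ κ) → ℝ, wt n y * ENNReal.ofReal (mnr Sum.inl y ^ ν)) = A1 at hb ⊢
  generalize (∫⁻ y : Sym2 (Fin a ⊕ κ) → ℝ, wt n y *
    ENNReal.ofReal (Fe 0 (fun j => L'.submatrix (e.symm ∘ g j) id) νs (toM y))) = A2 at hb ⊢
  generalize (∫⁻ y : Sym2 (Fin a ⊕ κ) → ℝ, wt n y) = A3 at hb ⊢
  generalize (∫⁻ y : Sym2 (Fin a ⊕ κ) → ℝ, wt n y * (ENNReal.ofReal (mnr Sum.inl y ^ ν) *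
        ENNReal.ofReal (Fe 0 (fun j => L'.submatrix (e.symm ∘ g j) id) νs (toM y)))) = A4 at hb ⊢
  calc ENNReal.ofReal (|L.det| ^ n) * (ENNReal.ofReal (l ^ ν) * A1) * (ENNReal.ofReal (|L.det| ^ n) * A2)
      = (ENNReal.ofReal (|L.det| ^ n) * ENNReal.ofReal (|L.det| ^ n) * ENNReal.ofReal (l ^ ν)) * (A1 * A2) := by ring
    _ ≤ (ENNReal.ofReal (|L.det| ^ n) * ENNReal.ofReal (|L.det| ^ n) * ENNReal.ofReal (l ^ ν)) * (A3 * A4) :=
      mul_le_mul_right hb _
    _ = _ := by ring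

end two

section fin
variable {ι : Type*} [Fintype ι] [DecidableEq ι]
variable {J : Type*} [Fintype J] {m : J → Type*} [∀ j, Fintype (m j)] [∀ j, DecidableEq (m j)]

/-- finiteness of all product moments -/
theorem wS_fin {n : ℝ} (hn : (Fintype.card ι : ℝ) - 1 < n) {S : Matrix ι ι ℝ} (hS : S.PosDef)
    {νs : J → ℝ} (hνs : ∀ j, 0 ≤ νs j) (g : ∀ j, m j → ι) :
    ∫⁻ x, wS n S⁻¹ x * ENNReal.ofReal (∏ j, mnr (g j) x ^ νs j) ≠ ⊤ := by
  obtain ⟨L, hL, hLe⟩ := exists_chol hS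
  have hmg : Measurable fun x : Sym2 ι → ℝ => ENNReal.ofReal (∏ j, mnr (g j) x ^ νs j) := by
    refine ENNReal.measurable_ofReal.comp (Finset.measurable_prod _ fun j _ => Measurable.pow_const ?_ _)
    exact ((continuous_toM.matrix_submatrix (g j) (g j)).matrix_det).measurable
  rw [lint_wS n hL hLe hmg]
  refine ENNReal.mul_ne_top ENNReal.ofReal_ne_top ?_
  have v2 : ∀ y : Sym2 ι → ℝ, ∏ j, mnr (g j) (cong L y) ^ νs j
      = Fe 0 (fun j => L.submatrix (g j) id) νs (toM y) := by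
    intro y
    unfold Fe FF
    refine Finset.prod_congr rfl fun j _ => ?_
    simp only [zero_smul, zero_add, add_zero]
    rw [mnr_cong]
  simp only [v2]
  exact moment_fin hn _ hνs

theorem wS_mass {n : ℝ} (hn : (Fintype.card ι : ℝ) - 1 < n) {S : Matrix ι ι ℝ} (hS : S.PosDef) :
    (∫⁻ x, wS n S⁻¹ x) ≠ 0 ∧ (∫⁻ x, wS n S⁻¹ x) ≠ ⊤ ∧
      ∫⁻ x, wS n S⁻¹ x = ENNReal.ofReal (S.det ^ (n / 2)) * ∫⁻ y : Sym2 ι → ℝ, wt n y := by
  obtain ⟨L, hL, hLe⟩ := exists_chol hS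
  have h1 := lint_wS n hL hLe (h := fun _ => 1) measurable_const
  simp only [mul_one] at h1
  have hLp : 0 < |L.det| := abs_pos.2 hL
  have h2 : |L.det| ^ n = S.det ^ (n / 2) := by
    rw [← hLe, det_mul, det_transpose, ← _root_.sq, ← sq_abs, ← Real.rpow_natCast, ← Real.rpow_mul hLp.le]
    congr 1; push_cast; ring
  have h3 : 0 < S.det ^ (n / 2) := Real.rpow_pos_of_pos hS.det_pos _
  rw [h1, h2]
  have hm := mass (ι := ι) hn
  refine ⟨mul_ne_zero ?_ hm.1, ENNReal.mul_ne_top ENNReal.ofReal_ne_top hm.2, rfl⟩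
  simp only [ne_eq, ENNReal.ofReal_eq_zero, not_le]; exact h3

end fin

section blocks

/-- **Product inequality, unnormalised.** -/
theorem prod_ineq {d : ℕ} (p : Fin d → ℕ) (hp : ∀ i, 1 ≤ p i) {n : ℝ} (hn : ((∑ i, p i : ℕ) : ℝ) - 1 < n)
    {S : Matrix ((i : Fin d) × Fin (p i)) ((i : Fin d) × Fin (p i)) ℝ} (hS : S.PosDef)
    {νs : Fin d → ℝ} (hνs : ∀ i, 0 ≤ νs i) (T : Finset (Fin d)) :
    (∏ i ∈ T, ((∫⁻ x, wS n S⁻¹ x * ENNReal.ofReal (mnr (Sigma.mk i) x ^ νs i)) / ∫⁻ x, wS n S⁻¹ x))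
      ≤ (∫⁻ x, wS n S⁻¹ x * ENNReal.ofReal (∏ i ∈ T, mnr (Sigma.mk i) x ^ νs i)) / ∫⁻ x, wS n S⁻¹ x := by
  classical
  have hcard : (Fintype.card ((i : Fin d) × Fin (p i)) : ℝ) = ((∑ i, p i : ℕ) : ℝ) := by
    simp [Fintype.card_sigma]
  have hn' : (Fintype.card ((i : Fin d) × Fin (p i)) : ℝ) - 1 < n := by rw [hcard]; exact hn
  obtain ⟨hM0, hMt, -⟩ := wS_mass hn' hS
  set M := ∫⁻ x, wS n S⁻¹ x with hM
  induction T using Finset.induction_on with
  | empty =>
    simp only [Finset.prod_empty, ENNReal.ofReal_one, mul_one]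
    rw [← hM, ENNReal.div_self hM0 hMt]
  | insert i T hi ih =>
    rw [Finset.prod_insert hi]
    have hJ : Subsingleton ↥T ∨ ∀ j : ↥T, (Fintype.card (Fin (p j)) : ℝ) + (p i : ℝ) ≤ n := by
      by_cases hT : T.card ≤ 1
      · left
        exact Fintype.card_le_one_iff_subsingleton.1 (by simpa using hT)
      · right
        intro j
        have hT2 : 1 < T.card := by omega
        obtain ⟨k, hkT, hkj⟩ := Finset.exists_mem_ne hT2 (j : Fin d)
        have hik : i ≠ k := fun h => hi (h ▸ hkT)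
        have hij : i ≠ (j : Fin d) := fun h => hi (h ▸ j.2)
        have hsub : ({i, (j : Fin d), k} : Finset (Fin d)) ⊆ Finset.univ := Finset.subset_univ _
        have hsum : p i + (p j + p k) ≤ ∑ i, p i := by
          refine le_trans (le_of_eq ?_) (Finset.sum_le_sum_of_subset hsub)
          rw [Finset.sum_insert (by simp [hij, hik]), Finset.sum_insert (by simp [hkj.symm]),
            Finset.sum_singleton]
        have h1 := hp k
        have h2 : p i + p j + 1 ≤ ∑ i, p i := by omega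
        have h3 : ((p i : ℝ) + p j + 1) ≤ ((∑ i, p i : ℕ) : ℝ) := by exact_mod_cast h2
        rw [Fintype.card_fin]
        linarith
    have h2 := two (J := ↥T) (m := fun j => Fin (p j)) hn' hS (νs := fun j => νs j) (fun j => hνs j)
      (hνs i) (a := p i) (fun k => (⟨i, k⟩ : (i : Fin d) × Fin (p i)))
      (sigma_mk_injective (i := i) (β := fun i => Fin (p i)))
      (g := fun j k => (⟨(j : Fin d), k⟩ : (i : Fin d) × Fin (p i))) hJ
    have hprod : ∀ x : Sym2 ((i : Fin d) × Fin (p i)) → ℝ,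
        ∏ j : ↥T, mnr (Sigma.mk (j : Fin d)) x ^ νs j = ∏ j ∈ T, mnr (Sigma.mk j) x ^ νs j :=
      fun x => Finset.prod_coe_sort T (fun j => mnr (Sigma.mk j) x ^ νs j)
    simp only [hprod] at h2
    have hins : ∀ x : Sym2 ((i : Fin d) × Fin (p i)) → ℝ,
        wS n S⁻¹ x * ENNReal.ofReal (∏ j ∈ insert i T, mnr (Sigma.mk j) x ^ νs j)
        = wS n S⁻¹ x * (ENNReal.ofReal (mnr (Sigma.mk i) x ^ νs i) *
          ENNReal.ofReal (∏ j ∈ T, mnr (Sigma.mk j) x ^ νs j)) := by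
      intro x
      by_cases hx : (toM x).PosDef
      · rw [Finset.prod_insert hi, ENNReal.ofReal_mul]
        exact Real.rpow_nonneg (mnr_pos sigma_mk_injective hx).le _
      · rw [wS_of_not hx]; simp
    simp only [hins]
    rw [← hM] at h2
    generalize (∫⁻ x, wS n S⁻¹ x * ENNReal.ofReal (mnr (Sigma.mk i) x ^ νs i)) = A1 at h2 ⊢
    generalize (∫⁻ x, wS n S⁻¹ x * ENNReal.ofReal (∏ j ∈ T, mnr (Sigma.mk j) x ^ νs j)) = A2 at h2 ih ⊢
    generalize (∫⁻ x, wS n S⁻¹ x * (ENNReal.ofReal (mnr (Sigma.mk i) x ^ νs i) *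
          ENNReal.ofReal (∏ j ∈ T, mnr (Sigma.mk j) x ^ νs j))) = A3 at h2 ⊢
    calc A1 / M * ∏ x ∈ T, ((∫⁻ x_1, wS n S⁻¹ x_1 * ENNReal.ofReal (mnr (Sigma.mk x) x_1 ^ νs x)) / M)
        ≤ A1 / M * (A2 / M) := mul_le_mul_right ih _
      _ = (A1 * A2) * (M⁻¹ * M⁻¹) := by simp only [div_eq_mul_inv]; ring
      _ ≤ (M * A3) * (M⁻¹ * M⁻¹) := by gcongr
      _ = (M * M⁻¹) * (A3 * M⁻¹) := by ring
      _ = A3 / M := by rw [ENNReal.mul_inv_cancel hM0 hMt, one_mul, div_eq_mul_inv]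

end blocks

end Pool.Agent.V5helper59.Wish
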